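import Pool.Agent.Lib.MP_1e3e9c_ag.C2.Defs

/-!
# JOB Lift: removing common zeros after a ramified substitution

PROOF. For each i: since Φ i is entire, either Φ i vanishes near z0 or Φ i z = (z - z0)^(o i) * u i z near z0 with u i analytic at z0, u i z0 != 0
(AnalyticAt.exists_eventuallyEq_pow_smul_nonzero_iff). For each s some i with bl i = s is of the second kind: otherwise, taking i with bl i = s and Φ i 0 != 0 (h0), Φ i = 0 near z0
and so everywhere (identity theorem), contradiction. Let r s = min over the i of the second kind with bl i = s of (k / a i) * o i (a natural number; k / a i is exact as a i | k)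
and i_s a minimiser. Put φ w i = 0 for i of the first kind and φ w i = w^(k * o i - r (bl i) * a i) * u i (z0 + w^k) for the second kind; the exponent is a true difference because
r (bl i) * a i <= (k / a i) * o i * a i = k * o i, and it is 0 for i = i_s, so φ 0 (i_s) = u(z0) != 0: Adm bl (φ 0). φ is analytic at 0 (analyticAt_pi_iff).
For w != 0 small: Φ i (z0 + w^k) = (w^k)^(o i) u i (z0 + w^k) = (w^(r (bl i)))^(a i) * φ w i: take l s = w^(r s) != 0.
Last clause: if Adm bl (Φ . z0), then for each s there is i, bl i = s, Φ i z0 != 0, so o i = 0 and r s = 0; then φ 0 i = 0^(k * o i) * u i z0 = Φ i z0 in all cases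
(o i = 0: u i z0 = Φ i z0; o i > 0: both are 0, k > 0; first kind: both 0).
-/

set_option autoImplicit false

open Filter Topology

namespace Pool.Agent.MP1e3e9c.C2

private theorem Lift_fac (f : ℂ → ℂ) (hf : Differentiable ℂ f) (z0 : ℂ) :
    ∃ (o : ℕ) (u : ℂ → ℂ), AnalyticAt ℂ u z0 ∧ (∀ᶠ z in 𝓝 z0, f z = (z - z0) ^ o * u z) ∧
      (u z0 ≠ 0 ∨ ((∀ z, u z = 0) ∧ ∀ z, f z = 0)) := by
  by_cases h : ∀ᶠ z in 𝓝 z0, f z = 0
  · have hfa : AnalyticOnNhd ℂ f Set.univ := fun z _ => hf.analyticAt z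
    have h3 : f = fun _ => (0 : ℂ) := hfa.eq_of_eventuallyEq analyticOnNhd_const h
    refine ⟨0, fun _ => 0, analyticAt_const, ?_, Or.inr ⟨fun _ => rfl, fun z => congrFun h3 z⟩⟩
    filter_upwards [h] with z hz
    rw [hz, mul_zero]
  · obtain ⟨o, u, hu, hu0, he⟩ :=
      ((hf.analyticAt z0).exists_eventuallyEq_pow_smul_nonzero_iff).2 h
    refine ⟨o, u, hu, ?_, Or.inl hu0⟩
    filter_upwards [he] with z hz
    rw [hz, smul_eq_mul]

theorem local_lift {σ I : Type} [Fintype I] (bl : I → σ) (a : I → ℕ) (ha : ∀ i, 0 < a i)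
    (Φ : I → ℂ → ℂ) (hΦ : ∀ i, Differentiable ℂ (Φ i)) (h0 : Adm bl (fun i => Φ i 0)) (z0 : ℂ)
    (k : ℕ) (hk : 0 < k) (hdvd : ∀ i, a i ∣ k) :
    ∃ φ : ℂ → I → ℂ, AnalyticAt ℂ φ 0 ∧ Adm bl (φ 0) ∧
      (∀ᶠ w in 𝓝[≠] (0 : ℂ), TRel bl a (φ w) (fun i => Φ i (z0 + w ^ k))) ∧
      (Adm bl (fun i => Φ i z0) → φ 0 = fun i => Φ i z0) := by
  classical
  choose o u hu he hd using fun i => Lift_fac (Φ i) (hΦ i) z0
  have hne : ∀ s, ∃ i, bl i = s ∧ u i z0 ≠ 0 := by
    intro s
    obtain ⟨i, hi, hi0⟩ := h0 s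
    refine ⟨i, hi, ?_⟩
    rcases hd i with h | h
    · exact h
    · exact absurd (h.2 0) hi0
  obtain ⟨r, hr⟩ : ∃ r : σ → ℕ, ∀ s, r s = sInf {n | ∃ i, bl i = s ∧ u i z0 ≠ 0 ∧ n = k / a i * o i} :=
    ⟨_, fun _ => rfl⟩
  have hrmem : ∀ s, ∃ i, bl i = s ∧ u i z0 ≠ 0 ∧ r s = k / a i * o i := by
    intro s
    obtain ⟨i, hi, hi0⟩ := hne s
    have h1 : ({n | ∃ i, bl i = s ∧ u i z0 ≠ 0 ∧ n = k / a i * o i} : Set ℕ).Nonempty :=
      ⟨_, i, hi, hi0, rfl⟩
    have h2 := Nat.sInf_mem h1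
    rw [← hr s] at h2
    exact h2
  have hrle : ∀ i, u i z0 ≠ 0 → r (bl i) * a i ≤ k * o i := by
    intro i hi
    have h1 : r (bl i) ≤ k / a i * o i := by
      rw [hr]
      exact Nat.sInf_le ⟨i, rfl, hi, rfl⟩
    calc r (bl i) * a i ≤ k / a i * o i * a i := Nat.mul_le_mul_right _ h1
      _ = k / a i * a i * o i := by ring
      _ = k * o i := by rw [Nat.div_mul_cancel (hdvd i)]
  have hz : z0 + (0 : ℂ) ^ k = z0 := by rw [zero_pow hk.ne', add_zero]
  refine ⟨fun w i => w ^ (k * o i - r (bl i) * a i) * u i (z0 + w ^ k), ?_, ?_, ?_, ?_⟩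
  · rw [analyticAt_pi_iff]
    intro i
    refine (analyticAt_id.pow _).mul ?_
    exact (hu i).comp_of_eq (analyticAt_const.add (analyticAt_id.pow k)) hz
  · intro s
    obtain ⟨i, hi, hi0, hri⟩ := hrmem s
    refine ⟨i, hi, ?_⟩
    have h1 : k * o i - r (bl i) * a i = 0 := by
      rw [hi, hri]
      have h2 : k / a i * o i * a i = k * o i := by
        calc k / a i * o i * a i = k / a i * a i * o i := by ring
          _ = k * o i := by rw [Nat.div_mul_cancel (hdvd i)]
      rw [h2, Nat.sub_self]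
    simp only [h1, pow_zero, one_mul, hz]
    exact hi0
  · have ht : Tendsto (fun w : ℂ => z0 + w ^ k) (𝓝[≠] (0 : ℂ)) (𝓝 z0) := by
      have h1 : ContinuousAt (fun w : ℂ => z0 + w ^ k) 0 := by fun_prop
      have h2 : Tendsto (fun w : ℂ => z0 + w ^ k) (𝓝 (0 : ℂ)) (𝓝 (z0 + (0 : ℂ) ^ k)) := h1
      rw [hz] at h2
      exact h2.mono_left nhdsWithin_le_nhds
    have hall : ∀ᶠ w in 𝓝[≠] (0 : ℂ), ∀ i,
        Φ i (z0 + w ^ k) = (z0 + w ^ k - z0) ^ (o i) * u i (z0 + w ^ k) :=
      eventually_all.2 fun i => ht.eventually (he i)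
    filter_upwards [hall, self_mem_nhdsWithin] with w hw hw0
    have hw0' : w ≠ 0 := hw0
    refine ⟨fun s => w ^ r s, fun s => pow_ne_zero _ hw0', fun i => ?_⟩
    rcases hd i with h | h
    · have h1 := hrle i h
      simp only
      rw [hw i, add_sub_cancel_left, ← pow_mul, ← pow_mul, ← mul_assoc, ← pow_add]
      congr 2
      omega
    · simp only [h.1, h.2, mul_zero]
  · intro hadm
    funext i
    simp only [hz]
    rcases hd i with h | h
    · obtain ⟨j, hj, hj0⟩ := hadm (bl i)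
      have e1 : Φ j z0 = (z0 - z0) ^ (o j) * u j z0 := (he j).self_of_nhds
      have hoj : o j = 0 := by
        by_contra hne0
        simp only at hj0
        rw [e1, sub_self, zero_pow hne0, zero_mul] at hj0
        exact hj0 rfl
      have huj : u j z0 ≠ 0 := by
        intro h2
        simp only at hj0
        rw [e1, h2, mul_zero] at hj0
        exact hj0 rfl
      have hr0 : r (bl i) = 0 := by
        have h1 : r (bl i) ≤ k / a j * o j := by
          rw [hr]
          exact Nat.sInf_le ⟨j, hj, huj, rfl⟩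
        rw [hoj, mul_zero] at h1
        exact Nat.le_zero.1 h1
      have e2 : Φ i z0 = (z0 - z0) ^ (o i) * u i z0 := (he i).self_of_nhds
      rw [e2, hr0, zero_mul, Nat.sub_zero, sub_self]
      by_cases ho : o i = 0
      · rw [ho, mul_zero]
      · rw [zero_pow ho, zero_pow (Nat.mul_ne_zero hk.ne' ho)]
    · simp only [h.1, h.2, mul_zero]

end Pool.Agent.MP1e3e9c.C2
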