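import Pool.Agent.Lib.MP_1e3e9c_ag.C2.Homog
import Pool.Agent.Lib.MP_1e3e9c_ag.C2.Lift

/-!
# JOB Glue: entire functions define a holomorphic curve in the product of weighted projective spaces

PROOF. k = prod_i a i (positive, divisible by all a i). For every z0 choose φ_z0 from local_lift and define F z0 = PP.mk (φ_z0 0). If Adm (Φ . z0) then φ_z0 0 = Φ . z0, so
F z0 = PP.mk (Φ . z0).
Hol: at z0 use k and φ_z0. For w near 0, w != 0: φ_z0 w is admissible (Adm is an open condition at φ_z0 0: finitely many.. for each s one fixed coordinate stays nonzero; σ may be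
infinite in principle, but Adm bl (φ 0) with I finite means the finite set of coordinates i with φ 0 i != 0 meets every factor, and these stay nonzero near 0),
and TRel (φ_z0 w) (Φ . (z0 + w^k)), so Φ . (z0+w^k) is admissible (nonzero coordinates correspond) and F(z0+w^k) = PP.mk (Φ . (z0+w^k)) = PP.mk (φ_z0 w) (Quotient.sound).
For w = 0: z0 + 0^k = z0 (k > 0) and F z0 = PP.mk (φ_z0 0) by definition.
Equations: for each z0 the point F z0 = PP.mk (φ_z0 0) and G r vanishes at φ_z0 0: for w != 0 small, eval (Φ . (z0+w^k)) (G r) = 0 and TRel gives, by eval_torus,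
0 = (prod l^d) * eval (φ_z0 w) (G r), so eval (φ_z0 w) (G r) = 0 for w in a punctured neighbourhood; by continuity of w -> eval (φ_z0 w) (G r) at 0 also at w = 0.
-/

set_option autoImplicit false

open MvPolynomial Filter Topology

namespace Pool.Agent.MP1e3e9c.C2

theorem Glue_mk_congr {σ I : Type} (bl : I → σ) (a : I → ℕ) {v w : I → ℂ} (h : Adm bl v)
    (h' : Adm bl w) (e : v = w) : PP.mk bl a v h = PP.mk bl a w h' := by
  subst e; rfl

theorem Glue_adm_of_rel {σ I : Type} {bl : I → σ} {a : I → ℕ} {v w : I → ℂ} (h : Adm bl v)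
    (e : TRel bl a v w) : Adm bl w := by
  obtain ⟨l, hl, e⟩ := e
  intro s
  obtain ⟨i, hi, hv⟩ := h s
  refine ⟨i, hi, ?_⟩
  rw [e i]
  exact mul_ne_zero (pow_ne_zero _ (hl _)) hv

theorem Glue_adm_near {σ I : Type} [Finite σ] [Fintype I] {bl : I → σ} (φ : ℂ → I → ℂ)
    (hc : ContinuousAt φ 0) (h : Adm bl (φ 0)) : ∀ᶠ w in 𝓝 (0 : ℂ), Adm bl (φ w) := by
  choose i hi hv using h
  have h1 : ∀ᶠ w in 𝓝 (0 : ℂ), ∀ s, φ w (i s) ≠ 0 := by
    rw [eventually_all]
    intro s
    exact ((continuousAt_pi.mp hc) (i s)).eventually_ne (hv s)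
  filter_upwards [h1] with w hw s
  exact ⟨i s, hi s, hw s⟩

theorem glue {σ I κ : Type} [Fintype σ] [DecidableEq σ] [Fintype I] (bl : I → σ) (a : I → ℕ)
    (ha : ∀ i, 0 < a i) (G : κ → MvPolynomial I ℂ) (d : κ → σ → ℕ)
    (hG : ∀ r, MHom bl a (G r) (d r))
    (Φ : I → ℂ → ℂ) (hΦ : ∀ i, Differentiable ℂ (Φ i)) (h0 : Adm bl (fun i => Φ i 0))
    (hz : ∀ r z, eval (fun i => Φ i z) (G r) = 0) :
    ∃ F : ℂ → PP bl a, Hol F ∧ (∀ z, F z ∈ Zer bl a G) ∧
      ∀ z (h : Adm bl (fun i => Φ i z)), F z = PP.mk bl a (fun i => Φ i z) h := by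
  classical
  have hk : 0 < ∏ i, a i := Finset.prod_pos fun i _ => ha i
  have hdvd : ∀ i, a i ∣ ∏ j, a j := fun i => Finset.dvd_prod_of_mem a (Finset.mem_univ i)
  choose φ hφa hφadm hφrel hφ0 using
    fun z0 => local_lift bl a ha Φ hΦ h0 z0 (∏ i, a i) hk hdvd
  have key : ∀ z (h : Adm bl (fun i => Φ i z)),
      PP.mk bl a (φ z 0) (hφadm z) = PP.mk bl a (fun i => Φ i z) h :=
    fun z h => Glue_mk_congr bl a _ _ (hφ0 z h)
  refine ⟨fun z => PP.mk bl a (φ z 0) (hφadm z), ?_, ?_, key⟩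
  · intro z0
    refine ⟨∏ i, a i, hk, φ z0, hφa z0, hφadm z0, ?_⟩
    have h1 := Glue_adm_near (φ z0) (hφa z0).continuousAt (hφadm z0)
    have h2 := eventually_nhdsWithin_iff.mp (hφrel z0)
    filter_upwards [h1, h2] with w hw1 hw2
    refine ⟨hw1, ?_⟩
    by_cases h : w = 0
    · subst h
      have e : z0 + (0 : ℂ) ^ (∏ i, a i) = z0 := by rw [zero_pow hk.ne', add_zero]
      refine Glue_mk_congr bl a _ _ ?_
      rw [e]
    · have hr := hw2 h
      have hA := Glue_adm_of_rel hw1 hr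
      rw [key _ hA]
      exact Quotient.sound hr.symm
  · intro z
    refine ⟨φ z 0, hφadm z, rfl, fun r => ?_⟩
    have hcont : ContinuousAt (fun w => eval (φ z w) (G r)) 0 :=
      ((MvPolynomial.continuous_eval (G r)).continuousAt (x := φ z 0)).comp
        (hφa z).continuousAt
    have hzero : ∀ᶠ w in 𝓝[≠] (0 : ℂ), eval (φ z w) (G r) = 0 := by
      filter_upwards [hφrel z] with w hw
      obtain ⟨l, hl, e⟩ := hw
      have h1 := hz r (z + w ^ (∏ i, a i))
      have h2 : (fun i => Φ i (z + w ^ (∏ i, a i))) = fun i => l (bl i) ^ a i * φ z w i :=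
        funext e
      rw [h2, eval_torus bl a (G r) (d r) (hG r) l (φ z w)] at h1
      rcases mul_eq_zero.mp h1 with h3 | h3
      · exact absurd h3 (Finset.prod_ne_zero_iff.mpr fun s _ => pow_ne_zero _ (hl s))
      · exact h3
    have t1 : Tendsto (fun w => eval (φ z w) (G r)) (𝓝[≠] (0 : ℂ)) (𝓝 (eval (φ z 0) (G r))) :=
      hcont.tendsto.mono_left nhdsWithin_le_nhds
    have t2 : Tendsto (fun w => eval (φ z w) (G r)) (𝓝[≠] (0 : ℂ)) (𝓝 0) :=
      tendsto_const_nhds.congr' (hzero.mono fun w hw => hw.symm)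
    exact tendsto_nhds_unique t1 t2

end Pool.Agent.MP1e3e9c.C2
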