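import Pool.Agent.Lib.MP_1e3e9c_ag.C2.Defs

/-!
# JOB Quadr: writing E = A y^2 + B y + C

PROOF. Let E have degreeOf y E <= 2. Take A, B, C = the sums of the monomials of E with y-exponent 2, 1, 0, with that power of y removed:
A = sum over d in E.support with d y = 2 of monomial (d.erase y) (coeff d E), and so on (Finsupp.erase; monomial (d.erase y) c * X y ^ (d y) = monomial d c).
Then y is not in the variables (degreeOf y = 0; exponents at y are 0), E = A y^2 + B y + C because every d in the support has d y in {0,1,2} (degreeOf_lt_iff / le_degreeOf).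
Weights: d in the support has weight sum_i d_i n_i = D; d.erase y has weight D - (d y) * n y. So A, B, C are weighted homogeneous for the weights n of degrees
D - 2 n y, D - n y, D (truncated subtraction; if A != 0 it is a true one). For the weights n' = n off y, n' y = 0, the same (y does not occur).
Δ = B^2 - 4 A C is weighted homogeneous (weights n') of degree 2 (D - n y): B^2: 2(D - n y). A C: if A = 0 trivial (zero polynomial is homogeneous of every degree);
otherwise 2 n y <= D and (D - 2 n y) + D = 2 (D - n y).
(IsWeightedHomogeneous n G k means: for all d, coeff d G != 0 -> weight n d = k.)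
update_eval: if y does not occur in G (d y = 0 on the support) then eval (Function.update v y c) G = eval v G; here stated for A, B, C.
-/

set_option autoImplicit false

open MvPolynomial

namespace Pool.Agent.MP1e3e9c.C2

theorem Quadr_zero_of_deg {I : Type} [DecidableEq I] (G : MvPolynomial I ℂ) (y : I)
    (hy : G.degreeOf y = 0) (d : I →₀ ℕ) (hd : d ∈ G.support) : d y = 0 := by
  have h := MvPolynomial.monomial_le_degreeOf y hd
  rw [hy] at h
  exact Nat.le_zero.mp h

theorem eval_update_of_notMem {I : Type} [DecidableEq I] (G : MvPolynomial I ℂ) (y : I)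
    (hy : G.degreeOf y = 0) (v : I → ℂ) (c : ℂ) :
    eval (Function.update v y c) G = eval v G := by
  rw [MvPolynomial.eval_eq, MvPolynomial.eval_eq]
  apply Finset.sum_congr rfl
  intro d hd
  have hdy := Quadr_zero_of_deg G y hy d hd
  apply congrArg (fun z => coeff d G * z)
  apply Finset.prod_congr rfl
  intro i hi
  have hne : i ≠ y := by
    intro h
    rw [Finsupp.mem_support_iff, h] at hi
    exact hi hdy
  rw [Function.update_of_ne hne]

theorem Quadr_weight_change {I : Type} [DecidableEq I] (n : I → ℕ) (y : I) (d : I →₀ ℕ)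
    (hd : d y = 0) :
    Finsupp.weight (fun i => if i = y then 0 else n i) d = Finsupp.weight n d := by
  rw [Finsupp.weight_apply, Finsupp.weight_apply]
  unfold Finsupp.sum
  apply Finset.sum_congr rfl
  intro i hi
  have hne : i ≠ y := by
    intro h
    rw [Finsupp.mem_support_iff, h] at hi
    exact hi hd
  show d i • (if i = y then 0 else n i) = d i • n i
  rw [if_neg hne]

theorem wh_change {I : Type} [DecidableEq I] (G : MvPolynomial I ℂ) (y : I)
    (hy : G.degreeOf y = 0) (n : I → ℕ) (D : ℕ) (hG : G.IsWeightedHomogeneous n D) :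
    G.IsWeightedHomogeneous (fun i => if i = y then 0 else n i) D := by
  intro d hd
  rw [Quadr_weight_change n y d
    (Quadr_zero_of_deg G y hy d (MvPolynomial.mem_support_iff.mpr hd))]
  exact hG hd

noncomputable def Quadr_piece {I : Type} [DecidableEq I] (E : MvPolynomial I ℂ) (y : I) (k : ℕ) :
    MvPolynomial I ℂ :=
  ∑ d ∈ E.support.filter (fun d => d y = k), monomial (d.erase y) (coeff d E)

theorem Quadr_piece_deg {I : Type} [DecidableEq I] (E : MvPolynomial I ℂ) (y : I) (k : ℕ) :
    (Quadr_piece E y k).degreeOf y = 0 := by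
  have h : (Quadr_piece E y k).degreeOf y ≤ 0 := by
    unfold Quadr_piece
    refine le_trans (MvPolynomial.degreeOf_sum_le y _ _) ?_
    apply Finset.sup_le
    intro d hd
    rw [MvPolynomial.degreeOf_le_iff]
    intro m hm
    have hm2 := MvPolynomial.support_monomial_subset hm
    rw [Finset.mem_singleton] at hm2
    rw [hm2]
    simp
  exact Nat.le_zero.mp h

theorem Quadr_weight_erase {I : Type} [DecidableEq I] (n : I → ℕ) (y : I) (d : I →₀ ℕ) :
    Finsupp.weight n d = Finsupp.weight n (d.erase y) + d y * n y := by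
  have h : d.erase y + Finsupp.single y (d y) = d := Finsupp.erase_add_single y d
  have h2 := congrArg (Finsupp.weight n) h
  rw [map_add, Finsupp.weight_single, smul_eq_mul] at h2
  exact h2.symm

theorem Quadr_piece_wh {I : Type} [DecidableEq I] (n : I → ℕ) (E : MvPolynomial I ℂ) (D : ℕ)
    (hE : E.IsWeightedHomogeneous n D) (y : I) (k : ℕ) :
    (Quadr_piece E y k).IsWeightedHomogeneous (fun i => if i = y then 0 else n i)
      (D - k * n y) := by
  unfold Quadr_piece
  apply MvPolynomial.IsWeightedHomogeneous.sum
  intro d hd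
  rw [Finset.mem_filter] at hd
  apply MvPolynomial.isWeightedHomogeneous_monomial
  rw [Quadr_weight_change n y (d.erase y) (by simp)]
  have h1 := Quadr_weight_erase n y d
  have h2 := hE (MvPolynomial.mem_support_iff.mp hd.1)
  rw [hd.2] at h1
  omega

theorem Quadr_piece_zero {I : Type} [DecidableEq I] (n : I → ℕ) (E : MvPolynomial I ℂ) (D : ℕ)
    (hE : E.IsWeightedHomogeneous n D) (y : I) (k : ℕ) (hk : D < k * n y) :
    Quadr_piece E y k = 0 := by
  unfold Quadr_piece
  have h : E.support.filter (fun d => d y = k) = ∅ := by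
    rw [Finset.filter_eq_empty_iff]
    intro d hd hdk
    have h1 := Quadr_weight_erase n y d
    have h2 := hE (MvPolynomial.mem_support_iff.mp hd)
    rw [hdk] at h1
    omega
  rw [h, Finset.sum_empty]

theorem Quadr_piece_mul {I : Type} [DecidableEq I] (E : MvPolynomial I ℂ) (y : I) (k : ℕ) :
    Quadr_piece E y k * X y ^ k =
      ∑ d ∈ E.support.filter (fun d => d y = k), monomial d (coeff d E) := by
  unfold Quadr_piece
  rw [Finset.sum_mul]
  apply Finset.sum_congr rfl
  intro d hd
  rw [Finset.mem_filter] at hd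
  rw [MvPolynomial.X_pow_eq_monomial, MvPolynomial.monomial_mul, mul_one]
  have h : d.erase y + Finsupp.single y k = d := by
    rw [← hd.2]
    exact Finsupp.erase_add_single y d
  rw [h]

theorem Quadr_decomp {I : Type} [DecidableEq I] (E : MvPolynomial I ℂ) (y : I)
    (hy : E.degreeOf y ≤ 2) :
    E = Quadr_piece E y 2 * X y ^ 2 + Quadr_piece E y 1 * X y + Quadr_piece E y 0 := by
  have h2 := Quadr_piece_mul E y 2
  have h1 := Quadr_piece_mul E y 1
  have h0 := Quadr_piece_mul E y 0
  rw [pow_one] at h1
  rw [pow_zero, mul_one] at h0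
  rw [h2, h1, h0]
  have hE := MvPolynomial.support_sum_monomial_coeff E
  have hmem : ∀ d ∈ E.support, d y = 2 ∨ d y = 1 ∨ d y = 0 := by
    intro d hd
    have h := MvPolynomial.monomial_le_degreeOf y hd
    omega
  have key : ∑ d ∈ E.support, monomial d (coeff d E) =
      ∑ d ∈ E.support.filter (fun d => d y = 2), monomial d (coeff d E) +
      ∑ d ∈ E.support.filter (fun d => d y = 1), monomial d (coeff d E) +
      ∑ d ∈ E.support.filter (fun d => d y = 0), monomial d (coeff d E) := by
    rw [Finset.sum_filter, Finset.sum_filter, Finset.sum_filter, ← Finset.sum_add_distrib,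
      ← Finset.sum_add_distrib]
    apply Finset.sum_congr rfl
    intro d hd
    rcases hmem d hd with h | h | h
    · rw [h]; simp
    · rw [h]; simp
    · rw [h]; simp
  rw [← key]
  exact hE.symm

theorem quadr {I : Type} [DecidableEq I] (n : I → ℕ) (E : MvPolynomial I ℂ) (D : ℕ)
    (hE : E.IsWeightedHomogeneous n D) (y : I) (hy : E.degreeOf y ≤ 2) :
    ∃ A B C : MvPolynomial I ℂ, A.degreeOf y = 0 ∧ B.degreeOf y = 0 ∧ C.degreeOf y = 0 ∧
      E = A * X y ^ 2 + B * X y + C ∧
      (B ^ 2 - 4 * A * C).degreeOf y = 0 ∧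
      (B ^ 2 - 4 * A * C).IsWeightedHomogeneous (fun i => if i = y then 0 else n i)
        (2 * (D - n y)) := by
  have dA := Quadr_piece_deg E y 2
  have dB := Quadr_piece_deg E y 1
  have dC := Quadr_piece_deg E y 0
  have h4 : (4 : MvPolynomial I ℂ) = MvPolynomial.C (4 : ℂ) := by
    rw [map_ofNat]
  have e4 : (4 : MvPolynomial I ℂ) * Quadr_piece E y 2 * Quadr_piece E y 0 =
      MvPolynomial.C (4 : ℂ) * (Quadr_piece E y 2 * Quadr_piece E y 0) := by
    rw [h4, mul_assoc]
  refine ⟨Quadr_piece E y 2, Quadr_piece E y 1, Quadr_piece E y 0, dA, dB, dC,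
    Quadr_decomp E y hy, ?_, ?_⟩
  · have h1 := MvPolynomial.degreeOf_sub_le y (Quadr_piece E y 1 ^ 2)
      (4 * Quadr_piece E y 2 * Quadr_piece E y 0)
    have h2 := MvPolynomial.degreeOf_pow_le y (Quadr_piece E y 1) 2
    have h3 : ((4 : MvPolynomial I ℂ) * Quadr_piece E y 2 * Quadr_piece E y 0).degreeOf y ≤ 0 := by
      rw [e4]
      refine le_trans (MvPolynomial.degreeOf_C_mul_le _ _ _) ?_
      refine le_trans (MvPolynomial.degreeOf_mul_le y _ _) ?_
      rw [dA, dC]
    rw [dB] at h2
    have h5 : max ((Quadr_piece E y 1 ^ 2).degreeOf y)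
        (((4 : MvPolynomial I ℂ) * Quadr_piece E y 2 * Quadr_piece E y 0).degreeOf y) ≤ 0 :=
      max_le (by omega) h3
    omega
  · apply MvPolynomial.IsWeightedHomogeneous.sub
    · have h := (Quadr_piece_wh n E D hE y 1).pow 2
      rw [one_mul, smul_eq_mul] at h
      exact h
    · rw [e4]
      apply MvPolynomial.IsWeightedHomogeneous.C_mul
      by_cases hlt : D < 2 * n y
      · rw [Quadr_piece_zero n E D hE y 2 hlt, zero_mul]
        exact MvPolynomial.isWeightedHomogeneous_zero ℂ _ _
      · have h := (Quadr_piece_wh n E D hE y 2).mul (Quadr_piece_wh n E D hE y 0)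
        have e : D - 2 * n y + (D - 0 * n y) = 2 * (D - n y) := by
          rw [zero_mul]
          omega
        rw [e] at h
        exact h

end Pool.Agent.MP1e3e9c.C2
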