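import Pool.Agent.Lib.MP_1e3e9c_ag.C2.CoreF
import Pool.Agent.Lib.MP_1e3e9c_ag.C2.Glue
import Pool.Agent.Lib.MP_1e3e9c_ag.C2.Quadr

/-!
# Auxiliary lemmas for curves of multidegree `δ`
-/

set_option autoImplicit false

open MvPolynomial

namespace Pool.Agent.MP1e3e9c.C2

theorem mhom_delta {σ I : Type} [DecidableEq σ] [Fintype σ] (bl : I → σ) (a : I → ℕ)
    (G : MvPolynomial I ℂ) (d : σ → ℕ) (hG : MHom bl a G d) (δ : σ → ℕ) :
    G.IsWeightedHomogeneous (fun i => δ (bl i) * a i) (∑ s, δ s * d s) := by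
  intro e he
  have hw : Finsupp.weight (fun i => (Pi.single (bl i) (a i) : σ → ℕ)) e = d := hG he
  rw [← hw, Finsupp.weight_apply, Finsupp.weight_apply, Finsupp.sum, Finsupp.sum]
  simp only [Finset.sum_apply, Finset.mul_sum]
  rw [Finset.sum_comm]
  refine Finset.sum_congr rfl fun i _ => ?_
  rw [Finset.sum_eq_single (bl i)]
  · simp only [smul_eq_mul, Pi.smul_apply, Pi.single_eq_same]
    ring
  · intro s _ hs
    simp only [Pi.smul_apply, Pi.single_eq_of_ne hs, smul_zero, mul_zero]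
  · intro h
    exact absurd (Finset.mem_univ _) h

/-- `w` and `v` differ by the torus, except possibly in the coordinate `y` -/
def Trel {σ I : Type} (bl : I → σ) (a : I → ℕ) (y : I) (v w : I → ℂ) : Prop :=
  ∃ l : σ → ℂ, (∀ s, l s ≠ 0) ∧ ∀ i, i ≠ y → w i = l (bl i) ^ a i * v i

theorem Trel_scale {σ I : Type} [DecidableEq I] (bl : I → σ) (a : I → ℕ) (y : I) (v : I → ℂ)
    (δ : σ → ℕ) (w : I → ℂ) (s : ℂ) (hs : s ≠ 0) (h : Trel bl a y v w) :
    Trel bl a y v fun i => s ^ cdeg bl a y δ i * w i := by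
  obtain ⟨l, hl, h⟩ := h
  refine ⟨fun t => s ^ δ t * l t, fun t => mul_ne_zero (pow_ne_zero _ hs) (hl t), fun i hi => ?_⟩
  show s ^ cdeg bl a y δ i * w i = (s ^ δ (bl i) * l (bl i)) ^ a i * v i
  rw [cdeg, if_neg hi, h i hi, mul_pow, ← pow_mul]
  ring

theorem exists_pos_coord {I : Type} (n : I → ℕ) (Δ : MvPolynomial I ℂ) (N : ℕ)
    (hΔ : Δ.IsWeightedHomogeneous n N) (hN : 0 < N) (v : I → ℂ) (hv : eval v Δ ≠ 0) :
    ∃ i, 0 < n i ∧ v i ≠ 0 := by
  by_contra hcon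
  push Not at hcon
  apply hv
  have h1 := eval_weighted n Δ N hΔ 0 v
  have h2 : (fun i => (0 : ℂ) ^ n i * v i) = v := by
    funext i
    rcases Nat.eq_zero_or_pos (n i) with h | h
    · rw [h, pow_zero, one_mul]
    · rw [hcon i h, mul_zero]
  rw [h2, zero_pow hN.ne', zero_mul] at h1
  exact h1

end Pool.Agent.MP1e3e9c.C2
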