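import Pool.Agent.Lib.MP_1e3e9c_ag.C2.DefsG
import Pool.Agent.Lib.MP_214270_ag.Tsen

/-!
# JOB CIDim: the dimension of the space of curves in a complete intersection

PROOF. A = curveIdeal n p g is spanned by the elements (genV n p (g j)).coeff (l+1), j in J, l < D j (a finite set S of at most sum D j elements): the coefficients of t^0 vanish
(coefficient 0 of genV n p (g j) is C (eval p (g j)) = 0: evaluate the polynomial variable at 0; genX has constant coefficient C (p i)), and the coefficients of t^l with l > D j vanish, because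
natDegree (genV n p (g j)) <= D j (same proof as Sys_deg: natDegree (genX n p i) <= n i, monomials of weight D j; over the ring MvPolynomial (Un n) ℂ).
m0 = ker constantCoeff is prime (maximal) of height card (Un n) = sum n i (Pool.Agent.MP214270.height_origin gives the height of vanishingIdeal {0}; it equals ker constantCoeff,
or use height_mv of file Ht for B = ℂ, M = 0). A <= m0 (evaluate at 0). Ideal.height_le_height_add_encard_of_subset S (S subset of m0):
m0.height <= (m0.map (Ideal.Quotient.mk (span S))).height + S.encard, i.e. sum n i <= curveDim + sum D j. Conclude (ENat: if curveDim is finite, omega after casting).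
-/

set_option autoImplicit false

open MvPolynomial

namespace Pool.Agent.MP1e3e9c.C2

private theorem CIDim_genX_deg {I : Type} (n : I → ℕ) (p : I → ℂ) (i : I) :
    (genX n p i).natDegree ≤ n i := by
  unfold genX
  refine (Polynomial.natDegree_add_le _ _).trans (max_le ?_ ?_)
  · rw [Polynomial.natDegree_C]
    exact Nat.zero_le _
  · refine Polynomial.natDegree_sum_le_of_forall_le _ _ fun l _ => ?_
    refine (Polynomial.natDegree_C_mul_X_pow_le _ _).trans ?_
    exact l.isLt

private theorem CIDim_genV_deg {I : Type} [Fintype I] (n : I → ℕ) (p : I → ℂ)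
    (G : MvPolynomial I ℂ) (D : ℕ) (hG : G.IsWeightedHomogeneous n D) :
    (genV n p G).natDegree ≤ D := by
  unfold genV
  rw [eval₂_eq']
  refine Polynomial.natDegree_sum_le_of_forall_le _ _ fun d hd => ?_
  have h1 : Finsupp.weight n d = D := hG (mem_support_iff.1 hd)
  have h2 : ∑ i, d i * n i = D := by
    rw [← h1, Finsupp.weight_apply, Finsupp.sum_fintype _ _ (fun i => by simp)]
    rfl
  rw [← h2]
  refine Polynomial.natDegree_mul_le.trans ?_
  rw [RingHom.comp_apply, Polynomial.natDegree_C, zero_add]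
  refine (Polynomial.natDegree_prod_le _ _).trans ?_
  refine Finset.sum_le_sum fun i _ => ?_
  refine Polynomial.natDegree_pow_le.trans ?_
  exact Nat.mul_le_mul_left _ (CIDim_genX_deg n p i)

private theorem CIDim_genX_zero {I : Type} (n : I → ℕ) (p : I → ℂ) (i : I) :
    (genX n p i).coeff 0 = C (p i) := by
  unfold genX
  rw [Polynomial.coeff_add, Polynomial.coeff_C_zero, Polynomial.finsetSum_coeff]
  rw [Finset.sum_eq_zero, add_zero]
  intro l _
  rw [Polynomial.coeff_C_mul, Polynomial.coeff_X_pow, if_neg (by omega), mul_zero]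

private theorem CIDim_genV_zero {I : Type} (n : I → ℕ) (p : I → ℂ)
    (G : MvPolynomial I ℂ) : (genV n p G).coeff 0 = C (eval p G) := by
  unfold genV
  rw [Polynomial.coeff_zero_eq_eval_zero, ← Polynomial.coe_evalRingHom, eval₂_comp_left]
  have h1 : (Polynomial.evalRingHom (0 : MvPolynomial (Un n) ℂ)).comp
      (Polynomial.C.comp (C : ℂ →+* MvPolynomial (Un n) ℂ)) = C := by
    ext a
    simp
  have h2 : (⇑(Polynomial.evalRingHom (0 : MvPolynomial (Un n) ℂ)) ∘ genX n p) =
      fun i => C (p i) := by
    funext i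
    rw [Function.comp_apply, Polynomial.coe_evalRingHom, ← Polynomial.coeff_zero_eq_eval_zero]
    exact CIDim_genX_zero n p i
  rw [h1, h2]
  have h3 := eval₂_comp_left (C : ℂ →+* MvPolynomial (Un n) ℂ) (RingHom.id ℂ) p G
  rw [RingHom.comp_id] at h3
  exact h3.symm

private theorem CIDim_genV_map {I : Type} (n : I → ℕ) (p : I → ℂ)
    (G : MvPolynomial I ℂ) :
    (genV n p G).map (constantCoeff : MvPolynomial (Un n) ℂ →+* ℂ) =
      Polynomial.C (eval p G) := by
  unfold genV
  rw [← Polynomial.coe_mapRingHom, eval₂_comp_left]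
  have h1 : (Polynomial.mapRingHom (constantCoeff : MvPolynomial (Un n) ℂ →+* ℂ)).comp
      (Polynomial.C.comp (C : ℂ →+* MvPolynomial (Un n) ℂ)) = Polynomial.C := by
    refine RingHom.ext fun a => ?_
    simp
  have h2 : (⇑(Polynomial.mapRingHom (constantCoeff : MvPolynomial (Un n) ℂ →+* ℂ)) ∘
      genX n p) = fun i => Polynomial.C (p i) := by
    funext i
    simp [genX, Polynomial.map_sum]
  rw [h1, h2]
  have h3 := eval₂_comp_left (Polynomial.C : ℂ →+* Polynomial ℂ) (RingHom.id ℂ) p G
  rw [RingHom.comp_id] at h3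
  exact h3.symm

private theorem CIDim_height {I : Type} [Fintype I] (n : I → ℕ) :
    (RingHom.ker (constantCoeff : MvPolynomial (Un n) ℂ →+* ℂ)).height =
      ((∑ i, n i : ℕ) : ℕ∞) := by
  have h1 : RingHom.ker (constantCoeff : MvPolynomial (Un n) ℂ →+* ℂ) =
      vanishingIdeal ℂ ({0} : Set (Un n → ℂ)) := by
    ext q
    rw [RingHom.mem_ker, mem_vanishingIdeal_iff]
    constructor
    · intro h x hx
      rw [Set.mem_singleton_iff] at hx
      rw [hx]
      simpa [aeval_zero] using h
    · intro h
      have h2 := h 0 rfl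
      simpa [aeval_zero] using h2
  rw [h1, Pool.Agent.MP214270.height_origin]
  simp [Un]

theorem curveDim_ci {I J : Type} [Fintype I] [Fintype J] (n : I → ℕ) (p : I → ℂ) (D : J → ℕ)
    (g : J → MvPolynomial I ℂ) (hg : ∀ j, (g j).IsWeightedHomogeneous n (D j))
    (hgp : ∀ j, eval p (g j) = 0) (R : ℕ) (hR : ∑ j, D j + R ≤ ∑ i, n i) :
    (R : ℕ∞) ≤ curveDim n p g := by
  classical
  obtain ⟨S, hS⟩ : ∃ S : Set (MvPolynomial (Un n) ℂ),
      S = Set.range fun q : Σ j : J, Fin (D j) => (genV n p (g q.1)).coeff ((q.2 : ℕ) + 1) :=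
    ⟨_, rfl⟩
  have hA : curveIdeal n p g = Ideal.span S := by
    apply le_antisymm
    · unfold curveIdeal
      rw [Ideal.span_le]
      rintro c ⟨j, l, rfl⟩
      rw [SetLike.mem_coe]
      rcases Nat.eq_zero_or_pos l with h | h
      · rw [h, CIDim_genV_zero, hgp j, map_zero]
        exact zero_mem _
      · by_cases hl : l ≤ D j
        · refine Ideal.subset_span ?_
          rw [hS]
          refine ⟨⟨j, ⟨l - 1, by omega⟩⟩, ?_⟩
          show (genV n p (g j)).coeff (l - 1 + 1) = _
          rw [Nat.sub_add_cancel h]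
        · rw [Polynomial.coeff_eq_zero_of_natDegree_lt
            ((CIDim_genV_deg n p (g j) (D j) (hg j)).trans_lt (not_le.1 hl))]
          exact zero_mem _
    · rw [Ideal.span_le, hS]
      rintro c ⟨q, rfl⟩
      exact Ideal.subset_span ⟨q.1, (q.2 : ℕ) + 1, rfl⟩
  have hsub : S ⊆ (RingHom.ker (constantCoeff : MvPolynomial (Un n) ℂ →+* ℂ) :
      Set (MvPolynomial (Un n) ℂ)) := by
    rw [hS]
    rintro c ⟨q, rfl⟩
    rw [SetLike.mem_coe, RingHom.mem_ker]
    have h1 := congrArg (fun r => r.coeff ((q.2 : ℕ) + 1)) (CIDim_genV_map n p (g q.1))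
    simp only [Polynomial.coeff_map] at h1
    rw [h1, Polynomial.coeff_C_succ]
  have hprime : (RingHom.ker (constantCoeff : MvPolynomial (Un n) ℂ →+* ℂ)).IsPrime :=
    RingHom.ker_isPrime _
  have h1 := Ideal.height_le_height_add_encard_of_subset S hsub
  rw [CIDim_height, ← hA] at h1
  have h2 : S.encard ≤ ((∑ j, D j : ℕ) : ℕ∞) := by
    rw [hS, ← Set.image_univ]
    refine (Set.encard_image_le _ _).trans ?_
    rw [Set.encard_univ, ENat.card_eq_coe_fintype_card]
    simp
  have h3 : ((∑ i, n i : ℕ) : ℕ∞) ≤ curveDim n p g + ((∑ j, D j : ℕ) : ℕ∞) := by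
    refine h1.trans ?_
    unfold curveDim dimAt
    exact add_le_add le_rfl h2
  rcases eq_or_ne (curveDim n p g) ⊤ with h4 | h4
  · rw [h4]
    exact le_top
  · obtain ⟨c, hc⟩ := ENat.ne_top_iff_exists.1 h4
    rw [← hc] at h3 ⊢
    have h5 : ∑ i, n i ≤ c + ∑ j, D j := by exact_mod_cast h3
    have h6 : R ≤ c := by omega
    exact_mod_cast h6

end Pool.Agent.MP1e3e9c.C2
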