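import Mathlib

/-!
# JOB Ht: heights in polynomial rings

PROOF. Induction on the finite type ι (Finite.induction_empty_option, or first for Fin n with MvPolynomial.finSuccEquiv and then rename), using the ring isomorphism
MvPolynomial (Option ι) B = Polynomial (MvPolynomial ι B) (MvPolynomial.optionEquivLeft), Mathlib's
  Polynomial.height_eq_height_add_one (p : Ideal R) (P : Ideal R[X]) [P.IsMaximal] [P.LiesOver p] : P.height = p.height + 1   (R Noetherian),
RingEquiv.height_comap (or height_map), and: the comap of M under constantCoeff : MvPolynomial (Option ι) B ->+* B corresponds to the ideal P = comap of (comap of M under constantCoeff : MvPolynomial ι B ->+* B)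
under Polynomial.constantCoeff; P is maximal (comap of a maximal ideal under a surjective ring hom: Ideal.comap_isMaximal_of_surjective), and P lies over p = comap M constantCoeff
(P.comap C = p since constantCoeff (C b) = b). Start: ι empty, constantCoeff is a ring isomorphism (MvPolynomial.isEmptyRingEquiv).
-/

set_option autoImplicit false

open MvPolynomial

namespace Pool.Agent.MP1e3e9c.C2

private theorem Ht_coeff {B : Type} [CommRing B] (n : ℕ) (f : MvPolynomial (Fin (n + 1)) B) :
    (constantCoeff : MvPolynomial (Fin n) B →+* B)
      (Polynomial.constantCoeff (finSuccEquiv B n f)) = constantCoeff f := by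
  have h := finSuccEquiv_coeff_coeff (0 : Fin n →₀ ℕ) f 0
  rw [Finsupp.cons_zero_zero] at h
  exact h

private theorem Ht_fin {B : Type} [CommRing B] [IsNoetherianRing B] (M : Ideal B) [M.IsMaximal]
    (n : ℕ) : (Ideal.comap (constantCoeff : MvPolynomial (Fin n) B →+* B) M).height =
      M.height + (n : ℕ∞) := by
  induction n with
  | zero =>
    have h1 : Ideal.comap (constantCoeff : MvPolynomial (Fin 0) B →+* B) M =
        Ideal.comap (isEmptyRingEquiv B (Fin 0)) M := by
      ext x
      rw [Ideal.mem_comap, Ideal.mem_comap]
      rfl
    rw [h1, RingEquiv.height_comap, Nat.cast_zero, add_zero]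
  | succ n ih =>
    have hs : Function.Surjective (constantCoeff : MvPolynomial (Fin n) B →+* B) := fun b =>
      ⟨C b, constantCoeff_C _ b⟩
    have hp : (Ideal.comap (constantCoeff : MvPolynomial (Fin n) B →+* B) M).IsMaximal :=
      Ideal.comap_isMaximal_of_surjective _ hs
    have hP : (Ideal.comap (Polynomial.constantCoeff :
        Polynomial (MvPolynomial (Fin n) B) →+* MvPolynomial (Fin n) B)
        (Ideal.comap (constantCoeff : MvPolynomial (Fin n) B →+* B) M)).IsMaximal :=
      Ideal.comap_isMaximal_of_surjective _ Polynomial.constantCoeff_surjective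
    have hl : (Ideal.comap (Polynomial.constantCoeff :
        Polynomial (MvPolynomial (Fin n) B) →+* MvPolynomial (Fin n) B)
        (Ideal.comap (constantCoeff : MvPolynomial (Fin n) B →+* B) M)).LiesOver
        (Ideal.comap (constantCoeff : MvPolynomial (Fin n) B →+* B) M) := by
      refine ⟨?_⟩
      ext x
      rw [Ideal.mem_comap]
      show _ ↔ constantCoeff (Polynomial.constantCoeff (Polynomial.C x)) ∈ M
      rw [Polynomial.constantCoeff_apply, Polynomial.coeff_C_zero]
    have h2 := Polynomial.height_eq_height_add_one
      (Ideal.comap (constantCoeff : MvPolynomial (Fin n) B →+* B) M)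
      (Ideal.comap (Polynomial.constantCoeff :
        Polynomial (MvPolynomial (Fin n) B) →+* MvPolynomial (Fin n) B)
        (Ideal.comap (constantCoeff : MvPolynomial (Fin n) B →+* B) M))
    have h3 : Ideal.comap (constantCoeff : MvPolynomial (Fin (n + 1)) B →+* B) M =
        Ideal.comap (finSuccEquiv B n).toRingEquiv (Ideal.comap (Polynomial.constantCoeff :
        Polynomial (MvPolynomial (Fin n) B) →+* MvPolynomial (Fin n) B)
        (Ideal.comap (constantCoeff : MvPolynomial (Fin n) B →+* B) M)) := by
      ext x
      rw [Ideal.mem_comap, Ideal.mem_comap, Ideal.mem_comap, Ideal.mem_comap]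
      show _ ↔ constantCoeff (Polynomial.constantCoeff (finSuccEquiv B n x)) ∈ M
      rw [Ht_coeff]
    rw [h3, RingEquiv.height_comap, h2, ih, Nat.cast_add, Nat.cast_one, add_assoc]

theorem height_mv {B : Type} [CommRing B] [IsNoetherianRing B] (M : Ideal B) [M.IsMaximal]
    (ι : Type) [Fintype ι] :
    (Ideal.comap (constantCoeff : MvPolynomial ι B →+* B) M).height =
      M.height + (Fintype.card ι : ℕ∞) := by
  have h3 : Ideal.comap (constantCoeff : MvPolynomial ι B →+* B) M =
      Ideal.comap (renameEquiv B (Fintype.equivFin ι)).toRingEquiv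
        (Ideal.comap (constantCoeff : MvPolynomial (Fin (Fintype.card ι)) B →+* B) M) := by
    ext x
    rw [Ideal.mem_comap, Ideal.mem_comap, Ideal.mem_comap]
    show _ ↔ constantCoeff (rename (Fintype.equivFin ι) x) ∈ M
    rw [constantCoeff_rename]
  rw [h3, RingEquiv.height_comap, Ht_fin]

end Pool.Agent.MP1e3e9c.C2
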