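import Pool.Agent.Lib.MP_1e3e9c_ag.C2.DefsG
import Pool.Agent.Lib.MP_1e3e9c_ag.C2.Ht
import Pool.Agent.Lib.MP_214270_ag.Tsen

/-!
# JOB CZ: fewer equations than the local dimension

PROOF. m0 = ker constantCoeff (maximal). B = MvPolynomial U1 ℂ ⧸ A, M = m0.map (Ideal.Quotient.mk A), maximal since A <= m0 (Ideal.map_isMaximal..: quotient map surjective, ker <= m0),
M.height = dimAt A. C = MvPolynomial U2 B, P = comap constantCoeff M, maximal, P.height = dimAt A + card U2 by height_mv.
pi : MvPolynomial (U1 ⊕ U2) ℂ ->+* C, X (inl u) -> C (mk (X u)), X (inr u) -> X u, C c -> C (mk (C c)): eval2Hom. It is surjective (or: sumAlgEquiv / sumToIter after swapping the summands, followed by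
MvPolynomial.map (Ideal.Quotient.mk A)), and for q in A: pi (rename inl q) = C (mk q) = 0.
Assume that there is no c as claimed. CLAIM: P is a minimal prime over J = span (pi (f i)). First J <= P: constantCoeff (pi (f i)) = mk of the part of f i without inr-variables, it lies in M since
constantCoeff (f i) = 0 (P.comap pi is the ideal ker constantCoeff of MvPolynomial (U1 ⊕ U2) ℂ). Let Q be a prime with J <= Q <= P. Q' = comap pi Q is prime, contains f i and rename inl q, q in A. Every
point c of the zero locus of Q' satisfies eval (c ∘ inl) q = eval c (rename inl q) = 0 and eval c (f i) = 0, so c = 0. By the Nullstellensatz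
(MvPolynomial.vanishingIdeal_zeroLocus_eq_radical, as in Lib/MP_214270_ag/Tsen.lean) Q' = radical Q' = vanishingIdeal (zeroLocus Q') contains vanishingIdeal {0} = ker constantCoeff = comap pi P; so
P <= Q (pi surjective). Krull: Ideal.height_le_card_of_mem_minimalPrimes_span_finset (J is spanned by Finset.univ.image): P.height <= card κ, contradiction with hcard.
(IsNoetherianRing C: instances.) If you prefer, use Ideal.height_le_iff / mem_minimalPrimes by definition: Q prime, J <= Q, Q <= P -> P <= Q.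
-/

set_option autoImplicit false

open MvPolynomial

namespace Pool.Agent.MP1e3e9c.C2

theorem common_zero_gen {U1 U2 κ : Type} [Fintype U1] [Fintype U2] [Fintype κ]
    (A : Ideal (MvPolynomial U1 ℂ))
    (hA : A ≤ RingHom.ker (constantCoeff : MvPolynomial U1 ℂ →+* ℂ))
    (f : κ → MvPolynomial (U1 ⊕ U2) ℂ) (hf : ∀ i, constantCoeff (f i) = 0)
    (hcard : (Fintype.card κ : ℕ∞) < dimAt A + (Fintype.card U2 : ℕ∞)) :
    ∃ c : U1 ⊕ U2 → ℂ, c ≠ 0 ∧ (∀ q ∈ A, eval (fun u => c (Sum.inl u)) q = 0) ∧
      ∀ i, eval c (f i) = 0 := by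
  classical
  by_contra hcon
  push Not at hcon
  -- the base
  have hm0 : (RingHom.ker (constantCoeff : MvPolynomial U1 ℂ →+* ℂ)).IsMaximal :=
    RingHom.ker_isMaximal_of_surjective _ fun a => ⟨C a, constantCoeff_C _ a⟩
  have hmk : Function.Surjective (Ideal.Quotient.mk A) := Ideal.Quotient.mk_surjective
  have hM : (Ideal.map (Ideal.Quotient.mk A)
      (RingHom.ker (constantCoeff : MvPolynomial U1 ℂ →+* ℂ))).IsMaximal :=
    Ideal.IsMaximal.map_of_surjective_of_ker_le hmk (by rw [Ideal.mk_ker]; exact hA)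
  have hcomapM : ∀ q : MvPolynomial U1 ℂ, Ideal.Quotient.mk A q ∈ Ideal.map (Ideal.Quotient.mk A)
      (RingHom.ker (constantCoeff : MvPolynomial U1 ℂ →+* ℂ)) ↔ constantCoeff q = 0 := by
    intro q
    rw [← Ideal.mem_comap, Ideal.comap_map_quotientMk, sup_of_le_right hA, RingHom.mem_ker]
  have hcc : Function.Surjective (constantCoeff :
      MvPolynomial U2 (MvPolynomial U1 ℂ ⧸ A) →+* (MvPolynomial U1 ℂ ⧸ A)) :=
    fun b => ⟨C b, constantCoeff_C _ b⟩
  have hP : (Ideal.comap (constantCoeff :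
      MvPolynomial U2 (MvPolynomial U1 ℂ ⧸ A) →+* (MvPolynomial U1 ℂ ⧸ A))
      (Ideal.map (Ideal.Quotient.mk A)
        (RingHom.ker (constantCoeff : MvPolynomial U1 ℂ →+* ℂ)))).IsMaximal :=
    Ideal.comap_isMaximal_of_surjective _ hcc
  have hht := height_mv (Ideal.map (Ideal.Quotient.mk A)
      (RingHom.ker (constantCoeff : MvPolynomial U1 ℂ →+* ℂ))) U2
  -- the map
  obtain ⟨π, hπ⟩ : ∃ π : MvPolynomial (U1 ⊕ U2) ℂ →+* MvPolynomial U2 (MvPolynomial U1 ℂ ⧸ A),
      π = eval₂Hom ((C : (MvPolynomial U1 ℂ ⧸ A) →+* _).comp ((Ideal.Quotient.mk A).comp C))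
        (Sum.elim (fun u => C (Ideal.Quotient.mk A (X u))) X) := ⟨_, rfl⟩
  have hπC : ∀ a, π (C a) = C (Ideal.Quotient.mk A (C a)) := by
    intro a
    rw [hπ, eval₂Hom_C]
    rfl
  have hπl : ∀ u, π (X (Sum.inl u)) = C (Ideal.Quotient.mk A (X u)) := by
    intro u
    rw [hπ, eval₂Hom_X']
    rfl
  have hπr : ∀ u, π (X (Sum.inr u)) = X u := by
    intro u
    rw [hπ, eval₂Hom_X']
    rfl
  have hπ1 : ∀ q : MvPolynomial U1 ℂ, π (rename Sum.inl q) = C (Ideal.Quotient.mk A q) := by
    intro q
    induction q using MvPolynomial.induction_on with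
    | C a => rw [rename_C, hπC]
    | add p q hp hq => rw [map_add, map_add, hp, hq, map_add, map_add]
    | mul_X p i hp => rw [map_mul, map_mul, hp, rename_X, hπl, map_mul, map_mul]
  have hsurj : Function.Surjective π := by
    intro c
    induction c using MvPolynomial.induction_on with
    | C b =>
      obtain ⟨q, rfl⟩ := hmk b
      exact ⟨rename Sum.inl q, hπ1 q⟩
    | add p q hp hq =>
      obtain ⟨p', rfl⟩ := hp
      obtain ⟨q', rfl⟩ := hq
      exact ⟨p' + q', map_add _ _ _⟩
    | mul_X p i hp =>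
      obtain ⟨p', rfl⟩ := hp
      exact ⟨p' * X (Sum.inr i), by rw [map_mul, hπr]⟩
  have hσ : ∀ g : MvPolynomial (U1 ⊕ U2) ℂ, ∃ s : MvPolynomial U1 ℂ,
      constantCoeff (π g) = Ideal.Quotient.mk A s ∧ constantCoeff s = constantCoeff g := by
    intro g
    induction g using MvPolynomial.induction_on with
    | C a => exact ⟨C a, by rw [hπC, constantCoeff_C], by rw [constantCoeff_C, constantCoeff_C]⟩
    | add p q hp hq =>
      obtain ⟨s, hs, hs'⟩ := hp
      obtain ⟨t, ht, ht'⟩ := hq
      exact ⟨s + t, by rw [map_add, map_add, hs, ht, map_add], by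
        rw [map_add, map_add, hs', ht']⟩
    | mul_X p i hp =>
      obtain ⟨s, hs, hs'⟩ := hp
      rcases i with u | u
      · exact ⟨s * X u, by rw [map_mul, map_mul, hs, hπl, constantCoeff_C, map_mul], by
          rw [map_mul, map_mul, constantCoeff_X, constantCoeff_X, mul_zero, mul_zero]⟩
      · exact ⟨0, by rw [map_mul, map_mul, hπr, constantCoeff_X, mul_zero, map_zero], by
          rw [map_mul, constantCoeff_X, mul_zero, map_zero]⟩
  have hcomapP : ∀ g : MvPolynomial (U1 ⊕ U2) ℂ, π g ∈ Ideal.comap (constantCoeff :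
      MvPolynomial U2 (MvPolynomial U1 ℂ ⧸ A) →+* (MvPolynomial U1 ℂ ⧸ A))
      (Ideal.map (Ideal.Quotient.mk A)
        (RingHom.ker (constantCoeff : MvPolynomial U1 ℂ →+* ℂ))) ↔ constantCoeff g = 0 := by
    intro g
    obtain ⟨s, hs, hs'⟩ := hσ g
    rw [Ideal.mem_comap, hs, hcomapM, hs']
  -- the maximal ideal of the origin is a minimal prime of the equations
  have hmin : Ideal.comap (constantCoeff :
      MvPolynomial U2 (MvPolynomial U1 ℂ ⧸ A) →+* (MvPolynomial U1 ℂ ⧸ A))
      (Ideal.map (Ideal.Quotient.mk A)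
        (RingHom.ker (constantCoeff : MvPolynomial U1 ℂ →+* ℂ))) ∈
      (Ideal.span ((Finset.univ.image fun i => π (f i) :
        Finset (MvPolynomial U2 (MvPolynomial U1 ℂ ⧸ A))) : Set _)).minimalPrimes := by
    refine ⟨⟨hP.isPrime, ?_⟩, ?_⟩
    · rw [Ideal.span_le]
      intro z hz
      obtain ⟨i, _, rfl⟩ := Finset.mem_image.1 (Finset.mem_coe.1 hz)
      exact (hcomapP _).2 (hf i)
    · rintro Q ⟨hQ, hJQ⟩ hQP
      have hQ' : (Ideal.comap π Q).IsPrime := Ideal.comap_isPrime π Q
      have hfQ : ∀ i, f i ∈ Ideal.comap π Q := fun i => by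
        rw [Ideal.mem_comap]
        exact hJQ (Ideal.subset_span (Finset.mem_coe.2 (Finset.mem_image.2
          ⟨i, Finset.mem_univ i, rfl⟩)))
      have hAQ : ∀ q ∈ A, rename Sum.inl q ∈ Ideal.comap π Q := fun q hq => by
        rw [Ideal.mem_comap, hπ1, Ideal.Quotient.eq_zero_iff_mem.2 hq, map_zero]
        exact Q.zero_mem
      have hzero : ∀ c ∈ zeroLocus ℂ (Ideal.comap π Q), c = 0 := by
        intro c hc
        by_contra hc0
        obtain ⟨i, hi⟩ := hcon c hc0 (fun q hq => by
          have h := hc _ (hAQ q hq)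
          rw [Pool.Agent.MP214270.aeval_eval, eval_rename] at h
          exact h)
        apply hi
        have h := hc _ (hfQ i)
        rw [Pool.Agent.MP214270.aeval_eval] at h
        exact h
      have hnull := vanishingIdeal_zeroLocus_eq_radical (k := ℂ) (K := ℂ) (Ideal.comap π Q)
      rw [hQ'.radical] at hnull
      intro z hz
      obtain ⟨g, rfl⟩ := hsurj z
      have hg : constantCoeff g = 0 := (hcomapP g).1 hz
      have hgQ : g ∈ Ideal.comap π Q := by
        rw [← hnull, mem_vanishingIdeal_iff]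
        intro c hc
        rw [hzero c hc, Pool.Agent.MP214270.aeval_eval, ← hg, eval_zero]
      exact hgQ
  have h1 := Ideal.height_le_card_of_mem_minimalPrimes_span_finset
    (R := MvPolynomial U2 (MvPolynomial U1 ℂ ⧸ A)) (s := Finset.univ.image fun i => π (f i)) hmin
  rw [hht] at h1
  have h2 : (((Finset.univ.image fun i => π (f i)).card : ℕ) : ℕ∞) ≤ (Fintype.card κ : ℕ∞) := by
    exact_mod_cast (Finset.card_image_le : (Finset.univ.image fun i => π (f i)).card ≤ _)
  exact absurd hcard (not_lt.2 (h1.trans h2))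

end Pool.Agent.MP1e3e9c.C2
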