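import Pool.Agent.Lib.MP_1e3e9c_ag.C2.DefsG

/-!
# Families of rational curves in the base
-/

set_option autoImplicit false

open MvPolynomial Filter Topology

namespace Pool.Agent.MP1e3e9c.C2

/-- the polynomial curve `x_i(t) = p_i + ∑_{l < n i} c_(i,l) t^(l+1)` -/
noncomputable def curve {I : Type} (n : I → ℕ) (p : I → ℂ) (c : Un n → ℂ) (i : I) :
    Polynomial ℂ :=
  Polynomial.C (p i) + ∑ l : Fin (n i), Polynomial.C (c ⟨i, l⟩) * Polynomial.X ^ ((l : ℕ) + 1)

/-- the degrees in the coordinates of a curve of multidegree `δ`; the coordinate `y` does not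
occur in the base and is kept constant -/
def cdeg {σ I : Type} [DecidableEq I] (bl : I → σ) (a : I → ℕ) (y : I) (δ : σ → ℕ) (i : I) : ℕ :=
  if i = y then 0 else δ (bl i) * a i

/-- A closed family of rational curves of multidegree `δ` through `v` in the zero set of the
polynomials `G r` (which do not contain `y`), given by the ideal `A`: the curves `x(t) = curve c`, `x(0) = v`,
`c` a common zero of `A`. The family contains the constant curve `c = 0`, has local dimension at least `N` there,
and its only members which are constant in the product of weighted projective spaces are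
`x_i(t) = (1 + b t)^(n i) v_i`, `b` in `ℂ`. -/
structure CurveFamily {σ I κ : Type} [DecidableEq I] (bl : I → σ) (a : I → ℕ) (y : I)
    (G : κ → MvPolynomial I ℂ) (v : I → ℂ) (δ : σ → ℕ) (N : ℕ) where
  A : Ideal (MvPolynomial (Un (cdeg bl a y δ)) ℂ)
  base : ∀ c : Un (cdeg bl a y δ) → ℂ, (∀ q ∈ A, eval c q = 0) →
    ∀ r, aeval (curve (cdeg bl a y δ) v c) (G r) = 0
  zero : ∀ q ∈ A, constantCoeff q = 0
  dim : (N : ℕ∞) ≤ dimAt A
  moving : ∀ c : Un (cdeg bl a y δ) → ℂ, (∀ q ∈ A, eval c q = 0) →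
    (∀ᶠ t in 𝓝 (0 : ℂ), ∃ l : σ → ℂ, (∀ s, l s ≠ 0) ∧ ∀ i, i ≠ y →
      (curve (cdeg bl a y δ) v c i).eval t = l (bl i) ^ a i * v i) →
    ∃ b : ℂ, ∀ i, curve (cdeg bl a y δ) v c i =
      Polynomial.C (v i) * (1 + Polynomial.C b * Polynomial.X) ^ cdeg bl a y δ i

end Pool.Agent.MP1e3e9c.C2
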