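import Pool.Agent.Lib.MP_1e3e9c_ag.C2.Defs

/-!
# The degree of a weighted homogeneous polynomial along a polynomial curve
-/

set_option autoImplicit false

open MvPolynomial

namespace Pool.Agent.MP1e3e9c.C2

theorem Sys_deg {I : Type} (n : I → ℕ) (x : I → Polynomial ℂ) (hx : ∀ i, (x i).natDegree ≤ n i)
    (G : MvPolynomial I ℂ) (D : ℕ) (hG : G.IsWeightedHomogeneous n D) :
    (aeval x G).natDegree ≤ D := by
  rw [aeval_def, eval₂_eq]
  refine Polynomial.natDegree_sum_le_of_forall_le _ _ fun d hd => ?_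
  have h1 : Finsupp.weight n d = D := hG (mem_support_iff.1 hd)
  have h2 : ∑ i ∈ d.support, d i * n i = D := by
    rw [← h1, Finsupp.weight_apply]
    rfl
  rw [← h2]
  refine Polynomial.natDegree_mul_le.trans ?_
  rw [Polynomial.algebraMap_eq, Polynomial.natDegree_C, zero_add]
  refine (Polynomial.natDegree_prod_le _ _).trans ?_
  refine Finset.sum_le_sum fun i _ => ?_
  refine Polynomial.natDegree_pow_le.trans ?_
  exact Nat.mul_le_mul_left _ (hx i)

end Pool.Agent.MP1e3e9c.C2
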