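import Pool.Agent.Lib.MP_1e3e9c_ag.C2.CZ
import Pool.Agent.Lib.MP_1e3e9c_ag.C2.Sys
import Pool.Agent.Lib.MP_1e3e9c_ag.C2.DefsF

/-!
# A member of the family along which `Δ` is `h^m q`

The unknowns are the coefficients of the curve, of `h` and the parameters of `q`; there are fewer equations than
the dimension.
-/

set_option autoImplicit false

open MvPolynomial

namespace Pool.Agent.MP1e3e9c.C2

theorem SysF_lin (N : ℕ) (a : ℂ) (b : Fin N → ℂ) (P : Polynomial ℂ)
    (hP : P = Polynomial.C a + ∑ l : Fin N, Polynomial.C (b l) * Polynomial.X ^ ((l : ℕ) + 1)) :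
    P.natDegree ≤ N ∧ P.coeff 0 = a ∧ ∀ l : Fin N, P.coeff ((l : ℕ) + 1) = b l := by
  refine ⟨?_, ?_, ?_⟩
  · rw [hP]
    refine (Polynomial.natDegree_add_le _ _).trans (max_le ?_ ?_)
    · rw [Polynomial.natDegree_C]; exact Nat.zero_le _
    · refine Polynomial.natDegree_sum_le_of_forall_le _ _ fun l _ => ?_
      exact (Polynomial.natDegree_C_mul_X_pow_le _ _).trans l.2
  · rw [hP, Polynomial.coeff_add, Polynomial.coeff_C_zero, Polynomial.finsetSum_coeff]
    simp only [Polynomial.coeff_C_mul, Polynomial.coeff_X_pow]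
    rw [Finset.sum_eq_zero, add_zero]
    intro l _
    rw [if_neg (by omega), mul_zero]
  · intro l
    rw [hP, Polynomial.coeff_add, Polynomial.coeff_C, if_neg (by omega), zero_add,
      Polynomial.finsetSum_coeff, Finset.sum_eq_single l]
    · rw [Polynomial.coeff_C_mul, Polynomial.coeff_X_pow, if_pos rfl, mul_one]
    · intro l' _ hne
      rw [Polynomial.coeff_C_mul, Polynomial.coeff_X_pow, if_neg, mul_zero]
      intro h
      exact hne (Fin.ext (by omega))
    · intro h
      exact absurd (Finset.mem_univ l) h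

theorem SysF_aevalC {I : Type} (p : I → ℂ) (F : MvPolynomial I ℂ) :
    aeval (fun i => Polynomial.C (p i)) F = Polynomial.C (eval p F) := by
  induction F using MvPolynomial.induction_on with
  | C a => rw [algHom_C, eval_C]; rfl
  | add p q hp hq => rw [map_add, map_add, hp, hq, map_add]
  | mul_X p i hp => rw [map_mul, map_mul, hp, aeval_X, eval_X, map_mul]

theorem SysF_coeff0 {I : Type} (x : I → Polynomial ℂ) (F : MvPolynomial I ℂ) :
    (aeval x F).coeff 0 = eval (fun i => (x i).coeff 0) F := by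
  induction F using MvPolynomial.induction_on with
  | C a => rw [algHom_C, eval_C]; exact Polynomial.coeff_C_zero
  | add p q hp hq => rw [map_add, Polynomial.coeff_add, hp, hq, map_add]
  | mul_X p i hp => rw [map_mul, Polynomial.mul_coeff_zero, hp, aeval_X, map_mul, eval_X]

theorem SysF_map {I : Type} (n : I → ℕ) (p : I → ℂ) (c1 : Un n → ℂ)
    (F : MvPolynomial I ℂ) :
    (genV n p F).map (eval c1) = aeval (fun i => (genX n p i).map (eval c1)) F := by
  unfold genV
  rw [← Polynomial.coe_mapRingHom, MvPolynomial.eval₂_comp_left, aeval_def]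
  have h : ((Polynomial.mapRingHom (eval c1)).comp
      (Polynomial.C.comp (C : ℂ →+* MvPolynomial (Un n) ℂ))) = algebraMap ℂ (Polynomial ℂ) := by
    ext a
    · simp
  rw [h]
  rfl

theorem SysF_genX {I : Type} (n : I → ℕ) (p : I → ℂ) (c1 : Un n → ℂ) (i : I) :
    (genX n p i).map (eval c1) = curve n p c1 i := by
  unfold genX curve
  rw [Polynomial.map_add, Polynomial.map_C, eval_C, Polynomial.map_sum]
  congr 1
  refine Finset.sum_congr rfl fun l _ => ?_
  rw [Polynomial.map_mul, Polynomial.map_C, eval_X, Polynomial.map_pow, Polynomial.map_X]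

theorem exists_solution_fam {I : Type} [Fintype I] [DecidableEq I] (n : I → ℕ)
    (p : I → ℂ) (i0 : I) (hi0 : 0 < n i0) (A : Ideal (MvPolynomial (Un n) ℂ))
    (hA : A ≤ RingHom.ker (constantCoeff : MvPolynomial (Un n) ℂ →+* ℂ))
    (m k e R : ℕ) (hm : 1 ≤ m) (hk : k ≤ e) (Q : Fam m k)
    (Δ : MvPolynomial I ℂ) (hΔ : Δ.IsWeightedHomogeneous n (m * e)) (hΔp : eval p Δ ≠ 0)
    (hR : (R : ℕ∞) ≤ dimAt A) (hK : (m - 1) * e ≤ R) :
    ∃ (c1 : Un n → ℂ) (h : Polynomial ℂ) (θ : Fin (k + 2) → ℂ),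
      (∀ q ∈ A, eval c1 q = 0) ∧
      (∀ i, (curve n p c1 i).natDegree ≤ n i) ∧ (∀ i, (curve n p c1 i).coeff 0 = p i) ∧
      (curve n p c1 i0).coeff 1 = 0 ∧
      h.natDegree ≤ e - k ∧ h.coeff 0 = 1 ∧
      aeval (curve n p c1) Δ = Polynomial.C (eval p Δ) * h ^ m * Q.q.map (eval θ) ∧
      ∃ i, curve n p c1 i ≠ Polynomial.C (p i) := by
  classical
  have hx0 : ∀ F : MvPolynomial I ℂ,
      aeval (fun i => (genX n p i).map (eval (0 : Un n → ℂ))) F = Polynomial.C (eval p F) := by
    intro F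
    rw [← SysF_aevalC]
    congr 2
    funext i
    rw [SysF_genX]
    simp [curve]
  obtain ⟨HH, hHH⟩ : ∃ HH : Polynomial (MvPolynomial (Un n ⊕ (Fin (e - k) ⊕ Fin (k + 2))) ℂ),
      HH = Polynomial.C 1 + ∑ l : Fin (e - k), Polynomial.C (X (Sum.inr (Sum.inl l))) *
        Polynomial.X ^ ((l : ℕ) + 1) := ⟨_, rfl⟩
  obtain ⟨EE, hEE⟩ : ∃ EE : Polynomial (MvPolynomial (Un n ⊕ (Fin (e - k) ⊕ Fin (k + 2))) ℂ),
      EE = (genV n p Δ).map (rename Sum.inl : MvPolynomial (Un n) ℂ →ₐ[ℂ] _).toRingHom -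
        Polynomial.C (C (eval p Δ)) * HH ^ m *
        Q.q.map (rename (fun j => Sum.inr (Sum.inr j)) :
          MvPolynomial (Fin (k + 2)) ℂ →ₐ[ℂ] _).toRingHom := ⟨_, rfl⟩
  have hHmap : ∀ c : Un n ⊕ (Fin (e - k) ⊕ Fin (k + 2)) → ℂ, HH.map (eval c) =
      Polynomial.C 1 + ∑ l : Fin (e - k), Polynomial.C (c (Sum.inr (Sum.inl l))) *
        Polynomial.X ^ ((l : ℕ) + 1) := by
    intro c
    rw [hHH, Polynomial.map_add, Polynomial.map_C, map_one, Polynomial.map_sum]
    congr 1
    refine Finset.sum_congr rfl fun l _ => ?_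
    rw [Polynomial.map_mul, Polynomial.map_C, eval_X, Polynomial.map_pow, Polynomial.map_X]
  have hEmap : ∀ c : Un n ⊕ (Fin (e - k) ⊕ Fin (k + 2)) → ℂ, EE.map (eval c) =
      aeval (fun i => (genX n p i).map (eval fun u => c (Sum.inl u))) Δ -
        Polynomial.C (eval p Δ) * (HH.map (eval c)) ^ m *
        Q.q.map (eval fun j => c (Sum.inr (Sum.inr j))) := by
    intro c
    rw [hEE, Polynomial.map_sub, Polynomial.map_mul, Polynomial.map_mul, Polynomial.map_C,
      eval_C, Polynomial.map_pow, Polynomial.map_map, Polynomial.map_map, ← SysF_map]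
    congr 2
    · congr 1
      ext u
      · simp
      · simp
    · congr 1
      ext u
      · simp
      · simp
  have hq0 : Q.q.map (eval (0 : Fin (k + 2) → ℂ)) = 1 := Q.zero
  have hf0 : ∀ t : Fin (m * e) ⊕ Unit, constantCoeff (Sum.elim (fun l : Fin (m * e) =>
      EE.coeff ((l : ℕ) + 1)) (fun _ => X (Sum.inl ⟨i0, ⟨0, hi0⟩⟩)) t) = 0 := by
    rintro (l | _)
    · show constantCoeff (EE.coeff ((l : ℕ) + 1)) = 0
      rw [← MvPolynomial.eval_zero, ← Polynomial.coeff_map, hEmap]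
      have h1 : HH.map (eval (0 : Un n ⊕ (Fin (e - k) ⊕ Fin (k + 2)) → ℂ)) = 1 := by
        rw [hHmap]
        simp
      have h2 : aeval (fun i => (genX n p i).map
          (eval fun u => (0 : Un n ⊕ (Fin (e - k) ⊕ Fin (k + 2)) → ℂ) (Sum.inl u))) Δ =
          Polynomial.C (eval p Δ) := hx0 Δ
      have h3 : Q.q.map (eval fun j =>
          (0 : Un n ⊕ (Fin (e - k) ⊕ Fin (k + 2)) → ℂ) (Sum.inr (Sum.inr j))) = 1 := hq0
      rw [h1, h2, h3, one_pow, mul_one, mul_one, sub_self, Polynomial.coeff_zero]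
    · show constantCoeff (X (Sum.inl (⟨i0, ⟨0, hi0⟩⟩ : Un n)) : MvPolynomial (Un n ⊕ (Fin (e - k) ⊕ Fin (k + 2))) ℂ) = 0
      exact constantCoeff_X _ _
  have hcard : (Fintype.card (Fin (m * e) ⊕ Unit) : ℕ∞) < dimAt A +
      (Fintype.card (Fin (e - k) ⊕ Fin (k + 2)) : ℕ∞) := by
    have h1 : Fintype.card (Fin (m * e) ⊕ Unit) = m * e + 1 := by simp
    have h2 : Fintype.card (Fin (e - k) ⊕ Fin (k + 2)) = e + 2 := by
      simp only [Fintype.card_sum, Fintype.card_fin]
      omega
    rw [h1, h2]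
    have h3 : m * e + 1 < R + (e + 2) := by
      obtain ⟨m', rfl⟩ : ∃ m', m = m' + 1 := ⟨m - 1, by omega⟩
      rw [Nat.add_sub_cancel] at hK
      rw [Nat.add_mul, one_mul]
      omega
    calc ((m * e + 1 : ℕ) : ℕ∞) < ((R + (e + 2) : ℕ) : ℕ∞) := Nat.cast_lt.2 h3
      _ = (R : ℕ∞) + ((e + 2 : ℕ) : ℕ∞) := by rw [Nat.cast_add]
      _ ≤ dimAt A + ((e + 2 : ℕ) : ℕ∞) := by gcongr
  obtain ⟨c, hc0, hcA, hcf⟩ := common_zero_gen A hA _ hf0 hcard
  have hx : ∀ i, ((genX n p i).map (eval fun u => c (Sum.inl u))).natDegree ≤ n i ∧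
      ((genX n p i).map (eval fun u => c (Sum.inl u))).coeff 0 = p i ∧
      ∀ l : Fin (n i), ((genX n p i).map (eval fun u => c (Sum.inl u))).coeff ((l : ℕ) + 1) =
        c (Sum.inl ⟨i, l⟩) := fun i =>
    SysF_lin (n i) (p i) (fun l => c (Sum.inl ⟨i, l⟩)) _ (SysF_genX n p _ i)
  have hh : (HH.map (eval c)).natDegree ≤ e - k ∧ (HH.map (eval c)).coeff 0 = 1 ∧
      ∀ l : Fin (e - k), (HH.map (eval c)).coeff ((l : ℕ) + 1) = c (Sum.inr (Sum.inl l)) :=
    SysF_lin (e - k) 1 (fun l => c (Sum.inr (Sum.inl l))) _ (hHmap c)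
  have hqd : (Q.q.map (eval fun j => c (Sum.inr (Sum.inr j)))).natDegree ≤ m * k :=
    Polynomial.natDegree_map_le.trans Q.deg
  have hqc : (Q.q.map (eval fun j => c (Sum.inr (Sum.inr j)))).coeff 0 = 1 := by
    rw [Polynomial.coeff_map, Q.coeff0, map_one]
  have hDel : aeval (fun i => (genX n p i).map (eval fun u => c (Sum.inl u))) Δ =
      Polynomial.C (eval p Δ) * (HH.map (eval c)) ^ m *
        Q.q.map (eval fun j => c (Sum.inr (Sum.inr j))) := by
    have hdl : (aeval (fun i => (genX n p i).map (eval fun u => c (Sum.inl u))) Δ).natDegree ≤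
        m * e := Sys_deg n _ (fun i => (hx i).1) Δ (m * e) hΔ
    have hdr : (Polynomial.C (eval p Δ) * (HH.map (eval c)) ^ m *
        Q.q.map (eval fun j => c (Sum.inr (Sum.inr j)))).natDegree ≤ m * e := by
      refine Polynomial.natDegree_mul_le.trans ?_
      have h1 : (Polynomial.C (eval p Δ) * (HH.map (eval c)) ^ m).natDegree ≤ m * (e - k) := by
        refine (Polynomial.natDegree_C_mul_le _ _).trans ?_
        exact Polynomial.natDegree_pow_le.trans (Nat.mul_le_mul_left _ hh.1)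
      have h2 : m * (e - k) + m * k = m * e := by
        rw [← Nat.mul_add, Nat.sub_add_cancel hk]
      omega
    ext l
    rcases Nat.eq_zero_or_pos l with rfl | hl
    · rw [SysF_coeff0]
      have h1 : (fun i => ((genX n p i).map (eval fun u => c (Sum.inl u))).coeff 0) = p :=
        funext fun i => (hx i).2.1
      rw [h1, Polynomial.mul_coeff_zero, Polynomial.mul_coeff_zero, Polynomial.coeff_C_zero,
        hqc, mul_one, Polynomial.coeff_zero_eq_eval_zero (HH.map (eval c) ^ m),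
        Polynomial.eval_pow, ← Polynomial.coeff_zero_eq_eval_zero, hh.2.1, one_pow, mul_one]
    · rcases Nat.lt_or_ge (m * e) l with h | h
      · rw [Polynomial.coeff_eq_zero_of_natDegree_lt (hdl.trans_lt h),
          Polynomial.coeff_eq_zero_of_natDegree_lt (hdr.trans_lt h)]
      · have h1 := hcf (Sum.inl ⟨l - 1, by omega⟩)
        have h2 : eval c (EE.coeff (l - 1 + 1)) = 0 := h1
        rw [Nat.sub_add_cancel hl, ← Polynomial.coeff_map, hEmap, Polynomial.coeff_sub] at h2
        exact sub_eq_zero.1 h2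
  have hcur : (fun i => (genX n p i).map (eval fun u => c (Sum.inl u))) =
      curve n p (fun u => c (Sum.inl u)) := funext fun i => SysF_genX n p _ i
  refine ⟨fun u => c (Sum.inl u), HH.map (eval c),
    fun j => c (Sum.inr (Sum.inr j)), hcA, fun i => ?_, fun i => ?_, ?_, hh.1, hh.2.1,
    ?_, ?_⟩
  · rw [← SysF_genX]
    exact (hx i).1
  · rw [← SysF_genX]
    exact (hx i).2.1
  · have h1 : eval c (X (Sum.inl (⟨i0, ⟨0, hi0⟩⟩ : Un n)) :
        MvPolynomial (Un n ⊕ (Fin (e - k) ⊕ Fin (k + 2))) ℂ) = 0 := hcf (Sum.inr ())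
    rw [eval_X] at h1
    rw [← SysF_genX]
    exact ((hx i0).2.2 ⟨0, hi0⟩).trans h1
  · rw [← hcur]
    exact hDel
  · by_contra hall
    push Not at hall
    simp only [← SysF_genX] at hall
    apply hc0
    have hcl : ∀ u : Un n, c (Sum.inl u) = 0 := by
      rintro ⟨i, l⟩
      have h1 := (hx i).2.2 l
      rw [hall i, Polynomial.coeff_C, if_neg (by omega)] at h1
      exact h1.symm
    have h1 : aeval (fun i => (genX n p i).map (eval fun u => c (Sum.inl u))) Δ =
        Polynomial.C (eval p Δ) := by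
      rw [← SysF_aevalC]
      congr 2
      funext i
      exact hall i
    rw [h1, mul_assoc] at hDel
    have h2 : (HH.map (eval c)) ^ m * Q.q.map (eval fun j => c (Sum.inr (Sum.inr j))) = 1 := by
      have h3 : Polynomial.C (eval p Δ) ≠ 0 := Polynomial.C_ne_zero.2 hΔp
      refine mul_left_cancel₀ h3 ?_
      rw [← hDel, mul_one]
    have h3 : IsUnit (HH.map (eval c)) := by
      have h4 : IsUnit ((HH.map (eval c)) ^ m) := IsUnit.of_mul_eq_one _ h2
      exact (isUnit_pow_iff (by omega)).1 h4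
    have h4 : HH.map (eval c) = 1 := by
      rw [Polynomial.eq_C_of_natDegree_eq_zero (Polynomial.natDegree_eq_zero_of_isUnit h3),
        hh.2.1, map_one]
    have h5 : Q.q.map (eval fun j => c (Sum.inr (Sum.inr j))) = 1 := by
      rw [h4, one_pow, one_mul] at h2
      exact h2
    have h6 := Q.triv _ h5
    funext u
    rcases u with u | l | j
    · exact hcl u
    · have h7 := hh.2.2 l
      rw [h4, Polynomial.coeff_one, if_neg (by omega)] at h7
      exact h7.symm
    · exact congrFun h6 j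

end Pool.Agent.MP1e3e9c.C2
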