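import Pool.Agent.Lib.MP_1e3e9c_ag.C2.Homog
import Pool.Agent.Lib.MP_1e3e9c_ag.C2.SysF

/-!
# From the polynomial curve to entire functions
-/

set_option autoImplicit false

open MvPolynomial Filter Topology

namespace Pool.Agent.MP1e3e9c.C2

theorem CoreF_diff {I : Type} (X : I → ℂ → ℂ) (hX : ∀ i, Differentiable ℂ (X i))
    (G : MvPolynomial I ℂ) : Differentiable ℂ (fun z => eval (fun i => X i z) G) := by
  induction G using MvPolynomial.induction_on with
  | C a => simp only [eval_C]; exact differentiable_const a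
  | add p q hp hq => simp only [map_add]; exact hp.add hq
  | mul_X p i hp => simp only [map_mul, eval_X]; exact hp.mul (hX i)

/-- the points `T z / S z` near `z = 0` fill a neighbourhood of `0` -/
theorem CoreF_open (S T : ℂ → ℂ) (hS : Differentiable ℂ S) (hT : Differentiable ℂ T) (hS0 : S 0 = 1)
    (hT0 : T 0 = 0) (z1 : ℂ) (hz1 : T z1 ≠ 0) (P : ℂ → Prop)
    (hP : ∀ᶠ z in 𝓝 (0 : ℂ), P (T z / S z)) : ∀ᶠ t in 𝓝 (0 : ℂ), P t := by
  have hSn : S 0 ≠ 0 := by rw [hS0]; exact one_ne_zero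
  have han : AnalyticAt ℂ (fun z => T z / S z) 0 := (hT.analyticAt 0).div (hS.analyticAt 0) hSn
  have h0 : T 0 / S 0 = 0 := by rw [hT0, zero_div]
  rcases han.eventually_constant_or_nhds_le_map_nhds with h | h
  · exfalso
    have hne : ∀ᶠ z in 𝓝 (0 : ℂ), S z ≠ 0 := hS.continuous.continuousAt.eventually_ne hSn
    have hev : T =ᶠ[𝓝 0] fun _ => 0 := by
      filter_upwards [h, hne] with z hz hz'
      rw [h0] at hz
      exact (div_eq_zero_iff.1 hz).resolve_right hz'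
    have hT2 : T = fun _ => 0 :=
      AnalyticOnNhd.eq_of_eventuallyEq (𝕜 := ℂ) (fun z _ => hT.analyticAt z)
        (fun z _ => analyticAt_const) hev
    exact hz1 (by rw [hT2])
  · rw [h0] at h
    exact h hP

theorem core_fam {I κ : Type} [Fintype I] [DecidableEq I] (n : I → ℕ) (p : I → ℂ)
    (i0 : I) (hi0 : 0 < n i0) (hpi0 : p i0 ≠ 0)
    (G : κ → MvPolynomial I ℂ) (D : κ → ℕ)
    (hG : ∀ r, (G r).IsWeightedHomogeneous n (D r))
    (A : Ideal (MvPolynomial (Un n) ℂ))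
    (hA : A ≤ RingHom.ker (constantCoeff : MvPolynomial (Un n) ℂ →+* ℂ))
    (hbase : ∀ c : Un n → ℂ, (∀ q ∈ A, eval c q = 0) → ∀ r, aeval (curve n p c) (G r) = 0)
    (Tr : (I → ℂ) → Prop) (hTr : ∀ (w : I → ℂ) (s : ℂ), s ≠ 0 → Tr w → Tr fun i => s ^ n i * w i)
    (hmov : ∀ c : Un n → ℂ, (∀ q ∈ A, eval c q = 0) →
      (∀ᶠ t in 𝓝 (0 : ℂ), Tr fun i => (curve n p c i).eval t) →
      ∃ b : ℂ, ∀ i, curve n p c i =
        Polynomial.C (p i) * (1 + Polynomial.C b * Polynomial.X) ^ n i)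
    (m k e R : ℕ) (hm : 1 ≤ m) (hk : k ≤ e) (Q : Fam m k)
    (Δ : MvPolynomial I ℂ) (hΔ : Δ.IsWeightedHomogeneous n (m * e))
    (δ0 : ℂ) (hδ : δ0 ^ m = eval p Δ) (hδ0 : δ0 ≠ 0)
    (hR : (R : ℕ∞) ≤ dimAt A) (hK : (m - 1) * e ≤ R) :
    ∃ (X : I → ℂ → ℂ) (R : ℂ → ℂ), (∀ i, Differentiable ℂ (X i)) ∧ Differentiable ℂ R ∧
      (∀ i, X i 0 = p i) ∧ R 0 = δ0 ∧ (∀ i, n i = 0 → ∀ z, X i z = p i) ∧
      (∀ r z, eval (fun i => X i z) (G r) = 0) ∧ (∀ z, R z ^ m = eval (fun i => X i z) Δ) ∧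
      ∀ r : ℝ, 0 < r → ∃ z : ℂ, ‖z‖ < r ∧ ¬ Tr fun i => X i z := by
  classical
  obtain ⟨R0, hR0e⟩ : ∃ R0 : ℕ, R0 = R := ⟨_, rfl⟩
  have hR0 : (R0 : ℕ∞) ≤ dimAt A := by rw [hR0e]; exact hR
  rw [← hR0e] at hK
  clear hR hR0e
  have hΔp : eval p Δ ≠ 0 := by
    rw [← hδ]
    exact pow_ne_zero _ hδ0
  obtain ⟨c, h, θ, hcA, hdeg, hc0, hc1, hhdeg, hh0, hΔx, hne⟩ :=
    exists_solution_fam n p i0 hi0 A hA m k e R0 hm hk Q Δ hΔ hΔp hR0 hK
  have hgx := hbase c hcA
  have hmv := hmov c hcA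
  generalize curve n p c = x at *
  obtain ⟨S, T, W, hS, hT, hW, hS0, hT0, hW0, hcurve, z1, hz1⟩ := Q.curve θ
  obtain ⟨q, hq⟩ : ∃ q : Polynomial ℂ, q = Q.q.map (eval θ) := ⟨_, rfl⟩
  have hqdeg : q.natDegree ≤ m * k := by
    rw [hq]
    exact Polynomial.natDegree_map_le.trans Q.deg
  have hcurve' : ∀ z, W z ^ m = hom (m * k) q (S z) (T z) := by
    intro z
    rw [hcurve z, hq]
    rfl
  rw [← hq] at hΔx
  obtain ⟨X, hX⟩ : ∃ X : I → ℂ → ℂ, X = fun i z => hom (n i) (x i) (S z) (T z) := ⟨_, rfl⟩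
  have hXv : ∀ i z, X i z = hom (n i) (x i) (S z) (T z) := fun i z => by rw [hX]
  obtain ⟨R, hR⟩ : ∃ R : ℂ → ℂ, R = fun z => δ0 * hom (e - k) h (S z) (T z) * W z := ⟨_, rfl⟩
  have hRv : ∀ z, R z = δ0 * hom (e - k) h (S z) (T z) * W z := fun z => by rw [hR]
  have hXd : ∀ i, Differentiable ℂ (X i) := by
    intro i
    rw [hX]
    exact hom_diff (n i) (x i) S T hS hT
  have hRd : Differentiable ℂ R := by
    rw [hR]
    exact ((hom_diff (e - k) h S T hS hT).const_mul δ0).mul hW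
  have hS0' : S 0 ≠ 0 := by rw [hS0]; exact one_ne_zero
  refine ⟨X, R, hXd, hRd, ?_, ?_, ?_, ?_, ?_, ?_⟩
  · intro i
    rw [hXv, hS0, hT0, hom_one_zero, hc0]
  · rw [hRv, hS0, hT0, hom_one_zero, hh0, hW0, mul_one, mul_one]
  · intro i hi z
    rw [hXv, hi, hom, zero_add, Finset.sum_range_one, pow_zero, Nat.sub_zero, pow_zero, mul_one,
      mul_one, hc0]
  · intro j
    refine entire_zero (fun z => eval (fun i => X i z) (G j)) S (CoreF_diff X hXd (G j)) hS hS0' ?_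
    intro z hz
    have h1 := eval_hom n x hdeg (G j) (D j) (hG j) (S z) (T z) hz
    rw [hgx j, Polynomial.eval_zero, mul_zero] at h1
    rw [hX]
    exact h1
  · have h2 : ∀ z, R z ^ m - eval (fun i => X i z) Δ = 0 := by
      refine entire_zero (fun z => R z ^ m - eval (fun i => X i z) Δ) S
        ((hRd.pow m).sub (CoreF_diff X hXd Δ)) hS hS0' ?_
      intro z hz
      have h1 := eval_hom n x hdeg Δ (m * e) hΔ (S z) (T z) hz
      have h3 : eval (fun i => X i z) Δ = S z ^ (m * e) * (aeval x Δ).eval (T z / S z) := by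
        rw [hX]
        exact h1
      have h4 : m * e = m * (e - k) + m * k := by
        rw [← Nat.mul_add, Nat.sub_add_cancel hk]
      rw [h3, hRv, hΔx, Polynomial.eval_mul, Polynomial.eval_mul, Polynomial.eval_C,
        Polynomial.eval_pow, mul_pow, mul_pow, hcurve' z, hom_eq (m * k) q hqdeg _ _ hz,
        hom_eq (e - k) h hhdeg _ _ hz, ← hδ, h4, pow_add, mul_pow, ← pow_mul,
        mul_comm (e - k) m]
      ring
    intro z
    exact sub_eq_zero.1 (h2 z)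
  · intro r hr
    by_contra hcon
    push Not at hcon
    obtain ⟨b, hb⟩ := hmv (by
      refine CoreF_open S T hS hT hS0 hT0 z1 hz1 _ ?_
      have hne1 : ∀ᶠ z in 𝓝 (0 : ℂ), S z ≠ 0 := hS.continuous.continuousAt.eventually_ne hS0'
      have hr1 : ∀ᶠ z in 𝓝 (0 : ℂ), ‖z‖ < r := by
        filter_upwards [Metric.ball_mem_nhds (0 : ℂ) hr] with z hz
        rwa [Metric.mem_ball, dist_zero_right] at hz
      filter_upwards [hne1, hr1] with z hSz hz
      have h1 := hTr _ (S z)⁻¹ (inv_ne_zero hSz) (hcon z hz)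
      have h2 : (fun i => (S z)⁻¹ ^ n i * X i z) = fun i => (x i).eval (T z / S z) := by
        funext i
        rw [hXv, hom_eq (n i) (x i) (hdeg i) _ _ hSz, ← mul_assoc, ← mul_pow,
          inv_mul_cancel₀ hSz, one_pow, one_mul]
      rw [h2] at h1
      exact h1)
    have h3 : b = 0 := by
      have h4 := hc1
      rw [hb i0, Polynomial.coeff_C_mul] at h4
      have h5 : ((1 + Polynomial.C b * Polynomial.X) ^ n i0 : Polynomial ℂ).coeff 1 =
          n i0 * b := by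
        have h6 : (Polynomial.derivative ((1 + Polynomial.C b * Polynomial.X) ^ n i0 :
            Polynomial ℂ)).coeff 0 = n i0 * b := by
          rw [Polynomial.derivative_pow, Polynomial.coeff_zero_eq_eval_zero]
          simp
        rw [Polynomial.coeff_derivative] at h6
        simpa using h6
      rw [h5] at h4
      have h7 : (n i0 : ℂ) ≠ 0 := Nat.cast_ne_zero.2 hi0.ne'
      exact ((mul_eq_zero.1 ((mul_eq_zero.1 h4).resolve_left hpi0))).resolve_left h7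
    obtain ⟨i, hi⟩ := hne
    apply hi
    rw [hb i, h3, map_zero, zero_mul, add_zero, one_pow, mul_one]

end Pool.Agent.MP1e3e9c.C2
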