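import Pool.Agent.Lib.MP_1e3e9c_ag.C2.Quart

/-!
# JOB Cub: all curves w^3 = cubic (also singular ones)

PROOF. Put l0 = q1/3, a0 = l0^3 - q3, b0 = q1^2/3 - q2 (= 3 l0^2 - q2), p1 = 12 q3 - 4 q1 q2 + (8/9) q1^3.
CASE 1: a0 = 0 and b0 = 0. Then q2 = q1^2/3, q3 = q1^3/27 and S^3 + q1 T S^2 + q2 T^2 S + q3 T^3 = (S + (q1/3) T)^3: take S = 1, T = z, W = 1 + (q1/3) z.
CASE 2: otherwise. If b0 = 0 then p1 = -12 a0 != 0. So quart applies with eps = b0 and coefficients (p1, 6 b0, 0, -3): entire S1, T1, W1 with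
   S1(0) = 1, T1(0) = 0, W1(0) = b0, W1^2 = b0^2 S1^4 + p1 T1 S1^3 + 6 b0 T1^2 S1^2 - 3 T1^4, T1 not identically 0.
   Put L = l0 S1 + T1, ah = L^3 - q3 S1^3, bh = 3 L^2 - q2 S1^2, ch = 3 L - q1 S1 = 3 T1. Then (ring) W1^2 = bh^2 - 4 ah ch.
   CASE 2a: a0 != 0. S0 = 2 ah, T0 = (W1 - bh) S1, W0 = 2 ah + L (W1 - bh). Then (linear_combination with the relation for W1^2)
       W0^3 = S0^3 + q1 T0 S0^2 + q2 T0^2 S0 + q3 T0^3.
     (Reason: t = T0/S0 is the root (mu - b)/(2a) of a t^2 + b t + c = 0, a = l^3 - q3, b = 3 l^2 - q2, c = 3 l - q1, and (1 + l t)^3 = 1 + q1 t + q2 t^2 + q3 t^3 is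
      t (c + b t + a t^2) = 0.)  So: W0 = S0 + L T0/S1 ...; multiply out: (2 ah + L V)^3 - (2 ah)^3 - q1 V S1 (2 ah)^2 - q2 V^2 S1^2 (2 ah) - q3 V^3 S1^3
      = V (4 ah^2 ch + 2 ah bh V + ah V^2) = ah V (4 ah ch + 2 bh V + V^2) with V = W1 - bh, and 4 ah ch + 2 bh V + V^2 = W1^2 - bh^2 + 4 ah ch = 0.
     At 0: S0 = 2 a0, T0 = (b0 - b0) = 0, W0 = 2 a0. Divide all three by 2 a0. T0 not identically zero: otherwise W1 = bh where S1 != 0, so 4 ah ch = 0 near 0, ah(0) = a0 != 0, so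
     T1 = 0 near 0, hence everywhere (identity theorem, or: the points where T1 != 0 accumulate at 0), contradiction.
   CASE 2b: a0 = 0, b0 != 0. S0 = bh + W1, T0 = -2 ch S1, W0 = bh + W1 - 2 ch L. Then W0^3 = S0^3 + q1 T0 S0^2 + q2 T0^2 S0 + q3 T0^3:
     with U = bh + W1: (U - 2 ch L)^3 - U^3 + 2 q1 ch S1 U^2 - 4 q2 ch^2 S1^2 U + 8 q3 ch^3 S1^3 = -2 ch (ch U^2 - 2 bh ch U + 4 ah ch^2) = -2 ch^2 (U^2 - 2 bh U + 4 ah ch)
     and U^2 - 2 bh U + 4 ah ch = W1^2 - bh^2 + 4 ah ch = 0.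
     At 0: S0 = 2 b0, T0 = 0, W0 = 2 b0 (ch(0) = 0). Divide by 2 b0. T0 = -6 T1 S1 not identically 0 (S1(0) = 1, identity theorem).
Identity theorem: for entire f with f = 0 near 0 one has f = 0: AnalyticOnNhd.eqOn_of_preconnected_of_eventuallyEq or `Differentiable.analyticAt` + `AnalyticOnNhd.eq_of_eventuallyEq`.
-/

set_option autoImplicit false

open Filter Topology

namespace Pool.Agent.MP1e3e9c.C2

/-- identity theorem -/
private theorem Cub_id {f : ℂ → ℂ} (hf : Differentiable ℂ f) (h : ∀ᶠ z in 𝓝 (0 : ℂ), f z = 0) :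
    ∀ z, f z = 0 := by
  have h1 : AnalyticOnNhd ℂ f Set.univ := fun z _ => hf.analyticAt z
  have h2 := h1.eqOn_zero_of_preconnected_of_eventuallyEq_zero isPreconnected_univ
    (Set.mem_univ 0) h
  intro z
  exact h2 (Set.mem_univ z)

private theorem Cub_a (q1 q2 q3 S T W : ℂ)
    (h : W ^ 2 = (q1 ^ 2 / 3 - q2) ^ 2 * S ^ 4 + (12 * q3 - 4 * q1 * q2 + 8 / 9 * q1 ^ 3) * T * S ^ 3
      + 6 * (q1 ^ 2 / 3 - q2) * T ^ 2 * S ^ 2 + 0 * T ^ 3 * S + -3 * T ^ 4) :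
    W ^ 2 = (3 * (q1 / 3 * S + T) ^ 2 - q2 * S ^ 2) ^ 2 -
      4 * ((q1 / 3 * S + T) ^ 3 - q3 * S ^ 3) * (3 * T) := by
  rw [h]
  ring

private theorem Cub_b (q1 q2 q3 S T W : ℂ)
    (h : W ^ 2 = (3 * (q1 / 3 * S + T) ^ 2 - q2 * S ^ 2) ^ 2 -
      4 * ((q1 / 3 * S + T) ^ 3 - q3 * S ^ 3) * (3 * T)) :
    (2 * ((q1 / 3 * S + T) ^ 3 - q3 * S ^ 3) +
      (q1 / 3 * S + T) * (W - (3 * (q1 / 3 * S + T) ^ 2 - q2 * S ^ 2))) ^ 3 =
    (2 * ((q1 / 3 * S + T) ^ 3 - q3 * S ^ 3)) ^ 3 +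
      q1 * ((W - (3 * (q1 / 3 * S + T) ^ 2 - q2 * S ^ 2)) * S) *
        (2 * ((q1 / 3 * S + T) ^ 3 - q3 * S ^ 3)) ^ 2 +
      q2 * ((W - (3 * (q1 / 3 * S + T) ^ 2 - q2 * S ^ 2)) * S) ^ 2 *
        (2 * ((q1 / 3 * S + T) ^ 3 - q3 * S ^ 3)) +
      q3 * ((W - (3 * (q1 / 3 * S + T) ^ 2 - q2 * S ^ 2)) * S) ^ 3 := by
  linear_combination ((q1 / 3 * S + T) ^ 3 - q3 * S ^ 3) *
    (W - (3 * (q1 / 3 * S + T) ^ 2 - q2 * S ^ 2)) * h

private theorem Cub_c (q1 q2 q3 S T W : ℂ)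
    (h : W ^ 2 = (3 * (q1 / 3 * S + T) ^ 2 - q2 * S ^ 2) ^ 2 -
      4 * ((q1 / 3 * S + T) ^ 3 - q3 * S ^ 3) * (3 * T)) :
    (3 * (q1 / 3 * S + T) ^ 2 - q2 * S ^ 2 + W - 2 * (3 * T) * (q1 / 3 * S + T)) ^ 3 =
    (3 * (q1 / 3 * S + T) ^ 2 - q2 * S ^ 2 + W) ^ 3 +
      q1 * (-2 * (3 * T) * S) * (3 * (q1 / 3 * S + T) ^ 2 - q2 * S ^ 2 + W) ^ 2 +
      q2 * (-2 * (3 * T) * S) ^ 2 * (3 * (q1 / 3 * S + T) ^ 2 - q2 * S ^ 2 + W) +
      q3 * (-2 * (3 * T) * S) ^ 3 := by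
  linear_combination (-2 * (3 * T) ^ 2) * h

theorem cub (q1 q2 q3 : ℂ) :
    HasCurve 3 (fun S T => S ^ 3 + q1 * T * S ^ 2 + q2 * T ^ 2 * S + q3 * T ^ 3) := by
  by_cases h0 : (q1 / 3) ^ 3 - q3 = 0 ∧ q1 ^ 2 / 3 - q2 = 0
  · obtain ⟨ha, hb⟩ := h0
    refine ⟨fun _ => 1, fun z => z, fun z => 1 + q1 / 3 * z, by fun_prop, by fun_prop,
      by fun_prop, rfl, rfl, by ring, ?_, 1, one_ne_zero⟩
    intro z
    beta_reduce
    have e2 : q2 = q1 ^ 2 / 3 := (sub_eq_zero.1 hb).symm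
    have e3 : q3 = (q1 / 3) ^ 3 := (sub_eq_zero.1 ha).symm
    rw [e2, e3]
    ring
  · have hor : q1 ^ 2 / 3 - q2 ≠ 0 ∨ 12 * q3 - 4 * q1 * q2 + 8 / 9 * q1 ^ 3 ≠ 0 := by
      by_contra hcon
      rw [not_or, not_not, not_not] at hcon
      obtain ⟨hb, hp⟩ := hcon
      refine h0 ⟨?_, hb⟩
      have e2 : q2 = q1 ^ 2 / 3 := (sub_eq_zero.1 hb).symm
      rw [e2] at hp
      linear_combination (-1 / 12) * hp
    obtain ⟨S, T, W, hS, hT, hW, hS0, hT0, hW0, hrel, z1, hz1⟩ :=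
      quart (q1 ^ 2 / 3 - q2) (12 * q3 - 4 * q1 * q2 + 8 / 9 * q1 ^ 3) (6 * (q1 ^ 2 / 3 - q2)) 0
        (-3) hor
    have hrel' := fun z => Cub_a q1 q2 q3 (S z) (T z) (W z) (hrel z)
    have hSne : ∀ᶠ z in 𝓝 (0 : ℂ), S z ≠ 0 :=
      hS.continuous.continuousAt.eventually_ne (by rw [hS0]; exact one_ne_zero)
    have hTid : ¬ ∀ᶠ z in 𝓝 (0 : ℂ), T z = 0 := fun h => hz1 (Cub_id hT h z1)
    by_cases ha : (q1 / 3) ^ 3 - q3 = 0
    · have hb : q1 ^ 2 / 3 - q2 ≠ 0 := fun h => h0 ⟨ha, h⟩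
      obtain ⟨D, hD⟩ : ∃ D, D = 2 * (q1 ^ 2 / 3 - q2) := ⟨_, rfl⟩
      have h2b : D ≠ 0 := by
        rw [hD]
        exact mul_ne_zero two_ne_zero hb
      refine ⟨fun z => (3 * (q1 / 3 * S z + T z) ^ 2 - q2 * S z ^ 2 + W z) /
          D,
        fun z => (-2 * (3 * T z) * S z) / D,
        fun z => (3 * (q1 / 3 * S z + T z) ^ 2 - q2 * S z ^ 2 + W z -
          2 * (3 * T z) * (q1 / 3 * S z + T z)) / D,
        by fun_prop, by fun_prop, by fun_prop, ?_, ?_, ?_, ?_, ?_⟩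
      · beta_reduce
        rw [div_eq_one_iff_eq h2b, hS0, hT0, hW0, hD]
        ring
      · beta_reduce
        rw [hT0]
        ring
      · beta_reduce
        rw [div_eq_one_iff_eq h2b, hS0, hT0, hW0, hD]
        ring
      · intro z
        beta_reduce
        rw [div_pow, Cub_c q1 q2 q3 (S z) (T z) (W z) (hrel' z)]
        ring
      · by_contra hcon
        apply hTid
        filter_upwards [hSne] with z hz
        by_contra hTz
        refine hcon ⟨z, ?_⟩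
        beta_reduce
        refine div_ne_zero (mul_ne_zero (mul_ne_zero (by norm_num) (mul_ne_zero (by norm_num) hTz))
          hz) h2b
    · obtain ⟨D, hD⟩ : ∃ D, D = 2 * ((q1 / 3) ^ 3 - q3) := ⟨_, rfl⟩
      have h2a : D ≠ 0 := by
        rw [hD]
        exact mul_ne_zero two_ne_zero ha
      refine ⟨fun z => (2 * ((q1 / 3 * S z + T z) ^ 3 - q3 * S z ^ 3)) / D,
        fun z => ((W z - (3 * (q1 / 3 * S z + T z) ^ 2 - q2 * S z ^ 2)) * S z) /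
          D,
        fun z => (2 * ((q1 / 3 * S z + T z) ^ 3 - q3 * S z ^ 3) +
          (q1 / 3 * S z + T z) * (W z - (3 * (q1 / 3 * S z + T z) ^ 2 - q2 * S z ^ 2))) /
          D,
        by fun_prop, by fun_prop, by fun_prop, ?_, ?_, ?_, ?_, ?_⟩
      · beta_reduce
        rw [div_eq_one_iff_eq h2a, hS0, hT0, hD]
        ring
      · beta_reduce
        rw [hS0, hT0, hW0]
        ring
      · beta_reduce
        rw [div_eq_one_iff_eq h2a, hS0, hT0, hW0, hD]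
        ring
      · intro z
        beta_reduce
        rw [div_pow, Cub_b q1 q2 q3 (S z) (T z) (W z) (hrel' z)]
        ring
      · by_contra hcon
        apply hTid
        have hane : ∀ᶠ z in 𝓝 (0 : ℂ), (q1 / 3 * S z + T z) ^ 3 - q3 * S z ^ 3 ≠ 0 := by
          have h1 : Differentiable ℂ (fun z => (q1 / 3 * S z + T z) ^ 3 - q3 * S z ^ 3) := by
            fun_prop
          refine h1.continuous.continuousAt.eventually_ne ?_
          beta_reduce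
          rw [hS0, hT0]
          intro h2
          exact ha (by linear_combination h2)
        filter_upwards [hSne, hane] with z hz hz2
        by_contra hTz
        refine hcon ⟨z, ?_⟩
        beta_reduce
        refine div_ne_zero (mul_ne_zero (fun h3 => ?_) hz) h2a
        have h4 := hrel' z
        have h5 : W z = 3 * (q1 / 3 * S z + T z) ^ 2 - q2 * S z ^ 2 := sub_eq_zero.1 h3
        have h6 : 4 * ((q1 / 3 * S z + T z) ^ 3 - q3 * S z ^ 3) * (3 * T z) = 0 := by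
          rw [← h5] at h4
          linear_combination h4
        exact mul_ne_zero (mul_ne_zero (by norm_num) hz2) (mul_ne_zero (by norm_num) hTz) h6

end Pool.Agent.MP1e3e9c.C2
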