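import Pool.Agent.Lib.MP_1e3e9c_ag.C2.Defs

/-!
# The multidegree of `y^m - f`
-/

set_option autoImplicit false

open MvPolynomial

namespace Pool.Agent.MP1e3e9c.C2

theorem CycDeg_main {σ I : Type} [DecidableEq σ] [DecidableEq I] (bl : I → σ) (a : I → ℕ) (y : I)
    (m : ℕ) (hm : 0 < m) (f : MvPolynomial I ℂ) (D : σ → ℕ)
    (hE : MHom bl a (X y ^ m - f) D) (hfy : f.degreeOf y = 0) :
    D = Pi.single (bl y) (m * a y) ∧ MHom bl a f D := by
  have hc : coeff (Finsupp.single y m) f = 0 := by
    by_contra h
    have h1 : Finsupp.single y m ∈ f.support := by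
      rw [mem_support_iff]; exact h
    have h2 := MvPolynomial.monomial_le_degreeOf y h1
    rw [hfy, Finsupp.single_eq_same] at h2
    omega
  have hc1 : coeff (Finsupp.single y m) (X y ^ m - f : MvPolynomial I ℂ) ≠ 0 := by
    rw [coeff_sub, hc, coeff_X_pow]
    simp
  have hD : D = Pi.single (bl y) (m * a y) := by
    have h := hE hc1
    rw [← h, Finsupp.weight_single]
    funext s
    by_cases hs : s = bl y
    · subst hs
      simp
    · simp [Pi.single_eq_of_ne hs]
  refine ⟨hD, ?_⟩
  have hX : MHom bl a (X y ^ m : MvPolynomial I ℂ) D := by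
    have h1 := (isWeightedHomogeneous_X ℂ (fun i => (Pi.single (bl i) (a i) : σ → ℕ)) y).pow m
    have h2 : m • (Pi.single (bl y) (a y) : σ → ℕ) = D := by
      rw [hD]
      funext s
      by_cases hs : s = bl y
      · subst hs
        simp
      · simp [Pi.single_eq_of_ne hs]
    rw [← h2]
    exact h1
  have : f = X y ^ m - (X y ^ m - f) := by ring
  unfold MHom
  rw [this]
  exact (weightedHomogeneousSubmodule ℂ _ D).sub_mem hX hE

end Pool.Agent.MP1e3e9c.C2
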