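import Mathlib

/-!
# Kobayashi hyperbolicity, stream C2: generically two-to-one covers; definitions
-/

set_option autoImplicit false

open MvPolynomial Filter Topology

namespace Pool.Agent.MP1e3e9c.C2

/-! ## The analytic part -/

/-- first component of the duplication map of `y^2 = 4x^3 - g2 x - g3`, homogeneous of degree 4 -/
noncomputable def F0 (g2 g3 X Z : ℂ) : ℂ :=
  X ^ 4 + g2 / 2 * X ^ 2 * Z ^ 2 + 2 * g3 * X * Z ^ 3 + g2 ^ 2 / 16 * Z ^ 4

/-- second component of the duplication map -/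
noncomputable def F1 (g2 g3 X Z : ℂ) : ℂ := 4 * X ^ 3 * Z - g2 * X * Z ^ 3 - g3 * Z ^ 4

/-- the curve `W^m = Q(S,T)` carries an entire curve through `(1,0,1)` along which `T` is not
identically zero (common zeros of `S, T, W` are allowed) -/
def HasCurve (m : ℕ) (Q : ℂ → ℂ → ℂ) : Prop :=
  ∃ S T W : ℂ → ℂ, Differentiable ℂ S ∧ Differentiable ℂ T ∧ Differentiable ℂ W ∧
    S 0 = 1 ∧ T 0 = 0 ∧ W 0 = 1 ∧ (∀ z, W z ^ m = Q (S z) (T z)) ∧ ∃ z, T z ≠ 0

/-- a family of polynomials `q_θ(t)` of degree at most `m k`, `θ` in `ℂ^(k+2)`, such that all curves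
`w^m = q_θ(t)` carry an entire curve through `(0,1)` -/
structure Fam (m k : ℕ) where
  q : Polynomial (MvPolynomial (Fin (k + 2)) ℂ)
  deg : q.natDegree ≤ m * k
  coeff0 : q.coeff 0 = 1
  zero : q.map (MvPolynomial.eval (0 : Fin (k + 2) → ℂ)) = 1
  triv : ∀ θ : Fin (k + 2) → ℂ, q.map (MvPolynomial.eval θ) = 1 → θ = 0
  curve : ∀ θ : Fin (k + 2) → ℂ, HasCurve m (fun S T =>
    ∑ j ∈ Finset.range (m * k + 1), (q.map (MvPolynomial.eval θ)).coeff j * T ^ j * S ^ (m * k - j))

/-- homogenisation of a polynomial of degree at most `n` -/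
noncomputable def hom (n : ℕ) (x : Polynomial ℂ) (S T : ℂ) : ℂ :=
  ∑ l ∈ Finset.range (n + 1), x.coeff l * T ^ l * S ^ (n - l)

/-! ## Products of weighted projective spaces -/

section PP

variable {σ I : Type}

/-- in every factor some coordinate is nonzero -/
def Adm (bl : I → σ) (v : I → ℂ) : Prop := ∀ s, ∃ i, bl i = s ∧ v i ≠ 0

/-- `v` and `w` are homogeneous coordinates of the same point of the product of the weighted
projective spaces; the coordinate `i` belongs to the factor `bl i` and has weight `a i` -/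
def TRel (bl : I → σ) (a : I → ℕ) (v w : I → ℂ) : Prop :=
  ∃ l : σ → ℂ, (∀ s, l s ≠ 0) ∧ ∀ i, w i = l (bl i) ^ a i * v i

theorem TRel.refl (bl : I → σ) (a : I → ℕ) (v : I → ℂ) : TRel bl a v v :=
  ⟨fun _ => 1, fun _ => one_ne_zero, fun i => by simp⟩

theorem TRel.symm {bl : I → σ} {a : I → ℕ} {v w : I → ℂ} (h : TRel bl a v w) :
    TRel bl a w v := by
  obtain ⟨l, hl, h⟩ := h
  refine ⟨fun s => (l s)⁻¹, fun s => inv_ne_zero (hl s), fun i => ?_⟩
  rw [h i, ← mul_assoc, ← mul_pow, inv_mul_cancel₀ (hl _), one_pow, one_mul]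

theorem TRel.trans {bl : I → σ} {a : I → ℕ} {u v w : I → ℂ} (h : TRel bl a u v)
    (h' : TRel bl a v w) : TRel bl a u w := by
  obtain ⟨l, hl, h⟩ := h
  obtain ⟨l', hl', h'⟩ := h'
  refine ⟨fun s => l' s * l s, fun s => mul_ne_zero (hl' s) (hl s), fun i => ?_⟩
  rw [h' i, h i, mul_pow, mul_assoc]

/-- the equivalence relation on admissible coordinate vectors -/
def tSetoid (bl : I → σ) (a : I → ℕ) : Setoid {v : I → ℂ // Adm bl v} where
  r v w := TRel bl a v.1 w.1
  iseqv := ⟨fun v => TRel.refl bl a v.1, fun h => h.symm, fun h h' => h.trans h'⟩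

/-- the product of the weighted projective spaces `P((a i), bl i = s)`, `s` in `σ` -/
def PP (bl : I → σ) (a : I → ℕ) : Type := Quotient (tSetoid bl a)

/-- the point with homogeneous coordinates `v` -/
def PP.mk (bl : I → σ) (a : I → ℕ) (v : I → ℂ) (h : Adm bl v) : PP bl a :=
  Quotient.mk (tSetoid bl a) ⟨v, h⟩

/-- holomorphic maps from `ℂ` to the product of weighted projective spaces: locally, after a
substitution `z = z0 + w^k`, given by holomorphic functions as homogeneous coordinates -/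
def Hol [Fintype I] {bl : I → σ} {a : I → ℕ} (F : ℂ → PP bl a) : Prop :=
  ∀ z0 : ℂ, ∃ k : ℕ, 0 < k ∧ ∃ φ : ℂ → I → ℂ, AnalyticAt ℂ φ 0 ∧ Adm bl (φ 0) ∧
    ∀ᶠ w in 𝓝 (0 : ℂ), ∃ h : Adm bl (φ w), F (z0 + w ^ k) = PP.mk bl a (φ w) h

/-- the points of the product at which all the polynomials `G r` vanish -/
def Zer {κ : Type} (bl : I → σ) (a : I → ℕ) (G : κ → MvPolynomial I ℂ) : Set (PP bl a) :=
  {P | ∃ (v : I → ℂ) (h : Adm bl v), P = PP.mk bl a v h ∧ ∀ r, eval v (G r) = 0}

/-- `G` is multihomogeneous of multidegree `d` -/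
def MHom [DecidableEq σ] (bl : I → σ) (a : I → ℕ) (G : MvPolynomial I ℂ) (d : σ → ℕ) : Prop :=
  G.IsWeightedHomogeneous (fun i => (Pi.single (bl i) (a i) : σ → ℕ)) d

end PP

end Pool.Agent.MP1e3e9c.C2
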