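import Pool.Agent.Lib.MP_1e3e9c_ag.C2.Defs

/-!
# Polynomial curves in an arbitrary base: the dimension hypothesis
-/

set_option autoImplicit false

open MvPolynomial

namespace Pool.Agent.MP1e3e9c.C2

/-- the unknown coefficients `(i, l)`: the coefficient of `t^(l+1)` in the `i`-th coordinate, `l < n i` -/
abbrev Un {I : Type} (n : I → ℕ) : Type := Σ i : I, Fin (n i)

/-- the generic polynomial curve through `p`: `x_i(t) = p_i + ∑_{l < n i} X_(i,l) t^(l+1)` -/
noncomputable def genX {I : Type} (n : I → ℕ) (p : I → ℂ) (i : I) :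
    Polynomial (MvPolynomial (Un n) ℂ) :=
  Polynomial.C (C (p i)) + ∑ l : Fin (n i), Polynomial.C (X ⟨i, l⟩) * Polynomial.X ^ ((l : ℕ) + 1)

/-- the value of the polynomial `G` at the generic curve -/
noncomputable def genV {I : Type} (n : I → ℕ) (p : I → ℂ) (G : MvPolynomial I ℂ) :
    Polynomial (MvPolynomial (Un n) ℂ) :=
  eval₂ (Polynomial.C.comp (C : ℂ →+* MvPolynomial (Un n) ℂ)) (genX n p) G

/-- the equations of the space of the polynomial curves `x(t)` with `x(0) = p`, `deg x_i ≤ n i`, on which all the
polynomials `G r` vanish: all coefficients of `G r (x(t))` -/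
noncomputable def curveIdeal {I κ : Type} (n : I → ℕ) (p : I → ℂ) (G : κ → MvPolynomial I ℂ) :
    Ideal (MvPolynomial (Un n) ℂ) :=
  Ideal.span {c | ∃ (r : κ) (l : ℕ), c = (genV n p (G r)).coeff l}

/-- the local dimension of the scheme with ideal `A` at the origin (`A` contained in the ideal of the origin):
the height of the maximal ideal of the origin in the quotient ring -/
noncomputable def dimAt {U : Type} (A : Ideal (MvPolynomial U ℂ)) : ℕ∞ :=
  (Ideal.map (Ideal.Quotient.mk A)
    (RingHom.ker (constantCoeff : MvPolynomial U ℂ →+* ℂ))).height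

/-- the local dimension, at the constant curve, of the space of all polynomial curves `x(t)` with `x(0) = p`,
`deg x_i ≤ n i`, contained in the zero set of the polynomials `G r` -/
noncomputable def curveDim {I κ : Type} (n : I → ℕ) (p : I → ℂ) (G : κ → MvPolynomial I ℂ) : ℕ∞ :=
  dimAt (curveIdeal n p G)

end Pool.Agent.MP1e3e9c.C2
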