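import Pool.Agent.Lib.MP_1e3e9c_ag.C2.Quart
import Pool.Agent.Lib.MP_1e3e9c_ag.C2.Cub

/-!
# JOB FamA: the families m = 2 (all quartics) and m = 3 (all cubics)

fam2: q = 1 + X0 t + X1 t^2 + X2 t^3 + X3 t^4 (Polynomial.C (X i) * Polynomial.X^j). curve: by quart with eps = 1 and q_j = θ_(j-1) after expanding
the sum over range 5 (Finset.sum_range_succ) and computing the coefficients of the mapped polynomial (simp with coeff_X, coeff_C_mul, coeff_X_pow,
coeff_one; or write the polynomial as a Finset sum so that coeff j is immediate). triv: compare coefficients. zero: all X i evaluate to 0.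
fam3: q = 1 + X0 t + X1 t^2 + X2 t^3, cub.
(The function in HasCurve must be matched by funext + ring, e.g. prove HasCurve for the explicit function and rewrite with `have : (fun S T => ..) = (fun S T => ..) := by funext S T; simp [..]; ring`.)
-/

set_option autoImplicit false

namespace Pool.Agent.MP1e3e9c.C2

section

open Polynomial

private theorem FamA_nat {R : Type*} [CommRing R] (a b c d : R) :
    (1 + C a * X + C b * X ^ 2 + C c * X ^ 3 + C d * X ^ 4 : R[X]).natDegree ≤ 4 := by
  compute_degree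

private theorem FamA_c0 {R : Type*} [CommRing R] (a b c d : R) :
    (1 + C a * X + C b * X ^ 2 + C c * X ^ 3 + C d * X ^ 4 : R[X]).coeff 0 = 1 := by
  simp [coeff_X, coeff_one, coeff_X_pow]

private theorem FamA_c1 {R : Type*} [CommRing R] (a b c d : R) :
    (1 + C a * X + C b * X ^ 2 + C c * X ^ 3 + C d * X ^ 4 : R[X]).coeff 1 = a := by
  simp [coeff_X, coeff_one, coeff_X_pow]

private theorem FamA_c2 {R : Type*} [CommRing R] (a b c d : R) :
    (1 + C a * X + C b * X ^ 2 + C c * X ^ 3 + C d * X ^ 4 : R[X]).coeff 2 = b := by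
  simp [coeff_one, coeff_X_pow]

private theorem FamA_c3 {R : Type*} [CommRing R] (a b c d : R) :
    (1 + C a * X + C b * X ^ 2 + C c * X ^ 3 + C d * X ^ 4 : R[X]).coeff 3 = c := by
  simp [coeff_one, coeff_X_pow]

private theorem FamA_c4 {R : Type*} [CommRing R] (a b c d : R) :
    (1 + C a * X + C b * X ^ 2 + C c * X ^ 3 + C d * X ^ 4 : R[X]).coeff 4 = d := by
  simp [coeff_one, coeff_X_pow]

end

theorem exists_fam2 : Nonempty (Fam 2 2) := by
  have hmap : ∀ θ : Fin (2 + 2) → ℂ,
      (1 + Polynomial.C (MvPolynomial.X 0) * Polynomial.X +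
        Polynomial.C (MvPolynomial.X 1) * Polynomial.X ^ 2 +
        Polynomial.C (MvPolynomial.X 2) * Polynomial.X ^ 3 +
        Polynomial.C (MvPolynomial.X 3) * Polynomial.X ^ 4 :
          Polynomial (MvPolynomial (Fin (2 + 2)) ℂ)).map (MvPolynomial.eval θ) =
      1 + Polynomial.C (θ 0) * Polynomial.X + Polynomial.C (θ 1) * Polynomial.X ^ 2 +
        Polynomial.C (θ 2) * Polynomial.X ^ 3 + Polynomial.C (θ 3) * Polynomial.X ^ 4 := by
    intro θ
    simp only [Polynomial.map_add, Polynomial.map_mul, Polynomial.map_pow, Polynomial.map_X,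
      Polynomial.map_C, Polynomial.map_one, MvPolynomial.eval_X]
  refine ⟨⟨_, FamA_nat (MvPolynomial.X 0) (MvPolynomial.X 1) (MvPolynomial.X 2)
    (MvPolynomial.X 3), FamA_c0 _ _ _ _, ?_, ?_, ?_⟩⟩
  · rw [hmap]
    simp
  · intro θ h
    rw [hmap] at h
    have h1 : θ 0 = 0 := by
      have := congrArg (fun p => Polynomial.coeff p 1) h
      simpa [FamA_c1, Polynomial.coeff_one] using this
    have h2 : θ 1 = 0 := by
      have := congrArg (fun p => Polynomial.coeff p 2) h
      simpa [FamA_c2, Polynomial.coeff_one] using this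
    have h3 : θ 2 = 0 := by
      have := congrArg (fun p => Polynomial.coeff p 3) h
      simpa [FamA_c3, Polynomial.coeff_one] using this
    have h4 : θ 3 = 0 := by
      have := congrArg (fun p => Polynomial.coeff p 4) h
      simpa [FamA_c4, Polynomial.coeff_one] using this
    funext i
    fin_cases i
    · exact h1
    · exact h2
    · exact h3
    · exact h4
  · intro θ
    obtain ⟨S, T, W, hS, hT, hW, hS0, hT0, hW0, h, hz⟩ :=
      quart 1 (θ 0) (θ 1) (θ 2) (θ 3) (Or.inl one_ne_zero)
    refine ⟨S, T, W, hS, hT, hW, hS0, hT0, hW0, fun z => ?_, hz⟩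
    rw [hmap, h z]
    show _ = ∑ j ∈ Finset.range 5, _
    simp only [Finset.sum_range_succ, Finset.sum_range_zero, FamA_c0, FamA_c1, FamA_c2, FamA_c3,
      FamA_c4]
    norm_num

theorem exists_fam3 : Nonempty (Fam 3 1) := by
  have hmap : ∀ θ : Fin (1 + 2) → ℂ,
      (1 + Polynomial.C (MvPolynomial.X 0) * Polynomial.X +
        Polynomial.C (MvPolynomial.X 1) * Polynomial.X ^ 2 +
        Polynomial.C (MvPolynomial.X 2) * Polynomial.X ^ 3 +
        Polynomial.C 0 * Polynomial.X ^ 4 :
          Polynomial (MvPolynomial (Fin (1 + 2)) ℂ)).map (MvPolynomial.eval θ) =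
      1 + Polynomial.C (θ 0) * Polynomial.X + Polynomial.C (θ 1) * Polynomial.X ^ 2 +
        Polynomial.C (θ 2) * Polynomial.X ^ 3 + Polynomial.C 0 * Polynomial.X ^ 4 := by
    intro θ
    simp only [Polynomial.map_add, Polynomial.map_mul, Polynomial.map_pow, Polynomial.map_X,
      Polynomial.map_C, Polynomial.map_one, MvPolynomial.eval_X, map_zero, Polynomial.map_zero]
  have hdeg : (1 + Polynomial.C (MvPolynomial.X 0) * Polynomial.X +
        Polynomial.C (MvPolynomial.X 1) * Polynomial.X ^ 2 +
        Polynomial.C (MvPolynomial.X 2) * Polynomial.X ^ 3 +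
        Polynomial.C 0 * Polynomial.X ^ 4 :
          Polynomial (MvPolynomial (Fin (1 + 2)) ℂ)).natDegree ≤ 3 * 1 := by
    rw [Polynomial.C_0, zero_mul, add_zero]
    compute_degree
  refine ⟨⟨_, hdeg, FamA_c0 _ _ _ _, ?_, ?_, ?_⟩⟩
  · rw [hmap]
    simp
  · intro θ h
    rw [hmap] at h
    have h1 : θ 0 = 0 := by
      have := congrArg (fun p => Polynomial.coeff p 1) h
      simpa [FamA_c1, Polynomial.coeff_one] using this
    have h2 : θ 1 = 0 := by
      have := congrArg (fun p => Polynomial.coeff p 2) h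
      simpa [FamA_c2, Polynomial.coeff_one] using this
    have h3 : θ 2 = 0 := by
      have := congrArg (fun p => Polynomial.coeff p 3) h
      simpa [FamA_c3, Polynomial.coeff_one] using this
    funext i
    fin_cases i
    · exact h1
    · exact h2
    · exact h3
  · intro θ
    obtain ⟨S, T, W, hS, hT, hW, hS0, hT0, hW0, h, hz⟩ := cub (θ 0) (θ 1) (θ 2)
    refine ⟨S, T, W, hS, hT, hW, hS0, hT0, hW0, fun z => ?_, hz⟩
    rw [hmap, h z]
    show _ = ∑ j ∈ Finset.range 4, _
    simp only [Finset.sum_range_succ, Finset.sum_range_zero, FamA_c0, FamA_c1, FamA_c2, FamA_c3]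
    norm_num

end Pool.Agent.MP1e3e9c.C2
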