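import Pool.Agent.Lib.MP_1e3e9c_ag.C2.Sex

/-!
# JOB FamB: the families m = 4, 6

fam4: q = (1 + X0 t)^2 (1 + X1 t)(1 + X2 t), natDegree <= 4; curve: four. fam6: q = (1 + X0 t)^3 (1 + X1 t)^2 (1 + X2 t), natDegree <= 6, curve: six.
triv: if (1 + a t)^2 (1 + b t)(1 + c t) = 1 in C[t] then every factor is a unit (isUnit_of_mul_eq_one etc.), and 1 + a t is a unit iff a = 0
(Polynomial.isUnit_iff or natDegree / degree of C a * X + 1).
curve: the sum over j in range (mk+1) of coeff j * T^j * S^(mk-j) is the homogenisation of the product: general lemma: for polynomials u, w with natDegree u <= n,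
natDegree w <= n', hom (n+n') (u*w) S T = hom n u S T * hom n' w S T (prove it for S != 0 from hom n u S T = S^n * u.eval (T/S), and for S = 0 separately, or by
expanding both sides explicitly: here all degrees are <= 6, so after `Finset.sum_range_succ` and explicit coefficients `ring` also works.
Easiest: expand q as an explicit sum of C(..)*X^j by ring, then read off the coefficients by simp).
-/

set_option autoImplicit false

namespace Pool.Agent.MP1e3e9c.C2

theorem FamB_hom_zero (n : ℕ) (u : Polynomial ℂ) (T : ℂ) :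
    hom n u 0 T = u.coeff n * T ^ n := by
  unfold hom
  rw [Finset.sum_range_succ, Nat.sub_self, pow_zero, mul_one, Finset.sum_eq_zero, zero_add]
  intro l hl
  rw [Finset.mem_range] at hl
  rw [zero_pow (Nat.sub_ne_zero_of_lt hl), mul_zero]

theorem FamB_hom_ne (n : ℕ) (u : Polynomial ℂ) (h : u.natDegree ≤ n) (S T : ℂ) (hS : S ≠ 0) :
    hom n u S T = S ^ n * u.eval (T / S) := by
  unfold hom
  rw [Polynomial.eval_eq_sum_range' (Nat.lt_succ_of_le h), Finset.mul_sum]
  refine Finset.sum_congr rfl fun l hl => ?_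
  have hl' : l ≤ n := Nat.lt_succ_iff.1 (Finset.mem_range.1 hl)
  have h1 : S ^ n = S ^ (n - l) * S ^ l := by
    rw [← pow_add, Nat.sub_add_cancel hl']
  rw [h1, div_pow]
  field_simp

theorem FamB_hom_mul (n n' : ℕ) (u w : Polynomial ℂ) (h : u.natDegree ≤ n)
    (h' : w.natDegree ≤ n') (S T : ℂ) :
    hom (n + n') (u * w) S T = hom n u S T * hom n' w S T := by
  by_cases hS : S = 0
  · subst hS
    rw [FamB_hom_zero, FamB_hom_zero, FamB_hom_zero, Polynomial.coeff_mul_add_eq_of_natDegree_le h h',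
      pow_add]
    ring
  · rw [FamB_hom_ne _ _ ((Polynomial.natDegree_mul_le).trans (Nat.add_le_add h h')) _ _ hS,
      FamB_hom_ne _ _ h _ _ hS, FamB_hom_ne _ _ h' _ _ hS, Polynomial.eval_mul, pow_add]
    ring

theorem FamB_deg {R : Type*} [CommRing R] (a : R) :
    (1 + Polynomial.C a * Polynomial.X : Polynomial R).natDegree ≤ 1 := by
  rw [add_comm]
  have h := Polynomial.natDegree_linear_le (a := a) (b := (1 : R))
  rwa [Polynomial.C_1] at h

theorem FamB_hom_one (a S T : ℂ) :
    hom 1 (1 + Polynomial.C a * Polynomial.X) S T = S + a * T := by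
  unfold hom
  rw [Finset.sum_range_succ, Finset.sum_range_one]
  simp [Polynomial.coeff_one, Polynomial.coeff_X]

theorem FamB_unit (a : ℂ) (h : IsUnit (1 + Polynomial.C a * Polynomial.X : Polynomial ℂ)) :
    a = 0 := by
  by_contra ha
  have h1 := Polynomial.natDegree_eq_zero_of_isUnit h
  have h2 : (1 + Polynomial.C a * Polynomial.X : Polynomial ℂ).natDegree = 1 := by
    rw [add_comm]
    have h := Polynomial.natDegree_linear (a := a) (b := (1 : ℂ)) ha
    rwa [Polynomial.C_1] at h
  omega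

theorem exists_fam4 : Nonempty (Fam 4 1) := by
  have hmap : ∀ θ : Fin (1 + 2) → ℂ,
      ((1 + Polynomial.C (MvPolynomial.X 0) * Polynomial.X) *
        (1 + Polynomial.C (MvPolynomial.X 0) * Polynomial.X) *
        ((1 + Polynomial.C (MvPolynomial.X 1) * Polynomial.X) *
          (1 + Polynomial.C (MvPolynomial.X 2) * Polynomial.X)) :
        Polynomial (MvPolynomial (Fin (1 + 2)) ℂ)).map (MvPolynomial.eval θ) =
      (1 + Polynomial.C (θ 0) * Polynomial.X) * (1 + Polynomial.C (θ 0) * Polynomial.X) *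
        ((1 + Polynomial.C (θ 1) * Polynomial.X) * (1 + Polynomial.C (θ 2) * Polynomial.X)) := by
    intro θ
    simp only [Polynomial.map_mul, Polynomial.map_add, Polynomial.map_one, Polynomial.map_C,
      Polynomial.map_X, MvPolynomial.eval_X]
  refine ⟨⟨(1 + Polynomial.C (MvPolynomial.X 0) * Polynomial.X) *
        (1 + Polynomial.C (MvPolynomial.X 0) * Polynomial.X) *
        ((1 + Polynomial.C (MvPolynomial.X 1) * Polynomial.X) *
          (1 + Polynomial.C (MvPolynomial.X 2) * Polynomial.X)), ?_, ?_, ?_, ?_, ?_⟩⟩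
  · refine (Polynomial.natDegree_mul_le).trans ((Nat.add_le_add
      ((Polynomial.natDegree_mul_le).trans (Nat.add_le_add (FamB_deg _) (FamB_deg _)))
      ((Polynomial.natDegree_mul_le).trans (Nat.add_le_add (FamB_deg _) (FamB_deg _)))).trans ?_)
    norm_num
  · simp [Polynomial.mul_coeff_zero]
  · rw [hmap]
    simp
  · intro θ h
    rw [hmap] at h
    have hu : IsUnit ((1 + Polynomial.C (θ 0) * Polynomial.X) *
        (1 + Polynomial.C (θ 0) * Polynomial.X) *
        ((1 + Polynomial.C (θ 1) * Polynomial.X) * (1 + Polynomial.C (θ 2) * Polynomial.X)) :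
          Polynomial ℂ) := by
      rw [h]
      exact isUnit_one
    rw [IsUnit.mul_iff, IsUnit.mul_iff, IsUnit.mul_iff] at hu
    obtain ⟨⟨h0, -⟩, h1, h2⟩ := hu
    funext i
    fin_cases i
    · exact FamB_unit _ h0
    · exact FamB_unit _ h1
    · exact FamB_unit _ h2
  · intro θ
    rw [hmap]
    have hf : (fun S T : ℂ => ∑ j ∈ Finset.range (4 * 1 + 1),
        ((1 + Polynomial.C (θ 0) * Polynomial.X) * (1 + Polynomial.C (θ 0) * Polynomial.X) *
        ((1 + Polynomial.C (θ 1) * Polynomial.X) * (1 + Polynomial.C (θ 2) * Polynomial.X)) :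
          Polynomial ℂ).coeff j * T ^ j * S ^ (4 * 1 - j)) =
        fun S T => (S + θ 0 * T) ^ 2 * (S + θ 1 * T) * (S + θ 2 * T) := by
      funext S T
      have h2 : ∀ a b : ℂ, ((1 + Polynomial.C a * Polynomial.X) *
          (1 + Polynomial.C b * Polynomial.X) : Polynomial ℂ).natDegree ≤ 1 + 1 := fun a b =>
        (Polynomial.natDegree_mul_le).trans (Nat.add_le_add (FamB_deg _) (FamB_deg _))
      have h3 := FamB_hom_mul (1 + 1) (1 + 1) _ _ (h2 (θ 0) (θ 0)) (h2 (θ 1) (θ 2)) S T
      rw [FamB_hom_mul 1 1 _ _ (FamB_deg _) (FamB_deg _),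
        FamB_hom_mul 1 1 _ _ (FamB_deg _) (FamB_deg _), FamB_hom_one, FamB_hom_one,
        FamB_hom_one] at h3
      have h4 : (S + θ 0 * T) ^ 2 * (S + θ 1 * T) * (S + θ 2 * T) =
        (S + θ 0 * T) * (S + θ 0 * T) * ((S + θ 1 * T) * (S + θ 2 * T)) := by ring
      rw [h4, ← h3]
      rfl
    rw [hf]
    exact four _ _ _

theorem exists_fam6 : Nonempty (Fam 6 1) := by
  have hmap : ∀ θ : Fin (1 + 2) → ℂ,
      ((1 + Polynomial.C (MvPolynomial.X 0) * Polynomial.X) *
        (1 + Polynomial.C (MvPolynomial.X 0) * Polynomial.X) *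
        ((1 + Polynomial.C (MvPolynomial.X 0) * Polynomial.X) *
          (1 + Polynomial.C (MvPolynomial.X 1) * Polynomial.X)) *
        ((1 + Polynomial.C (MvPolynomial.X 1) * Polynomial.X) *
          (1 + Polynomial.C (MvPolynomial.X 2) * Polynomial.X)) :
        Polynomial (MvPolynomial (Fin (1 + 2)) ℂ)).map (MvPolynomial.eval θ) =
      (1 + Polynomial.C (θ 0) * Polynomial.X) * (1 + Polynomial.C (θ 0) * Polynomial.X) *
        ((1 + Polynomial.C (θ 0) * Polynomial.X) * (1 + Polynomial.C (θ 1) * Polynomial.X)) *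
        ((1 + Polynomial.C (θ 1) * Polynomial.X) * (1 + Polynomial.C (θ 2) * Polynomial.X)) := by
    intro θ
    simp only [Polynomial.map_mul, Polynomial.map_add, Polynomial.map_one, Polynomial.map_C,
      Polynomial.map_X, MvPolynomial.eval_X]
  refine ⟨⟨(1 + Polynomial.C (MvPolynomial.X 0) * Polynomial.X) *
        (1 + Polynomial.C (MvPolynomial.X 0) * Polynomial.X) *
        ((1 + Polynomial.C (MvPolynomial.X 0) * Polynomial.X) *
          (1 + Polynomial.C (MvPolynomial.X 1) * Polynomial.X)) *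
        ((1 + Polynomial.C (MvPolynomial.X 1) * Polynomial.X) *
          (1 + Polynomial.C (MvPolynomial.X 2) * Polynomial.X)), ?_, ?_, ?_, ?_, ?_⟩⟩
  · refine (Polynomial.natDegree_mul_le).trans ((Nat.add_le_add
      ((Polynomial.natDegree_mul_le).trans (Nat.add_le_add
        ((Polynomial.natDegree_mul_le).trans (Nat.add_le_add (FamB_deg _) (FamB_deg _)))
        ((Polynomial.natDegree_mul_le).trans (Nat.add_le_add (FamB_deg _) (FamB_deg _)))))
      ((Polynomial.natDegree_mul_le).trans (Nat.add_le_add (FamB_deg _) (FamB_deg _)))).trans ?_)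
    norm_num
  · simp [Polynomial.mul_coeff_zero]
  · rw [hmap]
    simp
  · intro θ h
    rw [hmap] at h
    have hu : IsUnit ((1 + Polynomial.C (θ 0) * Polynomial.X) *
        (1 + Polynomial.C (θ 0) * Polynomial.X) *
        ((1 + Polynomial.C (θ 0) * Polynomial.X) * (1 + Polynomial.C (θ 1) * Polynomial.X)) *
        ((1 + Polynomial.C (θ 1) * Polynomial.X) * (1 + Polynomial.C (θ 2) * Polynomial.X)) :
          Polynomial ℂ) := by
      rw [h]
      exact isUnit_one
    rw [IsUnit.mul_iff, IsUnit.mul_iff, IsUnit.mul_iff, IsUnit.mul_iff, IsUnit.mul_iff] at hu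
    obtain ⟨⟨⟨h0, -⟩, -⟩, h1, h2⟩ := hu
    funext i
    fin_cases i
    · exact FamB_unit _ h0
    · exact FamB_unit _ h1
    · exact FamB_unit _ h2
  · intro θ
    rw [hmap]
    have hf : (fun S T : ℂ => ∑ j ∈ Finset.range (6 * 1 + 1),
        ((1 + Polynomial.C (θ 0) * Polynomial.X) * (1 + Polynomial.C (θ 0) * Polynomial.X) *
        ((1 + Polynomial.C (θ 0) * Polynomial.X) * (1 + Polynomial.C (θ 1) * Polynomial.X)) *
        ((1 + Polynomial.C (θ 1) * Polynomial.X) * (1 + Polynomial.C (θ 2) * Polynomial.X)) :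
          Polynomial ℂ).coeff j * T ^ j * S ^ (6 * 1 - j)) =
        fun S T => (S + θ 0 * T) ^ 3 * (S + θ 1 * T) ^ 2 * (S + θ 2 * T) := by
      funext S T
      have h2 : ∀ a b : ℂ, ((1 + Polynomial.C a * Polynomial.X) *
          (1 + Polynomial.C b * Polynomial.X) : Polynomial ℂ).natDegree ≤ 1 + 1 := fun a b =>
        (Polynomial.natDegree_mul_le).trans (Nat.add_le_add (FamB_deg _) (FamB_deg _))
      have h3 := FamB_hom_mul ((1 + 1) + (1 + 1)) (1 + 1) _ _
        ((Polynomial.natDegree_mul_le).trans (Nat.add_le_add (h2 (θ 0) (θ 0)) (h2 (θ 0) (θ 1))))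
        (h2 (θ 1) (θ 2)) S T
      rw [FamB_hom_mul (1 + 1) (1 + 1) _ _ (h2 (θ 0) (θ 0)) (h2 (θ 0) (θ 1)),
        FamB_hom_mul 1 1 _ _ (FamB_deg _) (FamB_deg _),
        FamB_hom_mul 1 1 _ _ (FamB_deg _) (FamB_deg _),
        FamB_hom_mul 1 1 _ _ (FamB_deg _) (FamB_deg _), FamB_hom_one, FamB_hom_one,
        FamB_hom_one] at h3
      have h4 : (S + θ 0 * T) ^ 3 * (S + θ 1 * T) ^ 2 * (S + θ 2 * T) =
        (S + θ 0 * T) * (S + θ 0 * T) * ((S + θ 0 * T) * (S + θ 1 * T)) *
          ((S + θ 1 * T) * (S + θ 2 * T)) := by ring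
      rw [h4, ← h3]
      rfl
    rw [hf]
    exact six _ _ _

end Pool.Agent.MP1e3e9c.C2
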