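import Pool.Agent.Lib.MP_1e3e9c_ag.C2.Defs

/-!
# JOB Homog: homogenisation lemmas

PROOFS. hom_eq: sum_l x_l T^l S^(n-l) = S^n sum_l x_l (T/S)^l (l <= n), and eval (T/S) x = sum over range (n+1) by
Polynomial.eval_eq_sum_range'. hom_one_zero: only l = 0 survives (0^l). hom_diff: finite sum of products of differentiable functions.
eval_weighted: G = sum of monomials c * prod X_i^(d_i) with sum d_i n_i = D for every d in the support (IsWeightedHomogeneous,
Finsupp.weight); eval_eq' gives prod_i (l^(n i) v_i)^(d_i) = l^(sum n_i d_i) prod v_i^(d_i).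
eval_hom: apply hom_eq to each coordinate: (hom (n i) (x i) S T) = S^(n i) * eval (T/S) (x i), then eval_weighted with l = S, and
eval (fun i => eval t (x i)) G = eval t (aeval x G) (both are ring homs MvPolynomial -> C agreeing on C and X_i:
e.g. `Polynomial.eval t` composed with aeval, use MvPolynomial.induction_on or `MvPolynomial.aeval_def, eval₂_comp`).
entire_zero: f and S entire, S(0) != 0, f vanishes where S does not: S != 0 near 0 (continuity), so f = 0 near 0, identity theorem.
-/

set_option autoImplicit false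

open MvPolynomial Filter Topology

namespace Pool.Agent.MP1e3e9c.C2

theorem hom_eq (n : ℕ) (x : Polynomial ℂ) (hx : x.natDegree ≤ n) (S T : ℂ) (hS : S ≠ 0) :
    hom n x S T = S ^ n * x.eval (T / S) := by
  unfold hom
  rw [Polynomial.eval_eq_sum_range' (Nat.lt_succ_of_le hx), Finset.mul_sum]
  refine Finset.sum_congr rfl fun l hl => ?_
  have hl' : l ≤ n := Nat.lt_succ_iff.mp (Finset.mem_range.mp hl)
  have h1 : S ^ n = S ^ l * S ^ (n - l) := by
    rw [← pow_add, Nat.add_sub_cancel' hl']
  rw [h1, div_pow]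
  field_simp

theorem hom_one_zero (n : ℕ) (x : Polynomial ℂ) : hom n x 1 0 = x.coeff 0 := by
  unfold hom
  rw [Finset.sum_eq_single 0]
  · simp
  · intro l _ hl
    simp [hl]
  · intro h
    exact absurd (Finset.mem_range.mpr (Nat.succ_pos n)) h

theorem hom_diff (n : ℕ) (x : Polynomial ℂ) (S T : ℂ → ℂ) (hS : Differentiable ℂ S)
    (hT : Differentiable ℂ T) : Differentiable ℂ (fun z => hom n x (S z) (T z)) := by
  unfold hom
  exact Differentiable.fun_sum fun l _ => ((hT.pow l).const_mul _).mul (hS.pow _)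

theorem eval_weighted {I : Type} (n : I → ℕ) (G : MvPolynomial I ℂ) (D : ℕ)
    (hG : G.IsWeightedHomogeneous n D) (l : ℂ) (v : I → ℂ) :
    eval (fun i => l ^ n i * v i) G = l ^ D * eval v G := by
  rw [MvPolynomial.eval_eq, MvPolynomial.eval_eq, Finset.mul_sum]
  refine Finset.sum_congr rfl fun d hd => ?_
  have hw : Finsupp.weight n d = D := hG (MvPolynomial.mem_support_iff.mp hd)
  have h1 : ∏ i ∈ d.support, (l ^ n i * v i) ^ d i =
      l ^ D * ∏ i ∈ d.support, v i ^ d i := by
    rw [← hw, Finsupp.weight_apply, Finsupp.sum, ← Finset.prod_pow_eq_pow_sum,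
      ← Finset.prod_mul_distrib]
    refine Finset.prod_congr rfl fun i _ => ?_
    rw [mul_pow, ← pow_mul, smul_eq_mul, mul_comm (d i)]
  rw [h1]
  ring

theorem eval_hom {I : Type} (n : I → ℕ) (x : I → Polynomial ℂ) (hx : ∀ i, (x i).natDegree ≤ n i)
    (G : MvPolynomial I ℂ) (D : ℕ) (hG : G.IsWeightedHomogeneous n D) (S T : ℂ) (hS : S ≠ 0) :
    eval (fun i => hom (n i) (x i) S T) G = S ^ D * (aeval x G).eval (T / S) := by
  have h1 : (fun i => hom (n i) (x i) S T) = fun i => S ^ n i * (x i).eval (T / S) := by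
    funext i
    exact hom_eq (n i) (x i) (hx i) S T hS
  have h2 : ∀ P : MvPolynomial I ℂ, eval (fun i => (x i).eval (T / S)) P =
      (aeval x P).eval (T / S) := by
    intro P
    induction P using MvPolynomial.induction_on with
    | C a => simp
    | add p q hp hq => simp [hp, hq]
    | mul_X p i hp => simp [hp]
  rw [h1, eval_weighted n G D hG, h2]

theorem entire_zero (f S : ℂ → ℂ) (hf : Differentiable ℂ f) (hS : Differentiable ℂ S)
    (h0 : S 0 ≠ 0) (h : ∀ z, S z ≠ 0 → f z = 0) : ∀ z, f z = 0 := by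
  have hev : f =ᶠ[𝓝 0] (fun _ => (0 : ℂ)) := by
    filter_upwards [(hS.continuous.continuousAt).eventually_ne h0] with z hz
    exact h z hz
  have hfa : AnalyticOnNhd ℂ f Set.univ := fun z _ => hf.analyticAt z
  have hga : AnalyticOnNhd ℂ (fun _ : ℂ => (0 : ℂ)) Set.univ := analyticOnNhd_const
  have heq := hfa.eq_of_eventuallyEq hga hev
  intro z
  exact congrFun heq z

/-- multihomogeneous polynomials: scaling by the torus -/
theorem eval_torus {σ I : Type} [DecidableEq σ] [Fintype σ] (bl : I → σ) (a : I → ℕ)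
    (G : MvPolynomial I ℂ) (d : σ → ℕ) (hG : MHom bl a G d) (l : σ → ℂ) (v : I → ℂ) :
    eval (fun i => l (bl i) ^ a i * v i) G = (∏ s, l s ^ d s) * eval v G := by
  rw [MvPolynomial.eval_eq, MvPolynomial.eval_eq, Finset.mul_sum]
  refine Finset.sum_congr rfl fun e he => ?_
  have hw : Finsupp.weight (fun i => (Pi.single (bl i) (a i) : σ → ℕ)) e = d :=
    hG (MvPolynomial.mem_support_iff.mp he)
  have h0 : ∏ s, l s ^ d s = ∏ i ∈ e.support, l (bl i) ^ (e i * a i) := by
    rw [← hw]
    have h2 : ∀ s, l s ^ (Finsupp.weight (fun i => (Pi.single (bl i) (a i) : σ → ℕ)) e) s =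
        ∏ i ∈ e.support, l s ^ (e i * (Pi.single (bl i) (a i) : σ → ℕ) s) := by
      intro s
      rw [Finsupp.weight_apply, Finsupp.sum, Finset.sum_apply, Finset.prod_pow_eq_pow_sum]
      rfl
    rw [Finset.prod_congr rfl fun s _ => h2 s, Finset.prod_comm]
    refine Finset.prod_congr rfl fun i _ => ?_
    rw [Finset.prod_eq_single (bl i)]
    · rw [Pi.single_eq_same]
    · intro s _ hs
      rw [Pi.single_eq_of_ne hs, mul_zero, pow_zero]
    · intro hh
      exact absurd (Finset.mem_univ _) hh
  have h1 : ∏ i ∈ e.support, (l (bl i) ^ a i * v i) ^ e i =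
      (∏ s, l s ^ d s) * ∏ i ∈ e.support, v i ^ e i := by
    rw [h0, ← Finset.prod_mul_distrib]
    refine Finset.prod_congr rfl fun i _ => ?_
    rw [mul_pow, ← pow_mul, mul_comm (e i)]
  rw [h1]
  ring

/-- the degree in the direction of one factor -/
theorem mhom_single {σ I : Type} [DecidableEq σ] (bl : I → σ) (a : I → ℕ)
    (G : MvPolynomial I ℂ) (d : σ → ℕ) (hG : MHom bl a G d) (s : σ) :
    G.IsWeightedHomogeneous (fun i => if bl i = s then a i else 0) (d s) := by
  intro e he
  have hw : Finsupp.weight (fun i => (Pi.single (bl i) (a i) : σ → ℕ)) e = d := hG he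
  rw [← hw, Finsupp.weight_apply, Finsupp.weight_apply, Finsupp.sum, Finsupp.sum,
    Finset.sum_apply]
  refine Finset.sum_congr rfl fun i _ => ?_
  rw [Pi.smul_apply, Pi.single_apply]
  by_cases hb : bl i = s
  · rw [if_pos hb, if_pos hb.symm]
  · rw [if_neg hb, if_neg fun hh => hb hh.symm]

end Pool.Agent.MP1e3e9c.C2
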