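import Pool.Agent.Lib.MP_1e3e9c_ag.C2.AuxF
import Pool.Agent.Lib.MP_1e3e9c_ag.C2.CIDim

/-!
# The family of all lines
-/

set_option autoImplicit false

open MvPolynomial

namespace Pool.Agent.MP1e3e9c.C2

theorem const_family {I : Type} [Fintype I] (a : I → ℕ) (ha : ∀ i, 0 < a i) (p : I → ℂ)
    (x : I → Polynomial ℂ) (hdeg : ∀ i, (x i).natDegree ≤ a i) (h0 : ∀ i, (x i).coeff 0 = p i)
    (hgcd : ∀ N : ℕ, (∀ i, p i ≠ 0 → N ∣ a i) → N = 1)
    (hprop : {t : ℂ | ∃ l : ℂ, l ≠ 0 ∧ ∀ i, (x i).eval t = l ^ a i * p i}.Infinite) :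
    ∃ b : ℂ, ∀ i, x i = Polynomial.C (p i) * (1 + Polynomial.C b * Polynomial.X) ^ a i := by
  classical
  -- the coordinates which vanish
  have hz : ∀ i, p i = 0 → x i = 0 := by
    intro i hi
    refine Polynomial.eq_zero_of_infinite_isRoot _ (hprop.mono ?_)
    rintro t ⟨l, _, hl⟩
    show (x i).eval t = 0
    rw [hl i, hi, mul_zero]
  have hne : ∀ i, p i ≠ 0 → x i ≠ 0 := by
    intro i hi h
    apply hi
    rw [← h0 i, h, Polynomial.coeff_zero]
  -- proportionality
  have hpow : ∀ i j, p i ≠ 0 → p j ≠ 0 →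
      (Polynomial.C (p i)⁻¹ * x i) ^ a j = (Polynomial.C (p j)⁻¹ * x j) ^ a i := by
    intro i j hi hj
    refine Polynomial.eq_of_infinite_eval_eq _ _ (hprop.mono ?_)
    rintro t ⟨l, _, hl⟩
    show ((Polynomial.C (p i)⁻¹ * x i) ^ a j).eval t = ((Polynomial.C (p j)⁻¹ * x j) ^ a i).eval t
    rw [Polynomial.eval_pow, Polynomial.eval_pow, Polynomial.eval_mul, Polynomial.eval_mul,
      Polynomial.eval_C, Polynomial.eval_C, hl i, hl j]
    have e1 : (p i)⁻¹ * (l ^ a i * p i) = l ^ a i := by
      field_simp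
    have e2 : (p j)⁻¹ * (l ^ a j * p j) = l ^ a j := by
      field_simp
    rw [e1, e2, ← pow_mul, ← pow_mul, mul_comm]
  have hcount : ∀ i j, p i ≠ 0 → p j ≠ 0 → ∀ r : ℂ,
      a j * (x i).roots.count r = a i * (x j).roots.count r := by
    intro i j hi hj r
    have e1 := congrArg (fun q : Polynomial ℂ => q.roots.count r) (hpow i j hi hj)
    simp only [Polynomial.roots_pow, Polynomial.roots_C_mul _ (inv_ne_zero hi),
      Polynomial.roots_C_mul _ (inv_ne_zero hj), Multiset.count_nsmul] at e1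
    exact e1
  by_cases hex : ∃ i1, p i1 ≠ 0 ∧ ∃ r : ℂ, (x i1).IsRoot r
  · obtain ⟨i1, hi1, r, hr⟩ := hex
    have hm1 : 0 < (x i1).roots.count r := by
      rw [Multiset.count_pos, Polynomial.mem_roots (hne i1 hi1)]
      exact hr
    have hmain : ∀ j, p j ≠ 0 → ∃ c : ℂ, x j = Polynomial.C c * (Polynomial.X - Polynomial.C r) ^ a j := by
      intro i0 hp
      set m : ℕ := (x i0).roots.count r with hm
      have hm0 : 0 < m := by
        have e1 := hcount i0 i1 hp hi1 r
        have e2 : 0 < a i1 * m := by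
          rw [hm, e1]
          exact Nat.mul_pos (ha i0) hm1
        exact Nat.pos_of_mul_pos_left e2
      have hg : 0 < Nat.gcd (a i0) m := Nat.gcd_pos_of_pos_left _ (ha i0)
      obtain ⟨g, N, P, hg0, hcop, hN, hP⟩ := Nat.exists_coprime' hg
      have hN1 : N = 1 := by
        refine hgcd N fun j hj => ?_
        have e1 := hcount i0 j hp hj r
        rw [← hm, hN, hP] at e1
        have e2 : a j * P = N * (x j).roots.count r := by
          have e3 : (a j * P) * g = (N * (x j).roots.count r) * g := by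
            rw [mul_assoc, e1]
            ring
          exact Nat.eq_of_mul_eq_mul_right hg0 e3
        exact hcop.dvd_of_dvd_mul_right (Dvd.intro _ e2.symm)
      have hle : a i0 ≤ m := by
        rw [hN, hP, hN1, one_mul]
        refine Nat.le_mul_of_pos_left g ?_
        rcases Nat.eq_zero_or_pos P with h | h
        · rw [h, zero_mul] at hP
          omega
        · exact h
      have hx0 := hne i0 hp
      obtain ⟨q, hq⟩ : (Polynomial.X - Polynomial.C r) ^ a i0 ∣ x i0 := by
        refine (Polynomial.le_rootMultiplicity_iff hx0).1 ?_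
        rw [← Polynomial.count_roots]
        exact hle
      have hq0 : q ≠ 0 := by
        rintro rfl
        exact hx0 (by rw [hq, mul_zero])
      have hXr : ((Polynomial.X - Polynomial.C r) ^ a i0 : Polynomial ℂ) ≠ 0 :=
        pow_ne_zero _ (Polynomial.X_sub_C_ne_zero r)
      have hqd : q.natDegree = 0 := by
        have e1 := hdeg i0
        rw [hq, Polynomial.natDegree_mul hXr hq0, Polynomial.natDegree_pow,
          Polynomial.natDegree_X_sub_C] at e1
        omega
      obtain ⟨c, hc⟩ : ∃ c, q = Polynomial.C c := ⟨_, Polynomial.eq_C_of_natDegree_eq_zero hqd⟩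
      exact ⟨c, by rw [hq, hc, mul_comm]⟩
    have hr0 : r ≠ 0 := by
      rintro rfl
      apply hi1
      rw [← h0 i1, Polynomial.coeff_zero_eq_eval_zero]
      exact hr
    refine ⟨-r⁻¹, fun i => ?_⟩
    by_cases hi : p i = 0
    · rw [hz i hi, hi, Polynomial.C_0, zero_mul]
    · obtain ⟨c, hc⟩ := hmain i hi
      have e1 : (Polynomial.X - Polynomial.C r : Polynomial ℂ) =
          Polynomial.C (-r) * (1 + Polynomial.C (-r⁻¹) * Polynomial.X) := by
        have e2 : Polynomial.C (-r) * Polynomial.C (-r⁻¹) = (1 : Polynomial ℂ) := by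
          rw [← Polynomial.C_mul, neg_mul_neg, mul_inv_cancel₀ hr0, Polynomial.C_1]
        rw [mul_add, ← mul_assoc, e2, mul_one, one_mul, Polynomial.C_neg]
        ring
      have e3 : x i = Polynomial.C (c * (-r) ^ a i) *
          (1 + Polynomial.C (-r⁻¹) * Polynomial.X) ^ a i := by
        rw [hc, e1, mul_pow, Polynomial.C_mul, Polynomial.C_pow, mul_assoc]
      have e4 : p i = c * (-r) ^ a i := by
        rw [← h0 i, Polynomial.coeff_zero_eq_eval_zero, e3]
        simp
      rw [e4]
      exact e3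
  · push Not at hex
    refine ⟨0, fun i => ?_⟩
    rw [map_zero, zero_mul, add_zero, one_pow, mul_one]
    by_cases hi : p i = 0
    · rw [hz i hi, hi, Polynomial.C_0]
    · have hd : (x i).degree = 0 := by
        by_contra hcon
        obtain ⟨r, hr⟩ := IsAlgClosed.exists_root (x i) hcon
        exact hex i hi r hr
      rw [Polynomial.eq_C_of_degree_eq_zero hd, h0 i]

theorem curveIdeal_zero {I κ : Type} (n : I → ℕ) (p : I → ℂ) (G : κ → MvPolynomial I ℂ)
    (hGp : ∀ r, eval p (G r) = 0) : ∀ q ∈ curveIdeal n p G, constantCoeff q = 0 := by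
  have hx0 : ∀ F : MvPolynomial I ℂ,
      aeval (fun i => (genX n p i).map (eval (0 : Un n → ℂ))) F = Polynomial.C (eval p F) := by
    intro F
    rw [← SysF_aevalC]
    congr 2
    funext i
    rw [SysF_genX]
    simp [curve]
  have hA : curveIdeal n p G ≤
      RingHom.ker (constantCoeff : MvPolynomial (Un n) ℂ →+* ℂ) := by
    refine Ideal.span_le.2 ?_
    rintro _ ⟨r, l, rfl⟩
    show constantCoeff ((genV n p (G r)).coeff l) = 0
    rw [← MvPolynomial.eval_zero, ← Polynomial.coeff_map, SysF_map, hx0, hGp, map_zero,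
      Polynomial.coeff_zero]
  exact fun q hq => hA hq

theorem curveIdeal_base {I κ : Type} (n : I → ℕ) (p : I → ℂ) (G : κ → MvPolynomial I ℂ)
    (c : Un n → ℂ) (hc : ∀ q ∈ curveIdeal n p G, eval c q = 0) (r : κ) :
    aeval (curve n p c) (G r) = 0 := by
  have h1 : curve n p c = fun i => (genX n p i).map (eval c) := funext fun i => (SysF_genX n p c i).symm
  rw [h1, ← SysF_map]
  ext l
  rw [Polynomial.coeff_map, Polynomial.coeff_zero]
  exact hc _ (Ideal.subset_span ⟨r, l, rfl⟩)

theorem curve_lin {I : Type} (n : I → ℕ) (p : I → ℂ) (c : Un n → ℂ) (i : I) :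
    (curve n p c i).natDegree ≤ n i ∧ (curve n p c i).coeff 0 = p i :=
  ⟨(SysF_lin (n i) (p i) (fun l => c ⟨i, l⟩) _ rfl).1,
    (SysF_lin (n i) (p i) (fun l => c ⟨i, l⟩) _ rfl).2.1⟩

/-- all curves of degree 1 (degree at most the weight in the coordinates of the factor `s`) form a family -/
noncomputable def linesFamily {σ I κ : Type} [DecidableEq σ] [Fintype I] [DecidableEq I] (bl : I → σ)
    (a : I → ℕ) (ha : ∀ i, 0 < a i) (y : I) (G : κ → MvPolynomial I ℂ) (v : I → ℂ)
    (hGv : ∀ r, eval v (G r) = 0) (s : σ)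
    (hgcd : ∀ M : ℕ, (∀ i, i ≠ y → bl i = s → v i ≠ 0 → M ∣ a i) → M = 1) (N : ℕ)
    (hN : (N : ℕ∞) ≤ curveDim (cdeg bl a y (Pi.single s 1)) v G) :
    CurveFamily bl a y G v (Pi.single s 1) N where
  A := curveIdeal (cdeg bl a y (Pi.single s 1)) v G
  base := fun c hc r => curveIdeal_base _ v G c hc r
  zero := curveIdeal_zero _ v G hGv
  dim := hN
  moving := by
    intro c _ hT
    have hn : ∀ i, i ≠ y → bl i = s → cdeg bl a y (Pi.single s 1) i = a i := by
      intro i hi hs
      rw [cdeg, if_neg hi, hs, Pi.single_eq_same, one_mul]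
    have hn0 : ∀ i, 0 < cdeg bl a y (Pi.single s 1) i → i ≠ y ∧ bl i = s := by
      intro i hi
      rw [cdeg] at hi
      by_cases h1 : i = y
      · rw [if_pos h1] at hi
        omega
      · rw [if_neg h1] at hi
        refine ⟨h1, ?_⟩
        by_contra h2
        rw [Pi.single_eq_of_ne h2, zero_mul] at hi
        omega
    have hinf : {t : ℂ | ∃ l : ℂ, l ≠ 0 ∧
        ∀ i : {i // 0 < cdeg bl a y (Pi.single s 1) i},
          (curve (cdeg bl a y (Pi.single s 1)) v c i).eval t =
            l ^ (cdeg bl a y (Pi.single s 1) i) * v i}.Infinite := by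
      have h1 : {t : ℂ | ∃ l : ℂ, l ≠ 0 ∧
        ∀ i : {i // 0 < cdeg bl a y (Pi.single s 1) i},
          (curve (cdeg bl a y (Pi.single s 1)) v c i).eval t =
            l ^ (cdeg bl a y (Pi.single s 1) i) * v i} ∈ nhds (0 : ℂ) := by
        filter_upwards [hT] with t ht
        obtain ⟨l, hl, h⟩ := ht
        refine ⟨l s, hl s, fun i => ?_⟩
        obtain ⟨h2, h3⟩ := hn0 i.1 i.2
        rw [hn i.1 h2 h3, h i.1 h2, h3]
      exact infinite_of_mem_nhds 0 h1
    obtain ⟨b, hb⟩ := const_family (I := {i // 0 < cdeg bl a y (Pi.single s 1) i})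
      (fun i => cdeg bl a y (Pi.single s 1) i) (fun i => i.2) (fun i => v i)
      (fun i => curve (cdeg bl a y (Pi.single s 1)) v c i)
      (fun i => (curve_lin _ v c i.1).1) (fun i => (curve_lin _ v c i.1).2)
      (fun M hM => hgcd M fun i hi hs hvi => by
        have h1 : 0 < cdeg bl a y (Pi.single s 1) i := by
          rw [hn i hi hs]
          exact ha i
        have h2 := hM ⟨i, h1⟩ hvi
        rw [← hn i hi hs]
        exact h2) hinf
    refine ⟨b, fun i => ?_⟩
    rcases Nat.eq_zero_or_pos (cdeg bl a y (Pi.single s 1) i) with h | h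
    · obtain ⟨h1, h2⟩ := curve_lin (cdeg bl a y (Pi.single s 1)) v c i
      rw [h] at h1
      rw [Polynomial.eq_C_of_natDegree_le_zero h1, h2, h, pow_zero, mul_one]
    · exact hb ⟨i, h⟩

end Pool.Agent.MP1e3e9c.C2
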