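import Pool.Agent.Lib.MP_1e3e9c_ag.C2.AuxF
import Pool.Agent.Lib.MP_1e3e9c_ag.C2.FamA
import Pool.Agent.Lib.MP_1e3e9c_ag.C2.FamB

/-!
# The cyclic case y^m = f, m = 3, 4, 6
-/

set_option autoImplicit false

open MvPolynomial

namespace Pool.Agent.MP1e3e9c.C2

theorem MainCF_mk_eq {σ I : Type} (bl : I → σ) (a : I → ℕ) (v : I → ℂ) (hv : Adm bl v) (w : I → ℂ)
    (h : Adm bl w) (e : w = v) : PP.mk bl a w h = PP.mk bl a v hv := by
  subst e
  rfl

theorem MainCF_mhom {σ I : Type} [DecidableEq σ] (bl : I → σ) (a : I → ℕ) (y : I) (m : ℕ)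
    (f : MvPolynomial I ℂ) (hf : MHom bl a f (Pi.single (bl y) (m * a y))) :
    MHom bl a (X y ^ m - f) (Pi.single (bl y) (m * a y)) := by
  have h1 := (isWeightedHomogeneous_X ℂ (fun i => (Pi.single (bl i) (a i) : σ → ℕ)) y).pow m
  have h2 : m • (Pi.single (bl y) (a y) : σ → ℕ) = Pi.single (bl y) (m * a y) := by
    funext s
    by_cases hs : s = bl y
    · subst hs
      simp
    · simp [Pi.single_eq_of_ne hs]
  rw [h2] at h1
  exact (weightedHomogeneousSubmodule ℂ (fun i => (Pi.single (bl i) (a i) : σ → ℕ))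
    (Pi.single (bl y) (m * a y))).sub_mem h1 hf

theorem main_cyc_fam {σ I J : Type} [Fintype σ] [DecidableEq σ] [Fintype I] [DecidableEq I]
    (bl : I → σ) (a : I → ℕ) (ha : ∀ i, 0 < a i) (y : I)
    (d : J → σ → ℕ) (g : J → MvPolynomial I ℂ) (hg : ∀ j, MHom bl a (g j) (d j))
    (hgy : ∀ j, (g j).degreeOf y = 0)
    (m : ℕ) (hm : m = 3 ∨ m = 4 ∨ m = 6)
    (f : MvPolynomial I ℂ) (hf : MHom bl a f (Pi.single (bl y) (m * a y)))
    (hfy : f.degreeOf y = 0)
    (v : I → ℂ) (hv : Adm bl v) (hEv : v y ^ m = eval v f) (hvy : v y ≠ 0)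
    (δ : σ → ℕ) (hδy : δ (bl y) ≠ 0) (N : ℕ) (hN : N = (m - 1) * (δ (bl y) * a y))
    (K : CurveFamily bl a y g v δ N) :
    ∃ F : ℂ → PP bl a, Hol F ∧
      (∀ z, F z ∈ Zer bl a (fun r : Option J => r.elim (X y ^ m - f) g)) ∧
      F 0 = PP.mk bl a v hv ∧ ∃ z, F z ≠ PP.mk bl a v hv := by
  have hQ : Nonempty (Fam m 1) := by
    rcases hm with rfl | rfl | rfl
    exacts [exists_fam3, exists_fam4, exists_fam6]
  obtain ⟨Q⟩ := hQ
  have hm1 : 1 ≤ m := by omega
  have hf' : f.IsWeightedHomogeneous (cdeg bl a y δ) (m * (δ (bl y) * a y)) := by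
    have h1 := mhom_delta bl a f _ hf δ
    have h2 : ∑ s, δ s * (Pi.single (bl y) (m * a y) : σ → ℕ) s = m * (δ (bl y) * a y) := by
      rw [Finset.sum_eq_single (bl y)]
      · rw [Pi.single_eq_same]
        ring
      · intro s _ hs
        rw [Pi.single_eq_of_ne hs, mul_zero]
      · intro h
        exact absurd (Finset.mem_univ _) h
    rw [h2] at h1
    exact wh_change f y hfy _ _ h1
  have hpos : 0 < δ (bl y) * a y := Nat.mul_pos (Nat.pos_of_ne_zero hδy) (ha y)
  have hfv : eval v f ≠ 0 := by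
    rw [← hEv]
    exact pow_ne_zero _ hvy
  obtain ⟨i0, hi0, hvi0⟩ := exists_pos_coord _ _ _ hf' (Nat.mul_pos (by omega) hpos) v hfv
  obtain ⟨Xf, R, hX, hR, hX0, hR0, hXc, hgX, hRX, hlast⟩ :=
    core_fam (cdeg bl a y δ) v i0 hi0 hvi0 g (fun j => ∑ s, δ s * d j s)
      (fun j => wh_change (g j) y (hgy j) _ _ (mhom_delta bl a (g j) (d j) (hg j) δ))
      K.A K.zero K.base (Trel bl a y v) (Trel_scale bl a y v δ) K.moving
      m 1 (δ (bl y) * a y) N hm1 hpos Q f hf' (v y) hEv hvy K.dim hN.ge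
  have hup : ∀ z, (fun i => (if i = y then R else Xf i) z) =
      Function.update (fun i => Xf i z) y (R z) := by
    intro z
    funext i
    by_cases hi : i = y
    · subst hi
      simp
    · simp [hi]
  have hΦ0 : (fun i => (if i = y then R else Xf i) 0) = v := by
    funext i
    by_cases hi : i = y
    · subst hi
      simp [hR0]
    · simp [hi, hX0 i]
  have h0 : Adm bl (fun i => (if i = y then R else Xf i) 0) := by
    rw [hΦ0]
    exact hv
  have hΦ : ∀ i, Differentiable ℂ (if i = y then R else Xf i) := by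
    intro i
    by_cases hi : i = y
    · rw [if_pos hi]
      exact hR
    · rw [if_neg hi]
      exact hX i
  obtain ⟨F, hF, hFz, hFmk⟩ := glue bl a ha (fun r : Option J => r.elim (X y ^ m - f) g)
    (fun r : Option J => r.elim (Pi.single (bl y) (m * a y)) d)
    (by
      rintro (_ | j)
      · exact MainCF_mhom bl a y m f hf
      · exact hg j)
    (fun i => if i = y then R else Xf i) hΦ h0
    (by
      intro r z
      rw [hup z]
      rcases r with _ | j
      · have e1 : eval (Function.update (fun i => Xf i z) y (R z)) (X y ^ m - f) =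
            R z ^ m - eval (fun i => Xf i z) f := by
          rw [map_sub, map_pow, eval_X, Function.update_self,
            eval_update_of_notMem f y hfy]
        have e2 : eval (Function.update (fun i => Xf i z) y (R z)) (X y ^ m - f) = 0 := by
          rw [e1, hRX z, sub_self]
        exact e2
      · have e1 : eval (Function.update (fun i => Xf i z) y (R z)) (g j) = 0 := by
          rw [eval_update_of_notMem (g j) y (hgy j)]
          exact hgX j z
        exact e1)
  have hF0 : F 0 = PP.mk bl a v hv :=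
    (hFmk 0 h0).trans (MainCF_mk_eq bl a v hv _ h0 hΦ0)
  refine ⟨F, hF, hFz, hF0, ?_⟩
  by_contra hcon
  have hcon' : ∀ z, F z = PP.mk bl a v hv := by
    intro z
    by_contra hz
    exact hcon ⟨z, hz⟩
  have hev : ∀ᶠ z in nhds (0 : ℂ), ∀ i, v i ≠ 0 → (if i = y then R else Xf i) z ≠ 0 := by
    rw [Filter.eventually_all]
    intro i
    by_cases hi : v i = 0
    · exact Filter.Eventually.of_forall fun z h => absurd hi h
    · have hc : ContinuousAt (if i = y then R else Xf i) 0 := (hΦ i).continuous.continuousAt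
      have hne : (if i = y then R else Xf i) 0 ≠ 0 := by
        have := congrFun hΦ0 i
        rw [this]
        exact hi
      exact (hc.eventually_ne hne).mono fun z h _ => h
  obtain ⟨r, hr, hball⟩ := Metric.eventually_nhds_iff.1 hev
  obtain ⟨z, hz, hno⟩ := hlast r hr
  have hzb := hball (y := z) (by rw [dist_zero_right]; exact hz)
  have hadm : Adm bl (fun i => (if i = y then R else Xf i) z) := by
    intro s
    obtain ⟨i, hi, hvi⟩ := hv s
    exact ⟨i, hi, hzb i hvi⟩
  have hEq : PP.mk bl a v hv = PP.mk bl a (fun i => (if i = y then R else Xf i) z) hadm :=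
    (hcon' z).symm.trans (hFmk z hadm)
  have hrel : TRel bl a v (fun i => (if i = y then R else Xf i) z) := Quotient.exact hEq
  obtain ⟨l, hl, hlv⟩ := hrel
  refine hno ⟨l, hl, fun i hi => ?_⟩
  have h1 : (if i = y then R else Xf i) z = l (bl i) ^ a i * v i := hlv i
  rw [if_neg hi] at h1
  exact h1

end Pool.Agent.MP1e3e9c.C2
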