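import Pool.Agent.Lib.MP_1e3e9c_ag.C2.AuxF
import Pool.Agent.Lib.MP_1e3e9c_ag.C2.FamA

/-!
# The case of an equation of degree at most 2 in y
-/

set_option autoImplicit false

open MvPolynomial

namespace Pool.Agent.MP1e3e9c.C2

/-- `y` does not occur in `G` -/
theorem MainQF_eval_update {I : Type} [DecidableEq I] (G : MvPolynomial I ℂ) (y : I)
    (hy : G.degreeOf y = 0) (w : I → ℂ) (T : ℂ) :
    eval (Function.update w y T) G = eval w G :=
  eval_update_of_notMem G y hy w T

/-- a polynomial in entire functions is entire -/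
theorem MainQF_diff {I : Type} (G : MvPolynomial I ℂ) (X : I → ℂ → ℂ)
    (hX : ∀ i, Differentiable ℂ (X i)) : Differentiable ℂ (fun z => eval (fun i => X i z) G) := by
  induction G using MvPolynomial.induction_on with
  | C a =>
    simp only [eval_C]
    exact differentiable_const a
  | add p q hp hq =>
    simp only [map_add]
    exact hp.add hq
  | mul_X p i hp =>
    simp only [map_mul, eval_X]
    exact hp.mul (hX i)

theorem main_quad_fam {σ I J : Type} [Fintype σ] [DecidableEq σ] [Fintype I] [DecidableEq I]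
    (bl : I → σ) (a : I → ℕ) (ha : ∀ i, 0 < a i) (y : I)
    (d : J → σ → ℕ) (g : J → MvPolynomial I ℂ) (hg : ∀ j, MHom bl a (g j) (d j))
    (hgy : ∀ j, (g j).degreeOf y = 0)
    (D : σ → ℕ) (E : MvPolynomial I ℂ) (hE : MHom bl a E D) (hEy : E.degreeOf y ≤ 2)
    (v : I → ℂ) (hv : Adm bl v) (hEv : eval v E = 0)
    (δ : σ → ℕ) (N : ℕ) (hN : N + δ (bl y) * a y = ∑ s, δ s * D s) (hN2 : 2 ≤ N)
    (K : CurveFamily bl a y g v δ N)
    (c : ℂ) (hc : c ≠ v y) (hEc : eval (Function.update v y c) E = 0)
    (c' : ℂ) (hEc' : eval (Function.update v y c') E ≠ 0) :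
    ∃ F : ℂ → PP bl a, Hol F ∧ (∀ z, F z ∈ Zer bl a (fun r : Option J => r.elim E g)) ∧
      F 0 = PP.mk bl a v hv ∧ ∃ z, F z ≠ PP.mk bl a v hv := by
  classical
  obtain ⟨n, hn⟩ : ∃ n : I → ℕ, n = fun i => δ (bl i) * a i := ⟨_, rfl⟩
  have hny : n y = δ (bl y) * a y := by rw [hn]
  obtain ⟨A, B, C, hAy, hBy, hCy, hEABC, -, hΔ⟩ := quadr n E (∑ s, δ s * D s) (by
    rw [hn]
    exact mhom_delta bl a E D hE δ) y hEy
  -- values of `E`
  have hev : ∀ (w : I → ℂ) (T : ℂ), eval (Function.update w y T) E =
      eval w A * T ^ 2 + eval w B * T + eval w C := by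
    intro w T
    rw [hEABC, map_add, map_add, map_mul, map_mul, map_pow, eval_X, Function.update_self,
      MainQF_eval_update A y hAy, MainQF_eval_update B y hBy, MainQF_eval_update C y hCy]
  have h1 : eval v A * v y ^ 2 + eval v B * v y + eval v C = 0 := by
    rw [← hev v (v y), Function.update_eq_self, hEv]
  have h2 : eval v A * c ^ 2 + eval v B * c + eval v C = 0 := by rw [← hev v c, hEc]
  have h3 : eval v A * c' ^ 2 + eval v B * c' + eval v C ≠ 0 := by rw [← hev v c']; exact hEc'
  have hcv : c - v y ≠ 0 := sub_ne_zero.2 hc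
  have h4 : eval v A * (v y + c) + eval v B = 0 := by
    have h5 : (c - v y) * (eval v A * (v y + c) + eval v B) = 0 := by
      linear_combination h2 - h1
    exact (mul_eq_zero.1 h5).resolve_left hcv
  have hA : eval v A ≠ 0 := by
    intro h5
    rw [h5, zero_mul, zero_add] at h4
    rw [h5, h4, zero_mul, zero_mul, zero_add, zero_add] at h1
    apply h3
    rw [h5, h4, h1]
    ring
  have hδ0 : 2 * eval v A * v y + eval v B ≠ 0 := by
    have h5 : 2 * eval v A * v y + eval v B = -(eval v A * (c - v y)) := by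
      linear_combination h4
    rw [h5]
    exact neg_ne_zero.2 (mul_ne_zero hA hcv)
  have hδ : (2 * eval v A * v y + eval v B) ^ 2 = eval v (B ^ 2 - 4 * A * C) := by
    have h6 : eval v (B ^ 2 - 4 * A * C) = eval v B ^ 2 - 4 * eval v A * eval v C := by
      have h7 : (4 : MvPolynomial I ℂ) = MvPolynomial.C 4 := (map_ofNat MvPolynomial.C 4).symm
      rw [map_sub, map_pow, map_mul, map_mul, h7, eval_C]
    rw [h6]
    linear_combination 4 * eval v A * h1
  obtain ⟨Q⟩ := exists_fam2
  have hDN : ∑ s, δ s * D s - n y = N := by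
    rw [hny]
    omega
  rw [hDN] at hΔ
  have hcd : (fun i => if i = y then 0 else n i) = cdeg bl a y δ := by
    funext i
    rw [hn]
    rfl
  rw [hcd] at hΔ
  have hΔv : eval v (B ^ 2 - 4 * A * C) ≠ 0 := by
    rw [← hδ]
    exact pow_ne_zero _ hδ0
  obtain ⟨i0, hi0, hvi0⟩ := exists_pos_coord _ _ _ hΔ (by omega) v hΔv
  obtain ⟨X, R, hXd, hRd, hX0, hR0, hXc, hXg, hRΔ, hlast⟩ :=
    core_fam (cdeg bl a y δ) v i0 hi0 hvi0 g (fun j => ∑ s, δ s * d j s)
      (fun j => wh_change (g j) y (hgy j) _ _ (mhom_delta bl a (g j) (d j) (hg j) δ))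
      K.A K.zero K.base (Trel bl a y v) (Trel_scale bl a y v δ) K.moving
      2 2 N N (by norm_num) hN2 Q (B ^ 2 - 4 * A * C) hΔ (2 * eval v A * v y + eval v B) hδ hδ0
      K.dim (by omega)
  -- the leading coefficient along the curve
  obtain ⟨G, hG⟩ : ∃ G : ℂ → ℂ, G = fun z => 2 * eval (fun i => X i z) A := ⟨_, rfl⟩
  have hGd : Differentiable ℂ G := by
    rw [hG]
    exact (MainQF_diff A X hXd).const_mul 2
  have hXv : (fun i => X i 0) = v := funext hX0
  have hG0 : G 0 ≠ 0 := by
    rw [hG]
    show 2 * eval (fun i => X i 0) A ≠ 0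
    rw [hXv]
    exact mul_ne_zero two_ne_zero hA
  obtain ⟨Φ, hΦ⟩ : ∃ Φ : I → ℂ → ℂ, Φ = fun i z => if i = y then
      (G z) ^ (a y - 1) * (-(eval (fun i => X i z) B) + R z)
      else if bl i = bl y then (G z) ^ (a i) * X i z else X i z := ⟨_, rfl⟩
  have hΦd : ∀ i, Differentiable ℂ (Φ i) := by
    intro i
    rw [hΦ]
    show Differentiable ℂ fun z => if i = y then
      (G z) ^ (a y - 1) * (-(eval (fun i => X i z) B) + R z)
      else if bl i = bl y then (G z) ^ (a i) * X i z else X i z
    split_ifs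
    · exact (hGd.pow _).mul ((MainQF_diff B X hXd).neg.add hRd)
    · exact (hGd.pow _).mul (hXd i)
    · exact hXd i
  have claim : ∀ z, G z ≠ 0 → (fun i => Φ i z) = fun i =>
      (if bl i = bl y then G z else 1) ^ a i * (Function.update (fun i => X i z) y
        ((-(eval (fun i => X i z) B) + R z) / G z)) i := by
    intro z hz
    funext i
    rw [hΦ]
    show (if i = y then (G z) ^ (a y - 1) * (-(eval (fun i => X i z) B) + R z)
      else if bl i = bl y then (G z) ^ (a i) * X i z else X i z) = _
    by_cases hi : i = y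
    · subst hi
      rw [if_pos rfl, if_pos rfl, Function.update_self]
      have h5 : G z ^ a i = G z ^ (a i - 1) * G z := by
        rw [← pow_succ, Nat.sub_add_cancel (ha i)]
      rw [h5]
      field_simp
    · rw [if_neg hi, Function.update_of_ne hi]
      by_cases hb : bl i = bl y
      · rw [if_pos hb, if_pos hb]
      · rw [if_neg hb, if_neg hb, one_pow, one_mul]
  have hmh : ∀ r : Option J, MHom bl a (r.elim E g) (r.elim D d) := by
    intro r
    cases r with
    | none => exact hE
    | some j => exact hg j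
  have hz : ∀ (r : Option J) z, eval (fun i => Φ i z) (r.elim E g) = 0 := by
    intro r
    refine entire_zero _ G (MainQF_diff _ Φ hΦd) hGd hG0 fun z hz => ?_
    have h5 := eval_torus bl a (r.elim E g) (r.elim D d) (hmh r)
      (fun t => if t = bl y then G z else 1) (Function.update (fun i => X i z) y
        ((-(eval (fun i => X i z) B) + R z) / G z))
    rw [claim z hz]
    rw [h5]
    refine mul_eq_zero_of_right _ ?_
    cases r with
    | none =>
      show eval _ E = 0
      rw [hev]
      have h6 := hRΔ z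
      have h7 : eval (fun i => X i z) (B ^ 2 - 4 * A * C) = eval (fun i => X i z) B ^ 2 -
          4 * eval (fun i => X i z) A * eval (fun i => X i z) C := by
        have h7 : (4 : MvPolynomial I ℂ) = MvPolynomial.C 4 := (map_ofNat MvPolynomial.C 4).symm
        rw [map_sub, map_pow, map_mul, map_mul, h7, eval_C]
      rw [h7] at h6
      have h8 : G z = 2 * eval (fun i => X i z) A := by rw [hG]
      have h9 : eval (fun i => X i z) A ≠ 0 := by
        intro h10
        rw [h8, h10, mul_zero] at hz
        exact hz rfl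
      rw [h8]
      generalize eval (fun i => X i z) A = α at *
      generalize eval (fun i => X i z) B = β at *
      generalize eval (fun i => X i z) C = γ at *
      have h11 : α * ((-β + R z) / (2 * α)) ^ 2 + β * ((-β + R z) / (2 * α)) + γ =
          (R z ^ 2 - (β ^ 2 - 4 * α * γ)) / (4 * α) := by
        field_simp
        ring
      rw [h11, h6, sub_self, zero_div]
    | some j =>
      show eval _ (g j) = 0
      rw [MainQF_eval_update (g j) y (hgy j)]
      exact hXg j z
  -- the value at `0`
  have hR0' : (-(eval (fun i => X i 0) B) + R 0) / G 0 = v y := by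
    have h8 : G 0 = 2 * eval v A := by
      rw [hG]
      show 2 * eval (fun i => X i 0) A = _
      rw [hXv]
    rw [h8, hR0, hXv, div_eq_iff (mul_ne_zero two_ne_zero hA)]
    ring
  have hΦ0 : (fun i => Φ i 0) = fun i => (if bl i = bl y then G 0 else 1) ^ a i * v i := by
    rw [claim 0 hG0, hR0', hXv, Function.update_eq_self]
  have hTR : TRel bl a v (fun i => Φ i 0) := by
    refine ⟨fun t => if t = bl y then G 0 else 1, fun t => ?_, fun i => ?_⟩
    · show (if t = bl y then G 0 else 1) ≠ 0
      split_ifs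
      · exact hG0
      · exact one_ne_zero
    · exact congrFun hΦ0 i
  have h0 : Adm bl (fun i => Φ i 0) := by
    intro t
    obtain ⟨i, hi, hvi⟩ := hv t
    refine ⟨i, hi, ?_⟩
    obtain ⟨l, hl, hli⟩ := hTR
    rw [hli i]
    exact mul_ne_zero (pow_ne_zero _ (hl _)) hvi
  obtain ⟨F, hF, hFz, hFm⟩ := glue bl a ha (fun r : Option J => r.elim E g)
    (fun r => r.elim D d) hmh Φ hΦd h0 hz
  refine ⟨F, hF, hFz, ?_, ?_⟩
  · rw [hFm 0 h0]
    exact Quotient.sound hTR.symm
  · by_contra hcon
    push Not at hcon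
    have hev1 : ∀ᶠ z in nhds (0 : ℂ), G z ≠ 0 := hGd.continuous.continuousAt.eventually_ne hG0
    have hev2 : ∀ᶠ z in nhds (0 : ℂ), ∀ i, Φ i 0 ≠ 0 → Φ i z ≠ 0 := by
      rw [Filter.eventually_all]
      intro i
      by_cases hi : Φ i 0 = 0
      · exact Filter.Eventually.of_forall fun z h => absurd hi h
      · exact ((hΦd i).continuous.continuousAt.eventually_ne hi).mono fun z h _ => h
    obtain ⟨r, hr, hball⟩ := Metric.eventually_nhds_iff.1 (hev1.and hev2)
    obtain ⟨z, hzr, hzn⟩ := hlast r hr
    obtain ⟨hGz, hΦz⟩ := hball (show dist z 0 < r by rw [dist_zero_right]; exact hzr)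
    have hadm : Adm bl (fun i => Φ i z) := by
      intro t
      obtain ⟨i, hi, hΦi⟩ := h0 t
      exact ⟨i, hi, hΦz i hΦi⟩
    have h5 := (hFm z hadm).symm.trans (hcon z)
    have h6 : TRel bl a (fun i => Φ i z) v := Quotient.exact h5
    obtain ⟨l, hl, hli⟩ := h6.symm
    apply hzn
    refine ⟨fun t => if t = bl y then l t / G z else l t, fun t => ?_, fun i hi => ?_⟩
    · show (if t = bl y then l t / G z else l t) ≠ 0
      split_ifs
      · exact div_ne_zero (hl t) hGz
      · exact hl t
    · show X i z = (if bl i = bl y then l (bl i) / G z else l (bl i)) ^ a i * v i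
      have h8 : Φ i z = l (bl i) ^ a i * v i := hli i
      rw [hΦ] at h8
      simp only [if_neg hi] at h8
      by_cases hb : bl i = bl y
      · rw [if_pos hb] at h8
        rw [if_pos hb, div_pow, div_mul_eq_mul_div, eq_div_iff (pow_ne_zero _ hGz), ← h8]
        ring
      · rw [if_neg hb] at h8
        rw [if_neg hb]
        exact h8

end Pool.Agent.MP1e3e9c.C2
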