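import Pool.Agent.Lib.MP_1e3e9c_ag.C2.Defs

/-!
# JOB Poin: the Poincare function of a repelling fixed point with multiplier 4

PROOF of poincare_abs. May assume nothing about v. Write c = max C 1.
(1) Choose rho > 0 small (rho <= delta/4, c*rho <= 1/16). For w with |w| * (|v| + 1) <= rho and 0 <= k <= n put
    h_k = h_(k,n)(w) = F^[k](p + 4^(-n) w v) - p. With X = |w| * |v| one has by induction on k
       |h_k| <= 2 * 4^(k-n) X     and     |h_k - 4^(k-n) w v| <= 16 c (4^(k-n) X)^2 .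
    (From hR with h' = 0 and hp:  |h_(k+1) - 4 h_k| <= C |h_k|^2 <= 4 c (4^(k-n) X)^2, and
     4 * 16 c (4^(k-n) X)^2 + 4 c (4^(k-n) X)^2 <= 16 c (4^(k+1-n) X)^2 because 64 + 4 <= 256; the first bound follows
     from the second because 16 c X <= 1.)
(2) Two starting points: if |h|, |h'| are two such sequences (h_(k+1) = F(p+h_k) - p, same for h'), both bounded by
    4 * 4^(k-n) X (X <= rho), then |h_(k+1) - h'_(k+1)| <= (4 + 8 c 4^(k-n) X) |h_k - h'_k|, so after n steps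
    |h_n - h'_n| <= 4^n * prod (1 + 2 c 4^(k-n) X) |h_0 - h'_0| <= 2 * 4^n |h_0 - h'_0| (the sum of the 2 c 4^(k-n) X is <= c X <= 1/16,
    and prod (1+x_k) <= exp(sum x_k) <= 2).
    Apply it with h_0 = 4^(-n) w v and h'_0 = F(p + 4^(-n-1) w v) - p, |h_0 - h'_0| <= C (4^(-n-1) X)^2:
       |Psi_(n+1)(w) - Psi_n(w)| <= 2 c 4^n 16^(-n-1) X^2 <= c 4^(-n) X^2,   Psi_n(w) = F^[n](p + 4^(-n) w v).
    Hence Psi_n converges uniformly on the ball |w| < r0 = rho/(|v|+1) to Psi0, Psi0 is differentiable there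
    (TendstoLocallyUniformlyOn.differentiableOn), Psi0(0) = p, |Psi0(w) - p - w v| <= 16 c X^2 (limit of (1) with k = n), so
    HasDerivAt Psi0 v 0; and Psi0(4w) = F(Psi0(w)) if |4w| < r0 (limit of Psi_(n+1)(4w) = F^[n+1](p + 4^(-n) w v) = F(Psi_n(w)), F continuous).
(3) Extension: for every w the value F^[n](Psi0(4^(-n) w)) is the same for all n with |4^(-n) w| < r0 (by the functional
    equation). Define Psi(w) by such an n (Nat.find or Classical.choose). Near a given w one n works for all points, so Psi is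
    differentiable; Psi(4w) = F(Psi(w)): take n large, Psi(4w) = F^[n+1](Psi0(4^(-n-1) 4 w)) = F (F^[n](Psi0(4^(-n) w))).
    Psi = Psi0 near 0.
PROOF of poincare: E = C x C, F(X,Z) = (F0 X Z, F1 X Z), p = (1,0), v = (0,1), delta = 1. All partial derivatives of first order of F at p: dF = 4 id.
    The estimate hR: F(p+h) - F(p+h') - 4(h-h') is a polynomial expression (h-h') times terms that vanish at h = h' = 0;
    e.g. write h = (x,z), h' = (x',z') and expand with ring; every monomial of F_i(1+x, z) other than the constant and the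
    linear one has degree >= 2 in (x,z), and |x^i z^j - x'^i z'^j| <= (i+j) (|h|+|h'|) |h-h'| for i+j >= 2, |h|,|h'| <= 1.
    (You may also prove hR from the mean value inequality applied to h -> F(p+h) - 4h, whose derivative has norm <= C |h|.)
-/

set_option autoImplicit false

open Filter Topology

namespace Pool.Agent.MP1e3e9c.C2

section abs

variable {E : Type} [NormedAddCommGroup E] [NormedSpace ℂ E]

theorem Poin_A (φ : E → E) (h0 : φ 0 = 0) (c δ X0 : ℝ) (hc : 1 ≤ c) (hX : 16 * c * X0 ≤ 1)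
    (hδ : 4 * X0 ≤ δ)
    (hR : ∀ h h' : E, ‖h‖ ≤ δ → ‖h'‖ ≤ δ →
      ‖φ h - φ h' - (4 : ℂ) • (h - h')‖ ≤ c * (‖h‖ + ‖h'‖) * ‖h - h'‖)
    (h : E) (y : ℝ) (hy : ‖h‖ ≤ y) (n : ℕ) (hn : 4 ^ n * y ≤ X0) (k : ℕ) (hk : k ≤ n) :
    ‖φ^[k] h - (4 : ℂ) ^ k • h‖ ≤ 16 * c * (4 ^ k * y) ^ 2 ∧ ‖φ^[k] h‖ ≤ 2 * (4 ^ k * y) := by
  have hy0 : 0 ≤ y := (norm_nonneg h).trans hy
  induction k with
  | zero =>
    rw [pow_zero, one_smul, pow_zero, one_mul, Function.iterate_zero, id, sub_self, norm_zero]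
    exact ⟨by positivity, by linarith⟩
  | succ k ih =>
    obtain ⟨e1, e2⟩ := ih (by omega)
    obtain ⟨t, ht⟩ : ∃ t : ℝ, t = 4 ^ k * y := ⟨_, rfl⟩
    have ht0 : 0 ≤ t := by rw [ht]; positivity
    have ht4 : (4 : ℝ) ^ (k + 1) * y = 4 * t := by rw [ht, pow_succ]; ring
    have htX : 4 * t ≤ X0 := by
      rw [← ht4]
      exact (mul_le_mul_of_nonneg_right (pow_le_pow_right₀ (by norm_num) hk) hy0).trans hn
    rw [← ht] at e1 e2
    rw [ht4, Function.iterate_succ_apply']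
    obtain ⟨g, hg⟩ : ∃ g : E, g = φ^[k] h := ⟨_, rfl⟩
    rw [← hg] at e1 e2 ⊢
    have hgδ : ‖g‖ ≤ δ := by linarith
    have hδ0 : ‖(0 : E)‖ ≤ δ := by rw [norm_zero]; exact (norm_nonneg g).trans hgδ
    have e3 := hR g 0 hgδ hδ0
    rw [h0, sub_zero, sub_zero, norm_zero, add_zero] at e3
    have e4 : ‖φ g - (4 : ℂ) • g‖ ≤ 4 * c * t ^ 2 := by
      refine e3.trans ?_
      have : ‖g‖ * ‖g‖ ≤ (2 * t) * (2 * t) := mul_le_mul e2 e2 (norm_nonneg _) (by positivity)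
      nlinarith
    have e5 : φ g - (4 : ℂ) ^ (k + 1) • h = (φ g - (4 : ℂ) • g) + (4 : ℂ) • (g - (4 : ℂ) ^ k • h) := by
      rw [smul_sub, smul_smul, ← pow_succ']
      abel
    have e6 : ‖φ g - (4 : ℂ) ^ (k + 1) • h‖ ≤ 16 * c * (4 * t) ^ 2 := by
      rw [e5]
      refine (norm_add_le _ _).trans ?_
      rw [norm_smul]
      have h4 : ‖(4 : ℂ)‖ = 4 := by norm_num
      rw [h4]
      nlinarith [sq_nonneg t]
    refine ⟨e6, ?_⟩
    have e7 : ‖(4 : ℂ) ^ (k + 1) • h‖ ≤ 4 * t := by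
      rw [norm_smul, norm_pow]
      have h4 : ‖(4 : ℂ)‖ = 4 := by norm_num
      rw [h4, ← ht4]
      exact mul_le_mul_of_nonneg_left hy (by positivity)
    have e8 : ‖φ g‖ ≤ ‖φ g - (4 : ℂ) ^ (k + 1) • h‖ + ‖(4 : ℂ) ^ (k + 1) • h‖ := by
      have := norm_add_le (φ g - (4 : ℂ) ^ (k + 1) • h) ((4 : ℂ) ^ (k + 1) • h)
      rwa [sub_add_cancel] at this
    have e9 : 16 * c * (4 * t) ^ 2 ≤ 4 * t := by
      have h1 : 16 * c * (4 * t) ≤ 1 := by nlinarith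
      nlinarith
    linarith

theorem Poin_B (φ : E → E) (h0 : φ 0 = 0) (c δ X0 : ℝ) (hc : 1 ≤ c) (hX : 16 * c * X0 ≤ 1)
    (hδ : 4 * X0 ≤ δ)
    (hR : ∀ h h' : E, ‖h‖ ≤ δ → ‖h'‖ ≤ δ →
      ‖φ h - φ h' - (4 : ℂ) • (h - h')‖ ≤ c * (‖h‖ + ‖h'‖) * ‖h - h'‖)
    (h h' : E) (y : ℝ) (hy : ‖h‖ ≤ y) (hy' : ‖h'‖ ≤ y) (n : ℕ) (hn : 4 ^ n * y ≤ X0) (k : ℕ)
    (hk : k ≤ n) :
    ‖φ^[k] h - φ^[k] h'‖ ≤ 4 ^ k * (1 + c * (4 ^ k * y)) * ‖h - h'‖ := by
  have hy0 : 0 ≤ y := (norm_nonneg h).trans hy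
  have hA := Poin_A φ h0 c δ X0 hc hX hδ hR h y hy n hn
  have hA' := Poin_A φ h0 c δ X0 hc hX hδ hR h' y hy' n hn
  induction k with
  | zero =>
    rw [pow_zero, one_mul, one_mul, Function.iterate_zero, id, id]
    have h1 : 0 ≤ c * y := by positivity
    nlinarith [norm_nonneg (h - h')]
  | succ k ih =>
    have e1 := ih (by omega)
    have e2 := (hA k (by omega)).2
    have e2' := (hA' k (by omega)).2
    obtain ⟨t, ht⟩ : ∃ t : ℝ, t = 4 ^ k * y := ⟨_, rfl⟩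
    have ht0 : 0 ≤ t := by rw [ht]; positivity
    have ht4 : (4 : ℝ) ^ (k + 1) * y = 4 * t := by rw [ht, pow_succ]; ring
    have htX : 4 * t ≤ X0 := by
      rw [← ht4]
      exact (mul_le_mul_of_nonneg_right (pow_le_pow_right₀ (by norm_num) hk) hy0).trans hn
    rw [← ht] at e1 e2 e2'
    rw [ht4, Function.iterate_succ_apply', Function.iterate_succ_apply']
    obtain ⟨g, hg⟩ : ∃ g : E, g = φ^[k] h := ⟨_, rfl⟩
    obtain ⟨g', hg'⟩ : ∃ g' : E, g' = φ^[k] h' := ⟨_, rfl⟩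
    rw [← hg] at e1 e2
    rw [← hg'] at e1 e2'
    rw [← hg, ← hg']
    have e3 := hR g g' (by linarith) (by linarith)
    have e4 : ‖φ g - φ g'‖ ≤ ‖φ g - φ g' - (4 : ℂ) • (g - g')‖ + 4 * ‖g - g'‖ := by
      have h1 := norm_add_le (φ g - φ g' - (4 : ℂ) • (g - g')) ((4 : ℂ) • (g - g'))
      rw [sub_add_cancel, norm_smul] at h1
      have h4 : ‖(4 : ℂ)‖ = 4 := by norm_num
      rwa [h4] at h1
    have e5 : c * (‖g‖ + ‖g'‖) * ‖g - g'‖ ≤ 4 * c * t * ‖g - g'‖ := by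
      refine mul_le_mul_of_nonneg_right ?_ (norm_nonneg _)
      have : c * (‖g‖ + ‖g'‖) ≤ c * (2 * t + 2 * t) :=
        mul_le_mul_of_nonneg_left (by linarith) (by linarith)
      linarith
    have e6 : ‖φ g - φ g'‖ ≤ 4 * (1 + c * t) * ‖g - g'‖ := by linarith
    have hct : 0 ≤ c * t := by positivity
    have hct1 : c * t ≤ 1 := by nlinarith
    have e7 : (1 + c * t) * (1 + c * t) ≤ 1 + c * (4 * t) := by nlinarith
    have hd := norm_nonneg (h - h')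
    have h4k : (0 : ℝ) ≤ 4 ^ k := by positivity
    calc ‖φ g - φ g'‖ ≤ 4 * (1 + c * t) * ‖g - g'‖ := e6
      _ ≤ 4 * (1 + c * t) * (4 ^ k * (1 + c * t) * ‖h - h'‖) :=
        mul_le_mul_of_nonneg_left e1 (by positivity)
      _ = 4 ^ (k + 1) * ((1 + c * t) * (1 + c * t)) * ‖h - h'‖ := by rw [pow_succ]; ring
      _ ≤ 4 ^ (k + 1) * (1 + c * (4 * t)) * ‖h - h'‖ := by
        refine mul_le_mul_of_nonneg_right (mul_le_mul_of_nonneg_left e7 (by positivity)) hd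

theorem Poin_step (φ : E → E) (h0 : φ 0 = 0) (c δ X0 : ℝ) (hc : 1 ≤ c) (hX : 16 * c * X0 ≤ 1)
    (hδ : 4 * X0 ≤ δ) (hX0 : 0 ≤ X0)
    (hR : ∀ h h' : E, ‖h‖ ≤ δ → ‖h'‖ ≤ δ →
      ‖φ h - φ h' - (4 : ℂ) • (h - h')‖ ≤ c * (‖h‖ + ‖h'‖) * ‖h - h'‖)
    (v : E) (w : ℂ) (hw : ‖w‖ * ‖v‖ ≤ X0 / 2) (n : ℕ) :
    ‖φ^[n] ((w / 4 ^ n) • v) - φ^[n + 1] ((w / 4 ^ (n + 1)) • v)‖ ≤
      c * X0 ^ 2 * (1 / 4 : ℝ) ^ n := by
  obtain ⟨g, hg⟩ : ∃ g : E, g = (w / 4 ^ (n + 1)) • v := ⟨_, rfl⟩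
  have h4 : ‖(4 : ℂ)‖ = 4 := by norm_num
  have h4g : (w / 4 ^ n) • v = (4 : ℂ) • g := by
    rw [hg, smul_smul]
    congr 1
    rw [pow_succ]
    field_simp
  obtain ⟨y, hy⟩ : ∃ y : ℝ, y = ‖g‖ := ⟨_, rfl⟩
  have hy0 : 0 ≤ y := by rw [hy]; exact norm_nonneg _
  have hyv : (4 : ℝ) ^ n * (4 * y) = ‖w‖ * ‖v‖ := by
    rw [hy, hg, norm_smul, norm_div, norm_pow, h4, pow_succ]
    field_simp
  have h41 : (1 : ℝ) ≤ 4 ^ n := one_le_pow₀ (by norm_num)
  have hy4 : 4 * y ≤ X0 / 2 := by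
    rw [← hyv] at hw
    nlinarith
  have e1 : ‖φ g - (4 : ℂ) • g‖ ≤ c * y ^ 2 := by
    have h1 := hR g 0 (by rw [← hy]; linarith) (by rw [norm_zero]; linarith)
    rw [h0, sub_zero, sub_zero, norm_zero, add_zero, ← hy] at h1
    calc _ ≤ _ := h1
      _ = c * y ^ 2 := by ring
  have e2 := (Poin_A φ h0 c δ X0 hc hX hδ hR g y hy.symm.le 1 (by linarith) 1 le_rfl).2
  rw [Function.iterate_one, pow_one] at e2
  rw [← hg, h4g, Function.iterate_succ_apply]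
  have e3 := Poin_B φ h0 c δ X0 hc hX hδ hR ((4 : ℂ) • g) (φ g) (8 * y)
    (by rw [norm_smul, h4, ← hy]; linarith) (by linarith) n (by nlinarith) n le_rfl
  refine e3.trans ?_
  have e4 : c * (4 ^ n * (8 * y)) ≤ 1 := by
    have h1 : (4 : ℝ) ^ n * (8 * y) ≤ X0 := by nlinarith
    nlinarith
  have e5 : ‖(4 : ℂ) • g - φ g‖ ≤ c * y ^ 2 := by rw [norm_sub_rev]; exact e1
  have hcy : 0 ≤ c * y ^ 2 := by positivity
  have hgeo : (1 / 4 : ℝ) ^ n = 1 / 4 ^ n := by rw [div_pow, one_pow]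
  calc 4 ^ n * (1 + c * (4 ^ n * (8 * y))) * ‖(4 : ℂ) • g - φ g‖
      ≤ 4 ^ n * 2 * (c * y ^ 2) := by
        refine mul_le_mul (mul_le_mul_of_nonneg_left (by linarith) (by positivity)) e5
          (norm_nonneg _) (by positivity)
    _ = c * (4 ^ n * (4 * y)) ^ 2 / 8 * (1 / 4) ^ n := by
        rw [hgeo]
        field_simp
        ring
    _ ≤ c * X0 ^ 2 * (1 / 4) ^ n := by
        refine mul_le_mul_of_nonneg_right ?_ (by positivity)
        have h1 : 4 ^ n * (4 * y) ≤ X0 := by rw [hyv]; linarith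
        have h2 : 0 ≤ 4 ^ n * (4 * y) := by positivity
        have h3 : (4 ^ n * (4 * y)) ^ 2 ≤ X0 ^ 2 := pow_le_pow_left₀ h2 h1 2
        have h5 : 0 ≤ c * X0 ^ 2 := by positivity
        nlinarith

end abs

theorem poincare_abs {E : Type} [NormedAddCommGroup E] [NormedSpace ℂ E] [CompleteSpace E]
    (F : E → E) (hF : Differentiable ℂ F) (p v : E) (hp : F p = p) (C δ : ℝ) (hC : 0 ≤ C)
    (hδ : 0 < δ)
    (hR : ∀ h h' : E, ‖h‖ ≤ δ → ‖h'‖ ≤ δ →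
      ‖F (p + h) - F (p + h') - (4 : ℂ) • (h - h')‖ ≤ C * (‖h‖ + ‖h'‖) * ‖h - h'‖) :
    ∃ Ψ : ℂ → E, Differentiable ℂ Ψ ∧ Ψ 0 = p ∧ HasDerivAt Ψ v 0 ∧
      ∀ w, Ψ (4 * w) = F (Ψ w) := by
  obtain ⟨c, hc⟩ : ∃ c, c = max C 1 := ⟨_, rfl⟩
  have hc1 : 1 ≤ c := by rw [hc]; exact le_max_right _ _
  have hCc : C ≤ c := by rw [hc]; exact le_max_left _ _
  obtain ⟨X0, hX0⟩ : ∃ X0, X0 = min (δ / 4) (1 / (16 * c)) := ⟨_, rfl⟩
  have hc0 : 0 < c := lt_of_lt_of_le one_pos hc1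
  have hX0pos : 0 < X0 := by
    rw [hX0]
    exact lt_min (by positivity) (by positivity)
  have h4X : 4 * X0 ≤ δ := by
    have : X0 ≤ δ / 4 := by rw [hX0]; exact min_le_left _ _
    linarith
  have h16 : 16 * c * X0 ≤ 1 := by
    have h1 : X0 ≤ 1 / (16 * c) := by rw [hX0]; exact min_le_right _ _
    have h2 : 16 * c * (1 / (16 * c)) = 1 := by field_simp
    rw [← h2]
    exact mul_le_mul_of_nonneg_left h1 (by positivity)
  obtain ⟨φ, hφ⟩ : ∃ φ : E → E, φ = fun h => F (p + h) - p := ⟨_, rfl⟩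
  have hφv : ∀ h, φ h = F (p + h) - p := fun h => by rw [hφ]
  have hφ0 : φ 0 = 0 := by rw [hφv, add_zero, hp, sub_self]
  have hφR : ∀ h h' : E, ‖h‖ ≤ δ → ‖h'‖ ≤ δ →
      ‖φ h - φ h' - (4 : ℂ) • (h - h')‖ ≤ c * (‖h‖ + ‖h'‖) * ‖h - h'‖ := by
    intro h h' hh hh'
    rw [hφv, hφv, sub_sub_sub_cancel_right]
    refine (hR h h' hh hh').trans ?_
    exact mul_le_mul_of_nonneg_right
      (mul_le_mul_of_nonneg_right hCc (add_nonneg (norm_nonneg _) (norm_nonneg _))) (norm_nonneg _)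
  have hsemi : ∀ (n : ℕ) (h : E), F^[n] (p + h) = p + φ^[n] h := by
    intro n h
    induction n with
    | zero => rfl
    | succ n ih =>
      rw [Function.iterate_succ_apply', Function.iterate_succ_apply', ih, hφv]
      abel
  obtain ⟨Ps, hPs⟩ : ∃ Ps : ℕ → ℂ → E, Ps = fun n w => F^[n] (p + (w / 4 ^ n) • v) := ⟨_, rfl⟩
  have hPsv : ∀ n w, Ps n w = F^[n] (p + (w / 4 ^ n) • v) := fun n w => by rw [hPs]
  have hPsd : ∀ n, Differentiable ℂ (Ps n) := by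
    intro n
    rw [hPs]
    exact (hF.iterate n).comp ((differentiable_const p).add
      ((differentiable_id.div_const _).smul_const v))
  have hstep : ∀ w : ℂ, ‖w‖ * ‖v‖ ≤ X0 / 2 → ∀ n,
      dist (Ps n w) (Ps (n + 1) w) ≤ c * X0 ^ 2 * (1 / 4 : ℝ) ^ n := by
    intro w hw n
    rw [dist_eq_norm, hPsv, hPsv, hsemi, hsemi, add_sub_add_left_eq_sub]
    exact Poin_step φ hφ0 c δ X0 hc1 h16 h4X hX0pos.le hφR v w hw n
  obtain ⟨r0, hr0⟩ : ∃ r0, r0 = X0 / (2 * (‖v‖ + 1)) := ⟨_, rfl⟩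
  have hv0 := norm_nonneg v
  have hr0pos : 0 < r0 := by rw [hr0]; positivity
  have hr : ∀ w : ℂ, ‖w‖ ≤ r0 → ‖w‖ * ‖v‖ ≤ X0 / 2 := by
    intro w hw
    have h1 : r0 * (‖v‖ + 1) = X0 / 2 := by
      rw [hr0]
      field_simp
    rw [← h1]
    exact mul_le_mul hw (by linarith) hv0 hr0pos.le
  have hq : (1 / 4 : ℝ) < 1 := by norm_num
  have hFc : Continuous F := hF.continuous
  have hlim : ∀ w : ℂ, ∃ l, Tendsto (fun n => Ps n w) atTop (𝓝 l) := by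
    intro w
    obtain ⟨N, hN⟩ := pow_unbounded_of_one_lt (‖w‖ / r0) (by norm_num : (1 : ℝ) < 4)
    have h1 : ‖w / 4 ^ N‖ ≤ r0 := by
      rw [norm_div, norm_pow]
      have h4 : ‖(4 : ℂ)‖ = 4 := by norm_num
      rw [h4, div_le_iff₀ (by positivity)]
      rw [div_lt_iff₀ hr0pos] at hN
      linarith
    obtain ⟨l, hl⟩ := cauchySeq_tendsto_of_complete
      (cauchySeq_of_le_geometric (1 / 4) (c * X0 ^ 2) hq (hstep _ (hr _ h1)))
    refine ⟨F^[N] l, ?_⟩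
    rw [← tendsto_add_atTop_iff_nat N]
    have h2 : (fun n => Ps (n + N) w) = fun n => F^[N] (Ps n (w / 4 ^ N)) := by
      funext n
      rw [hPsv, hPsv, add_comm n N, Function.iterate_add_apply, pow_add, div_div]
    rw [h2]
    exact ((hFc.iterate N).tendsto l).comp hl
  choose Ψ hΨ using hlim
  have hfun : ∀ w, Ψ (4 * w) = F (Ψ w) := by
    intro w
    refine tendsto_nhds_unique ((tendsto_add_atTop_iff_nat 1).2 (hΨ (4 * w))) ?_
    have h2 : (fun n => Ps (n + 1) (4 * w)) = fun n => F (Ps n w) := by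
      funext n
      rw [hPsv, hPsv, Function.iterate_succ_apply']
      congr 3
      rw [pow_succ]
      field_simp
    rw [h2]
    exact (hFc.tendsto _).comp (hΨ w)
  have hfunN : ∀ (N : ℕ) (w : ℂ), Ψ w = F^[N] (Ψ (w / 4 ^ N)) := by
    intro N w
    induction N with
    | zero => rw [pow_zero, div_one]; rfl
    | succ N ih =>
      rw [Function.iterate_succ_apply, ← hfun, ih]
      congr 2
      rw [pow_succ]
      field_simp
  have hball : DifferentiableOn ℂ Ψ (Metric.ball 0 r0) := by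
    have h1 : TendstoUniformlyOn Ps Ψ atTop (Metric.ball 0 r0) := by
      rw [Metric.tendstoUniformlyOn_iff]
      intro ε hε
      have h2 : Tendsto (fun n : ℕ => c * X0 ^ 2 * (1 / 4 : ℝ) ^ n / (1 - 1 / 4)) atTop
          (𝓝 (c * X0 ^ 2 * 0 / (1 - 1 / 4))) :=
        ((tendsto_pow_atTop_nhds_zero_of_lt_one (by norm_num) hq).const_mul _).div_const _
      rw [mul_zero, zero_div] at h2
      filter_upwards [h2.eventually (gt_mem_nhds hε)] with n hn w hw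
      have h3 : ‖w‖ ≤ r0 := by
        rw [Metric.mem_ball, dist_zero_right] at hw
        exact hw.le
      rw [dist_comm]
      exact (dist_le_of_le_geometric_of_tendsto (1 / 4) (c * X0 ^ 2) hq (hstep _ (hr _ h3))
        (hΨ w) n).trans_lt hn
    exact h1.tendstoLocallyUniformlyOn.differentiableOn
      (Eventually.of_forall fun n => (hPsd n).differentiableOn) Metric.isOpen_ball
  have hdiff : Differentiable ℂ Ψ := by
    intro w
    obtain ⟨N, hN⟩ := pow_unbounded_of_one_lt (‖w‖ / r0) (by norm_num : (1 : ℝ) < 4)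
    have h1 : w / 4 ^ N ∈ Metric.ball (0 : ℂ) r0 := by
      rw [Metric.mem_ball, dist_zero_right, norm_div, norm_pow]
      have h4 : ‖(4 : ℂ)‖ = 4 := by norm_num
      rw [h4, div_lt_iff₀ (by positivity)]
      rw [div_lt_iff₀ hr0pos] at hN
      linarith
    have h2 : DifferentiableAt ℂ Ψ (w / 4 ^ N) :=
      (hball _ h1).differentiableAt (Metric.isOpen_ball.mem_nhds h1)
    have h3 : Ψ = fun w => F^[N] (Ψ (w / 4 ^ N)) := funext (hfunN N)
    have h5 : DifferentiableAt ℂ (fun w : ℂ => w / 4 ^ N) w := differentiableAt_id.div_const _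
    have h6 : DifferentiableAt ℂ (fun w => Ψ (w / 4 ^ N)) w := DifferentiableAt.comp w h2 h5
    rw [h3]
    exact ((hF.iterate N) _).comp w h6
  have h00 : Ψ 0 = p := by
    refine tendsto_nhds_unique (hΨ 0) ?_
    have h2 : (fun n => Ps n 0) = fun _ => p := by
      funext n
      rw [hPsv, zero_div, zero_smul, add_zero]
      exact Function.iterate_fixed hp n
    rw [h2]
    exact tendsto_const_nhds
  refine ⟨Ψ, hdiff, h00, ?_, hfun⟩
  have hquad : ∀ w : ℂ, ‖w‖ ≤ r0 → ‖Ψ w - p - w • v‖ ≤ 16 * c * ‖v‖ ^ 2 * ‖w ^ 2‖ := by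
    intro w hw
    have h1 : Tendsto (fun n => ‖Ps n w - p - w • v‖) atTop (𝓝 ‖Ψ w - p - w • v‖) :=
      (((hΨ w).sub_const p).sub_const (w • v)).norm
    refine le_of_tendsto' h1 fun n => ?_
    have h4 : ‖(4 : ℂ)‖ = 4 := by norm_num
    have h2 : ‖(w / 4 ^ n) • v‖ ≤ ‖w‖ * ‖v‖ / 4 ^ n := by
      rw [norm_smul, norm_div, norm_pow, h4, div_mul_eq_mul_div]
    have h3 : (4 : ℝ) ^ n * (‖w‖ * ‖v‖ / 4 ^ n) = ‖w‖ * ‖v‖ := by field_simp
    have h5 := (Poin_A φ hφ0 c δ X0 hc1 h16 h4X hφR ((w / 4 ^ n) • v) (‖w‖ * ‖v‖ / 4 ^ n) h2 n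
      (by rw [h3]; have := hr w hw; linarith) n le_rfl).1
    rw [h3] at h5
    have h6 : (4 : ℂ) ^ n • (w / 4 ^ n) • v = w • v := by
      rw [smul_smul]
      congr 1
      field_simp
    rw [h6] at h5
    rw [hPsv, hsemi, add_sub_cancel_left]
    refine h5.trans (le_of_eq ?_)
    rw [norm_pow]
    ring
  rw [hasDerivAt_iff_isLittleO_nhds_zero]
  refine Asymptotics.IsBigO.trans_isLittleO (g := fun w : ℂ => w ^ 2)
    (Asymptotics.IsBigO.of_bound (16 * c * ‖v‖ ^ 2) ?_)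
    (Asymptotics.isLittleO_pow_id one_lt_two)
  filter_upwards [Metric.closedBall_mem_nhds (0 : ℂ) hr0pos] with w hw
  rw [mem_closedBall_zero_iff] at hw
  rw [zero_add, h00]
  exact hquad w hw

theorem Poin_bnd (f : ℂ × ℂ × ℂ × ℂ → ℂ) (hf : Continuous f) :
    ∃ M : ℝ, 0 ≤ M ∧ ∀ x z x' z' : ℂ, ‖x‖ ≤ 1 → ‖z‖ ≤ 1 → ‖x'‖ ≤ 1 → ‖z'‖ ≤ 1 →
      ‖f (x, z, x', z')‖ ≤ M := by
  obtain ⟨M, hM⟩ := (isCompact_closedBall (0 : ℂ × ℂ × ℂ × ℂ) 1).exists_bound_of_continuousOn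
    hf.continuousOn
  refine ⟨max M 0, le_max_right _ _, fun x z x' z' h1 h2 h3 h4 => (hM _ ?_).trans (le_max_left _ _)⟩
  rw [mem_closedBall_zero_iff]
  simp only [Prod.norm_mk, sup_le_iff]
  exact ⟨h1, h2, h3, h4⟩


theorem poincare (g2 g3 : ℂ) : ∃ A B : ℂ → ℂ, Differentiable ℂ A ∧ Differentiable ℂ B ∧
    A 0 = 1 ∧ B 0 = 0 ∧ deriv B 0 = 1 ∧ (∀ w, A (4 * w) = F0 g2 g3 (A w) (B w)) ∧
    (∀ w, B (4 * w) = F1 g2 g3 (A w) (B w)) := by
  obtain ⟨M1, hM1, b1⟩ := Poin_bnd (fun q => 6 + 4 * q.1 + 4 * q.2.2.1 +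
    (q.1 ^ 2 + q.1 * q.2.2.1 + q.2.2.1 ^ 2)) (by fun_prop)
  obtain ⟨M2, hM2, b2⟩ := Poin_bnd (fun q => 6 + 4 * q.2.2.1 + q.2.2.1 ^ 2) (by fun_prop)
  obtain ⟨M3, hM3, b3⟩ := Poin_bnd (fun q => g2 / 2 * ((1 + q.1) * q.2.1 +
    (1 + q.2.2.1) * q.2.2.2) + 2 * g3 * q.2.2.2 ^ 2) (by fun_prop)
  obtain ⟨M4, hM4, b4⟩ := Poin_bnd (fun q => g2 / 2 * (1 + q.1) ^ 2 +
    2 * g3 * (1 + q.1) * (q.2.1 + q.2.2.2) + g2 ^ 2 / 16 * (q.2.1 ^ 2 + q.2.1 * q.2.2.2 +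
      q.2.2.2 ^ 2)) (by fun_prop)
  obtain ⟨M5, hM5, b5⟩ := Poin_bnd (fun q => g2 / 2 * (1 + q.1) * (1 + q.2.2.1) +
    2 * g3 * (1 + q.1) * q.2.2.2 + g2 ^ 2 / 16 * q.2.2.2 ^ 2) (by fun_prop)
  obtain ⟨M6, hM6, b6⟩ := Poin_bnd (fun q => 12 + 12 * (q.1 + q.2.2.1) +
    4 * (q.1 ^ 2 + q.1 * q.2.2.1 + q.2.2.1 ^ 2) - g2 * q.2.2.2 ^ 2) (by fun_prop)
  obtain ⟨M7, hM7, b7⟩ := Poin_bnd (fun q => 12 + 12 * q.1 + 4 * q.1 ^ 2) (by fun_prop)
  obtain ⟨M8, hM8, b8⟩ := Poin_bnd (fun q => - g2 * (1 + q.1) * (q.2.1 + q.2.2.2) -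
    g3 * (q.2.1 ^ 2 + q.2.1 * q.2.2.2 + q.2.2.2 ^ 2)) (by fun_prop)
  obtain ⟨M9, hM9, b9⟩ := Poin_bnd (fun q => - g2 * (1 + q.1) * q.2.2.2 - g3 * q.2.2.2 ^ 2)
    (by fun_prop)
  have key : ∀ (M a b d : ℝ) (u y t : ℂ), 0 ≤ a → 0 ≤ b → 0 ≤ M → ‖u‖ ≤ d → ‖y‖ ≤ a + b →
      ‖t‖ ≤ M → ‖u * (y * t)‖ ≤ M * (a + b) * d := by
    intro M a b d u y t ha hb hM hu hy ht
    rw [norm_mul, norm_mul]
    have h1 : ‖y‖ * ‖t‖ ≤ (a + b) * M := mul_le_mul hy ht (norm_nonneg _) (by linarith)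
    have h2 : ‖u‖ * (‖y‖ * ‖t‖) ≤ d * ((a + b) * M) :=
      mul_le_mul hu h1 (by positivity) ((norm_nonneg _).trans hu)
    linarith
  obtain ⟨Ψ, hΨ1, hΨ2, hΨ3, hΨ4⟩ := poincare_abs
    (fun q : ℂ × ℂ => (F0 g2 g3 q.1 q.2, F1 g2 g3 q.1 q.2))
    (by unfold F0 F1; fun_prop) (1, 0) (0, 1) (by unfold F0 F1; simp)
    (M1 + M2 + M3 + M4 + M5 + M6 + M7 + M8 + M9) 1 (by positivity) one_pos (by
      rintro ⟨x, z⟩ ⟨x', z'⟩ hh hh'
      obtain ⟨a, ha⟩ : ∃ a, a = ‖(x, z)‖ := ⟨_, rfl⟩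
      obtain ⟨b, hb⟩ : ∃ b, b = ‖(x', z')‖ := ⟨_, rfl⟩
      obtain ⟨d, hd⟩ : ∃ d, d = ‖(x, z) - (x', z')‖ := ⟨_, rfl⟩
      rw [← ha, ← hb, ← hd]
      rw [← ha] at hh
      rw [← hb] at hh'
      rw [Prod.norm_mk] at ha hb
      rw [Prod.mk_sub_mk, Prod.norm_mk] at hd
      have hx : ‖x‖ ≤ a := by rw [ha]; exact le_max_left _ _
      have hz : ‖z‖ ≤ a := by rw [ha]; exact le_max_right _ _
      have hx' : ‖x'‖ ≤ b := by rw [hb]; exact le_max_left _ _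
      have hz' : ‖z'‖ ≤ b := by rw [hb]; exact le_max_right _ _
      have hdx : ‖x - x'‖ ≤ d := by rw [hd]; exact le_max_left _ _
      have hdz : ‖z - z'‖ ≤ d := by rw [hd]; exact le_max_right _ _
      have ha0 : 0 ≤ a := (norm_nonneg _).trans hx
      have hb0 : 0 ≤ b := (norm_nonneg _).trans hx'
      have hd0 : 0 ≤ d := (norm_nonneg _).trans hdx
      have c1 := b1 x z x' z' (hx.trans hh) (hz.trans hh) (hx'.trans hh') (hz'.trans hh')
      have c2 := b2 x z x' z' (hx.trans hh) (hz.trans hh) (hx'.trans hh') (hz'.trans hh')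
      have c3 := b3 x z x' z' (hx.trans hh) (hz.trans hh) (hx'.trans hh') (hz'.trans hh')
      have c4 := b4 x z x' z' (hx.trans hh) (hz.trans hh) (hx'.trans hh') (hz'.trans hh')
      have c5 := b5 x z x' z' (hx.trans hh) (hz.trans hh) (hx'.trans hh') (hz'.trans hh')
      have c6 := b6 x z x' z' (hx.trans hh) (hz.trans hh) (hx'.trans hh') (hz'.trans hh')
      have c7 := b7 x z x' z' (hx.trans hh) (hz.trans hh) (hx'.trans hh') (hz'.trans hh')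
      have c8 := b8 x z x' z' (hx.trans hh) (hz.trans hh) (hx'.trans hh') (hz'.trans hh')
      have c9 := b9 x z x' z' (hx.trans hh) (hz.trans hh) (hx'.trans hh') (hz'.trans hh')
      have hxs : ‖x‖ ≤ a + b := by linarith
      have hzs : ‖z‖ ≤ a + b := by linarith
      have hxs' : ‖x'‖ ≤ a + b := by linarith
      have hzs' : ‖z'‖ ≤ a + b := by linarith
      have k1 := key M1 a b d (x - x') x _ ha0 hb0 hM1 hdx hxs c1
      have k2 := key M2 a b d (x - x') x' _ ha0 hb0 hM2 hdx hxs' c2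
      have k3 := key M3 a b d (x - x') z' _ ha0 hb0 hM3 hdx hzs' c3
      have k4 := key M4 a b d (z - z') z _ ha0 hb0 hM4 hdz hzs c4
      have k5 := key M5 a b d (z - z') z' _ ha0 hb0 hM5 hdz hzs' c5
      have k6 := key M6 a b d (x - x') z' _ ha0 hb0 hM6 hdx hzs' c6
      have k7 := key M7 a b d (z - z') x _ ha0 hb0 hM7 hdz hxs c7
      have k8 := key M8 a b d (z - z') z _ ha0 hb0 hM8 hdz hzs c8
      have k9 := key M9 a b d (z - z') z' _ ha0 hb0 hM9 hdz hzs' c9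
      have n1 : 0 ≤ M1 * (a + b) * d := by positivity
      have n2 : 0 ≤ M2 * (a + b) * d := by positivity
      have n3 : 0 ≤ M3 * (a + b) * d := by positivity
      have n4 : 0 ≤ M4 * (a + b) * d := by positivity
      have n5 : 0 ≤ M5 * (a + b) * d := by positivity
      have n6 : 0 ≤ M6 * (a + b) * d := by positivity
      have n7 : 0 ≤ M7 * (a + b) * d := by positivity
      have n8 : 0 ≤ M8 * (a + b) * d := by positivity
      have n9 : 0 ≤ M9 * (a + b) * d := by positivity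
      have hsum : (M1 + M2 + M3 + M4 + M5 + M6 + M7 + M8 + M9) * (a + b) * d =
        M1 * (a + b) * d + M2 * (a + b) * d + M3 * (a + b) * d + M4 * (a + b) * d +
        M5 * (a + b) * d + M6 * (a + b) * d + M7 * (a + b) * d + M8 * (a + b) * d +
        M9 * (a + b) * d := by ring
      rw [hsum, norm_prod_le_iff]
      dsimp only at k1 k2 k3 k4 k5 k6 k7 k8 k9
      constructor
      · have e : ((F0 g2 g3 ((1, 0) + (x, z) : ℂ × ℂ).1 ((1, 0) + (x, z) : ℂ × ℂ).2,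
            F1 g2 g3 ((1, 0) + (x, z) : ℂ × ℂ).1 ((1, 0) + (x, z) : ℂ × ℂ).2) -
          (F0 g2 g3 ((1, 0) + (x', z') : ℂ × ℂ).1 ((1, 0) + (x', z') : ℂ × ℂ).2,
            F1 g2 g3 ((1, 0) + (x', z') : ℂ × ℂ).1 ((1, 0) + (x', z') : ℂ × ℂ).2) -
          (4 : ℂ) • ((x, z) - (x', z')) : ℂ × ℂ).1 =
            (x - x') * (x * (6 + 4 * x + 4 * x' + (x ^ 2 + x * x' + x' ^ 2))) +
            (x - x') * (x' * (6 + 4 * x' + x' ^ 2)) +
            (x - x') * (z' * (g2 / 2 * ((1 + x) * z + (1 + x') * z') + 2 * g3 * z' ^ 2)) +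
            (z - z') * (z * (g2 / 2 * (1 + x) ^ 2 + 2 * g3 * (1 + x) * (z + z') +
              g2 ^ 2 / 16 * (z ^ 2 + z * z' + z' ^ 2))) +
            (z - z') * (z' * (g2 / 2 * (1 + x) * (1 + x') + 2 * g3 * (1 + x) * z' +
              g2 ^ 2 / 16 * z' ^ 2)) := by
          change F0 g2 g3 (1 + x) (0 + z) - F0 g2 g3 (1 + x') (0 + z') - 4 * (x - x') = _
          unfold F0
          ring
        rw [e]
        have t1 := norm_add_le ((x - x') * (x * (6 + 4 * x + 4 * x' + (x ^ 2 + x * x' + x' ^ 2))) +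
            (x - x') * (x' * (6 + 4 * x' + x' ^ 2)) +
            (x - x') * (z' * (g2 / 2 * ((1 + x) * z + (1 + x') * z') + 2 * g3 * z' ^ 2)) +
            (z - z') * (z * (g2 / 2 * (1 + x) ^ 2 + 2 * g3 * (1 + x) * (z + z') +
              g2 ^ 2 / 16 * (z ^ 2 + z * z' + z' ^ 2))))
            ((z - z') * (z' * (g2 / 2 * (1 + x) * (1 + x') + 2 * g3 * (1 + x) * z' +
              g2 ^ 2 / 16 * z' ^ 2)))
        have t2 := norm_add_le ((x - x') * (x * (6 + 4 * x + 4 * x' + (x ^ 2 + x * x' + x' ^ 2))) +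
            (x - x') * (x' * (6 + 4 * x' + x' ^ 2)) +
            (x - x') * (z' * (g2 / 2 * ((1 + x) * z + (1 + x') * z') + 2 * g3 * z' ^ 2)))
            ((z - z') * (z * (g2 / 2 * (1 + x) ^ 2 + 2 * g3 * (1 + x) * (z + z') +
              g2 ^ 2 / 16 * (z ^ 2 + z * z' + z' ^ 2))))
        have t3 := norm_add_le ((x - x') * (x * (6 + 4 * x + 4 * x' + (x ^ 2 + x * x' + x' ^ 2))) +
            (x - x') * (x' * (6 + 4 * x' + x' ^ 2)))
            ((x - x') * (z' * (g2 / 2 * ((1 + x) * z + (1 + x') * z') + 2 * g3 * z' ^ 2)))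
        have t4 := norm_add_le ((x - x') * (x * (6 + 4 * x + 4 * x' + (x ^ 2 + x * x' + x' ^ 2))))
            ((x - x') * (x' * (6 + 4 * x' + x' ^ 2)))
        linarith
      · have e : ((F0 g2 g3 ((1, 0) + (x, z) : ℂ × ℂ).1 ((1, 0) + (x, z) : ℂ × ℂ).2,
            F1 g2 g3 ((1, 0) + (x, z) : ℂ × ℂ).1 ((1, 0) + (x, z) : ℂ × ℂ).2) -
          (F0 g2 g3 ((1, 0) + (x', z') : ℂ × ℂ).1 ((1, 0) + (x', z') : ℂ × ℂ).2,
            F1 g2 g3 ((1, 0) + (x', z') : ℂ × ℂ).1 ((1, 0) + (x', z') : ℂ × ℂ).2) -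
          (4 : ℂ) • ((x, z) - (x', z')) : ℂ × ℂ).2 =
            (x - x') * (z' * (12 + 12 * (x + x') + 4 * (x ^ 2 + x * x' + x' ^ 2) -
              g2 * z' ^ 2)) +
            (z - z') * (x * (12 + 12 * x + 4 * x ^ 2)) +
            (z - z') * (z * (- g2 * (1 + x) * (z + z') - g3 * (z ^ 2 + z * z' + z' ^ 2))) +
            (z - z') * (z' * (- g2 * (1 + x) * z' - g3 * z' ^ 2)) := by
          change F1 g2 g3 (1 + x) (0 + z) - F1 g2 g3 (1 + x') (0 + z') - 4 * (z - z') = _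
          unfold F1
          ring
        rw [e]
        have t1 := norm_add_le ((x - x') * (z' * (12 + 12 * (x + x') + 4 * (x ^ 2 + x * x' +
              x' ^ 2) - g2 * z' ^ 2)) +
            (z - z') * (x * (12 + 12 * x + 4 * x ^ 2)) +
            (z - z') * (z * (- g2 * (1 + x) * (z + z') - g3 * (z ^ 2 + z * z' + z' ^ 2))))
            ((z - z') * (z' * (- g2 * (1 + x) * z' - g3 * z' ^ 2)))
        have t2 := norm_add_le ((x - x') * (z' * (12 + 12 * (x + x') + 4 * (x ^ 2 + x * x' +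
              x' ^ 2) - g2 * z' ^ 2)) +
            (z - z') * (x * (12 + 12 * x + 4 * x ^ 2)))
            ((z - z') * (z * (- g2 * (1 + x) * (z + z') - g3 * (z ^ 2 + z * z' + z' ^ 2))))
        have t3 := norm_add_le ((x - x') * (z' * (12 + 12 * (x + x') + 4 * (x ^ 2 + x * x' +
              x' ^ 2) - g2 * z' ^ 2)))
            ((z - z') * (x * (12 + 12 * x + 4 * x ^ 2)))
        linarith)
  refine ⟨fun w => (Ψ w).1, fun w => (Ψ w).2, hΨ1.fst, hΨ1.snd, ?_, ?_, ?_, ?_, ?_⟩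
  · exact congrArg Prod.fst hΨ2
  · exact congrArg Prod.snd hΨ2
  · have h1 := (HasFDerivAt.snd hΨ3.hasFDerivAt).hasDerivAt.deriv
    rw [h1]
    simp
  · intro w
    exact congrArg Prod.fst (hΨ4 w)
  · intro w
    exact congrArg Prod.snd (hΨ4 w)

end Pool.Agent.MP1e3e9c.C2
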