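import Pool.Agent.Lib.MP_1e3e9c_ag.C2.Wp

/-!
# JOB Quart: Weierstrass' formula, all curves w^2 = quartic (also singular ones)

PROOF. Put c = q2/12,
  g2 = eps^2 q4 - q1 q3/4 + q2^2/12,
  g3 = eps^2 q4 q2/6 + q3 q2 q1/48 - q2^3/216 - q4 q1^2/16 - eps^2 q3^2/16,
take a, b, W0 from wp g2 g3 (W0^2 = 4 a^3 b - g2 a b^3 - g3 b^4) and
  S0 = 2 (a - c b)^2 - (eps^2 q4/2) b^2,
  T0 = -eps W0 + (q1/2)(a b - c b^2) + (eps^2 q3/4) b^2,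
  U  = (-eps (6 a^2 - (g2/2) b^2) + (q1/2) W0) S0
        - 4 (a - c b) (-eps (4 a^3 - g2 a b^2 - g3 b^3) + W0 ((q1/2)(a - c b) + (eps^2 q3/4) b)).
Then (checked numerically) modulo W0^2 = 4 a^3 b - g2 a b^3 - g3 b^4 =: R:
  U^2 = eps^2 S0^4 + q1 T0 S0^3 + q2 T0^2 S0^2 + q3 T0^3 S0 + q4 T0^4.
For linear_combination: write U = u0 + u1 W0, T0 = t0 - eps W0 with u0,u1,t0,S0 free of W0; then LHS - RHS is divisible by W0^2 - R with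
cofactor  K = c4 (W0^2 + R) + c3 W0 + c2,  c4 = -q4 eps^4, c3 = q3 eps^3 S0 + 4 q4 t0 eps^3,
c2 = u1^2 - q2 eps^2 S0^2 - 3 q3 t0 eps^2 S0 - 6 q4 t0^2 eps^2, i.e. `linear_combination K * h` with h : W0^2 = R.
(After substituting g2, g3. If ring is slow: first set the two polynomial identities obtained by comparing coefficients of 1 and W0.)
Values at 0 (a = 1, b = 0, W0 = 0): S0 = 2, T0 = 0, U = -12 eps + 16 eps = 4 eps. Take S = S0/2, T = T0/2, W = U/4.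
T not identically 0: if eps != 0, deriv T0 0 = -eps * (-2) + (q1/2) * deriv (a b) 0 + .. = 2 eps (deriv b 0 = 0, b 0 = 0) != 0.
If eps = 0: T0 = (q1/2) b (a - c b), and near 0, b != 0 on the punctured neighbourhood and a - c b -> 1.
-/

set_option autoImplicit false

open Filter Topology

namespace Pool.Agent.MP1e3e9c.C2

private theorem Quart_id (ε q1 q2 q3 q4 a b W g2 g3 : ℂ)
    (hg2 : g2 = ε ^ 2 * q4 - q1 * q3 / 4 + q2 ^ 2 / 12)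
    (hg3 : g3 = ε ^ 2 * q4 * q2 / 6 + q3 * q2 * q1 / 48 - q2 ^ 3 / 216 - q4 * q1 ^ 2 / 16 -
      ε ^ 2 * q3 ^ 2 / 16)
    (h : W ^ 2 = 4 * a ^ 3 * b - g2 * a * b ^ 3 - g3 * b ^ 4) :
    ((-ε * (6 * a ^ 2 - g2 / 2 * b ^ 2) + q1 / 2 * W) *
        (2 * (a - q2 / 12 * b) ^ 2 - ε ^ 2 * q4 / 2 * b ^ 2) -
      4 * (a - q2 / 12 * b) * (-ε * (4 * a ^ 3 - g2 * a * b ^ 2 - g3 * b ^ 3) +
        W * (q1 / 2 * (a - q2 / 12 * b) + ε ^ 2 * q3 / 4 * b))) ^ 2 =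
    ε ^ 2 * (2 * (a - q2 / 12 * b) ^ 2 - ε ^ 2 * q4 / 2 * b ^ 2) ^ 4 +
      q1 * (-ε * W + q1 / 2 * (a * b - q2 / 12 * b ^ 2) + ε ^ 2 * q3 / 4 * b ^ 2) *
        (2 * (a - q2 / 12 * b) ^ 2 - ε ^ 2 * q4 / 2 * b ^ 2) ^ 3 +
      q2 * (-ε * W + q1 / 2 * (a * b - q2 / 12 * b ^ 2) + ε ^ 2 * q3 / 4 * b ^ 2) ^ 2 *
        (2 * (a - q2 / 12 * b) ^ 2 - ε ^ 2 * q4 / 2 * b ^ 2) ^ 2 +
      q3 * (-ε * W + q1 / 2 * (a * b - q2 / 12 * b ^ 2) + ε ^ 2 * q3 / 4 * b ^ 2) ^ 3 *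
        (2 * (a - q2 / 12 * b) ^ 2 - ε ^ 2 * q4 / 2 * b ^ 2) +
      q4 * (-ε * W + q1 / 2 * (a * b - q2 / 12 * b ^ 2) + ε ^ 2 * q3 / 4 * b ^ 2) ^ 4 := by
  subst hg2
  subst hg3
  linear_combination (-q4 * ε ^ 4 * (W ^ 2 + (4 * a ^ 3 * b -
      (ε ^ 2 * q4 - q1 * q3 / 4 + q2 ^ 2 / 12) * a * b ^ 3 -
      (ε ^ 2 * q4 * q2 / 6 + q3 * q2 * q1 / 48 - q2 ^ 3 / 216 - q4 * q1 ^ 2 / 16 -
      ε ^ 2 * q3 ^ 2 / 16) * b ^ 4)) +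
    (q3 * ε ^ 3 * (2 * (a - q2 / 12 * b) ^ 2 - ε ^ 2 * q4 / 2 * b ^ 2) + 4 * q4 *
      (q1 / 2 * (a * b - q2 / 12 * b ^ 2) + ε ^ 2 * q3 / 4 * b ^ 2) * ε ^ 3) * W +
    ((q1 / 2 * (2 * (a - q2 / 12 * b) ^ 2 - ε ^ 2 * q4 / 2 * b ^ 2) - 4 * (a - q2 / 12 * b) *
      (q1 / 2 * (a - q2 / 12 * b) + ε ^ 2 * q3 / 4 * b)) ^ 2 -
      q2 * ε ^ 2 * (2 * (a - q2 / 12 * b) ^ 2 - ε ^ 2 * q4 / 2 * b ^ 2) ^ 2 -
      3 * q3 * (q1 / 2 * (a * b - q2 / 12 * b ^ 2) + ε ^ 2 * q3 / 4 * b ^ 2) * ε ^ 2 *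
        (2 * (a - q2 / 12 * b) ^ 2 - ε ^ 2 * q4 / 2 * b ^ 2) -
      6 * q4 * (q1 / 2 * (a * b - q2 / 12 * b ^ 2) + ε ^ 2 * q3 / 4 * b ^ 2) ^ 2 * ε ^ 2)) * h

theorem quart (ε q1 q2 q3 q4 : ℂ) (h : ε ≠ 0 ∨ q1 ≠ 0) :
    ∃ S T W : ℂ → ℂ, Differentiable ℂ S ∧ Differentiable ℂ T ∧ Differentiable ℂ W ∧
      S 0 = 1 ∧ T 0 = 0 ∧ W 0 = ε ∧
      (∀ z, W z ^ 2 = ε ^ 2 * S z ^ 4 + q1 * T z * S z ^ 3 + q2 * T z ^ 2 * S z ^ 2 +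
        q3 * T z ^ 3 * S z + q4 * T z ^ 4) ∧ ∃ z, T z ≠ 0 := by
  obtain ⟨g2, hg2⟩ : ∃ g2, g2 = ε ^ 2 * q4 - q1 * q3 / 4 + q2 ^ 2 / 12 := ⟨_, rfl⟩
  obtain ⟨g3, hg3⟩ : ∃ g3, g3 = ε ^ 2 * q4 * q2 / 6 + q3 * q2 * q1 / 48 - q2 ^ 3 / 216 -
    q4 * q1 ^ 2 / 16 - ε ^ 2 * q3 ^ 2 / 16 := ⟨_, rfl⟩
  obtain ⟨a, b, W, ha, hb, hW, ha0, hb0, hW0, hb', hW', hrel, hbne⟩ := wp g2 g3
  refine ⟨fun z => (2 * (a z - q2 / 12 * b z) ^ 2 - ε ^ 2 * q4 / 2 * b z ^ 2) / 2,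
    fun z => (-ε * W z + q1 / 2 * (a z * b z - q2 / 12 * b z ^ 2) + ε ^ 2 * q3 / 4 * b z ^ 2) / 2,
    fun z => ((-ε * (6 * a z ^ 2 - g2 / 2 * b z ^ 2) + q1 / 2 * W z) *
        (2 * (a z - q2 / 12 * b z) ^ 2 - ε ^ 2 * q4 / 2 * b z ^ 2) -
      4 * (a z - q2 / 12 * b z) * (-ε * (4 * a z ^ 3 - g2 * a z * b z ^ 2 - g3 * b z ^ 3) +
        W z * (q1 / 2 * (a z - q2 / 12 * b z) + ε ^ 2 * q3 / 4 * b z))) / 4,
    by fun_prop, by fun_prop, by fun_prop, ?_, ?_, ?_, ?_, ?_⟩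
  · beta_reduce
    rw [ha0, hb0]
    ring
  · beta_reduce
    rw [ha0, hb0, hW0]
    ring
  · beta_reduce
    rw [ha0, hb0, hW0]
    ring
  · intro z
    have h1 : W z ^ 2 = 4 * a z ^ 3 * b z - g2 * a z * b z ^ 3 - g3 * b z ^ 4 := hrel z
    have h2 := Quart_id ε q1 q2 q3 q4 (a z) (b z) (W z) g2 g3 hg2 hg3 h1
    beta_reduce
    rw [div_pow, h2]
    ring
  · by_cases hε : ε = 0
    · have hq1 : q1 ≠ 0 := by
        rcases h with h | h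
        · exact absurd hε h
        · exact h
      have hcont : ContinuousAt (fun z => a z - q2 / 12 * b z) 0 := by
        have h1 : Differentiable ℂ (fun z => a z - q2 / 12 * b z) := by fun_prop
        exact h1.continuous.continuousAt
      have hne : ∀ᶠ z in 𝓝 (0 : ℂ), a z - q2 / 12 * b z ≠ 0 := by
        refine hcont.eventually_ne ?_
        rw [ha0, hb0]
        norm_num
      obtain ⟨z, hz1, hz2⟩ := (hbne.and (eventually_nhdsWithin_of_eventually_nhds hne)).exists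
      refine ⟨z, ?_⟩
      beta_reduce
      rw [hε]
      have h3 : (-0 * W z + q1 / 2 * (a z * b z - q2 / 12 * b z ^ 2) + 0 ^ 2 * q3 / 4 * b z ^ 2) / 2
          = q1 / 4 * (b z * (a z - q2 / 12 * b z)) := by ring
      rw [h3]
      exact mul_ne_zero (div_ne_zero hq1 (by norm_num)) (mul_ne_zero hz1 hz2)
    · by_contra hcon
      have hcon' : (fun z => (-ε * W z + q1 / 2 * (a z * b z - q2 / 12 * b z ^ 2) +
          ε ^ 2 * q3 / 4 * b z ^ 2) / 2) = fun _ => 0 := by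
        funext z
        by_contra hz
        exact hcon ⟨z, hz⟩
      have dW : HasDerivAt W (-2) 0 := by
        rw [← hW']
        exact (hW 0).hasDerivAt
      have db : HasDerivAt b 0 0 := by
        have h1 := (hb 0).hasDerivAt
        rw [hb'] at h1
        exact h1
      have da : HasDerivAt a (deriv a 0) 0 := (ha 0).hasDerivAt
      have dT := ((((dW.const_mul (-ε)).add (((da.mul db).sub ((db.pow 2).const_mul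
        (q2 / 12))).const_mul (q1 / 2))).add ((db.pow 2).const_mul (ε ^ 2 * q3 / 4))).div_const 2)
      have h0 := hasDerivAt_const (0 : ℂ) (0 : ℂ)
      rw [← hcon'] at h0
      have h5 := h0.unique dT
      rw [hb0] at h5
      apply hε
      have h6 : (0 : ℂ) = ε := by
        rw [h5]
        ring
      exact h6.symm

end Pool.Agent.MP1e3e9c.C2
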