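import Pool.Agent.Lib.MP_1e3e9c_ag.C2.Cub

/-!
# JOB Sex: the curves w^4 = l1^2 l2 l3 and w^6 = l1^3 l2^2 l3 (also singular ones)

PROOF of four. CASE be = ga: quart with eps = 1 and the polynomial (1 + al t)(1 + be t) (q1 = al + be, q2 = al be, q3 = q4 = 0) gives S1,T1,W1 with
  W1^2 = S1^2 (S1 + al T1)(S1 + be T1). Take S = S1^2, T = T1 S1, W = W1: W^4 = S1^4 (S1 + al T1)^2 (S1 + be T1)^2 = (S + al T)^2 (S + be T)^2.
CASE be != ga: ka = (ga - be)/2, de = -ka^2 != 0, si = be + ga, ta = 2 al - be - ga. quart with eps = de, (q1,q2,q3,q4) = (de ta, 0, ta, -1):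
  W1^2 = (de S1^2 + T1^2)(de S1^2 + ta T1 S1 - T1^2). Put S0 = de S1^2 - si T1 S1 - T1^2, T0 = 2 T1 S1, W0 = W1. Then
  S0 + be T0 = -(ka S1 + T1)^2, S0 + ga T0 = -(ka S1 - T1)^2, S0 + al T0 = de S1^2 + ta T1 S1 - T1^2, hence
  (S0 + al T0)^2 (S0 + be T0)(S0 + ga T0) = (W1^2)^2 = W0^4. At 0: (de, 0, de). Divide by de. T0 not identically 0 (S1(0) = 1, T1 not identically 0, identity theorem).
PROOF of six. CASE al = ga: cub for (1 + al t)^2 (1 + be t) (q1 = 2 al + be, q2 = al^2 + 2 al be, q3 = al^2 be): W1^3 = (S1 + al T1)^2 (S1 + be T1); take the same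
  S, T, W: W^6 = (S + al T)^4 (S + be T)^2.
CASE al != ga: ka = (ga - al)/2 != 0, si = al + ga, th = (2 be - si)/ka. cub with q1 = -(1 + th), q2 = 1 + th, q3 = -1:
  W1^3 = (S1 - T1)(S1^2 - th T1 S1 + T1^2). Put S0 = ka S1^2 + si T1 S1 + ka T1^2, T0 = -2 T1 S1, W0 = ka (S1 + T1) W1. Then
  S0 + al T0 = ka (S1 + T1)^2, S0 + ga T0 = ka (S1 - T1)^2, S0 + be T0 = ka (S1^2 - th T1 S1 + T1^2), so
  (S0 + al T0)^3 (S0 + be T0)^2 (S0 + ga T0) = ka^6 (S1 + T1)^6 ((S1 - T1)(S1^2 - th T1 S1 + T1^2))^2 = W0^6.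
  At 0: (ka, 0, ka). Divide by ka.
-/

set_option autoImplicit false

open Filter Topology

namespace Pool.Agent.MP1e3e9c.C2

private theorem Sex_ne (f g : ℂ → ℂ) (hf : Differentiable ℂ f) (hg : Differentiable ℂ g)
    (h0 : g 0 ≠ 0) (hne : ∃ z, f z ≠ 0) : ∃ z, f z * g z ≠ 0 := by
  by_contra hcon
  push Not at hcon
  have h1 : ∀ᶠ z in 𝓝 (0 : ℂ), g z ≠ 0 := hg.continuous.continuousAt.eventually_ne h0
  have h2 : f =ᶠ[𝓝 (0 : ℂ)] (fun _ => (0 : ℂ)) :=
    h1.mono (fun z hz => (mul_eq_zero.1 (hcon z)).resolve_right hz)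
  have hfa : AnalyticOnNhd ℂ f Set.univ := fun z _ => hf.analyticAt z
  have h3 : f = fun _ => (0 : ℂ) := hfa.eq_of_eventuallyEq analyticOnNhd_const h2
  obtain ⟨z, hz⟩ := hne
  exact hz (congrFun h3 z)

theorem four (α β γ : ℂ) :
    HasCurve 4 (fun S T => (S + α * T) ^ 2 * (S + β * T) * (S + γ * T)) := by
  by_cases hbg : β = γ
  · subst hbg
    obtain ⟨S, T, W, hS, hT, hW, hS0, hT0, hW0, h, hne⟩ :=
      quart 1 (α + β) (α * β) 0 0 (Or.inl one_ne_zero)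
    refine ⟨fun z => S z ^ 2, fun z => T z * S z, W, hS.pow 2, hT.mul hS, hW, ?_, ?_, hW0, ?_,
      Sex_ne T S hT hS (by rw [hS0]; exact one_ne_zero) hne⟩
    · simp only [hS0, one_pow]
    · simp only [hT0, zero_mul]
    · intro z
      have h1 : W z ^ 4 = (W z ^ 2) ^ 2 := by ring
      rw [h1, h z]
      ring
  · have hk : (γ - β) / 2 ≠ 0 := div_ne_zero (sub_ne_zero.2 (Ne.symm hbg)) two_ne_zero
    obtain ⟨d, hd⟩ : ∃ d : ℂ, d = -((γ - β) / 2) ^ 2 := ⟨_, rfl⟩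
    have hd0 : d ≠ 0 := by
      rw [hd]
      exact neg_ne_zero.2 (pow_ne_zero 2 hk)
    obtain ⟨S, T, W, hS, hT, hW, hS0, hT0, hW0, h, hne⟩ :=
      quart d (d * (2 * α - β - γ)) 0 (2 * α - β - γ) (-1) (Or.inl hd0)
    have key : ∀ z, W z ^ 4 =
        ((d * S z ^ 2 - (β + γ) * (T z * S z) - T z ^ 2) + α * (2 * (T z * S z))) ^ 2 *
        ((d * S z ^ 2 - (β + γ) * (T z * S z) - T z ^ 2) + β * (2 * (T z * S z))) *
        ((d * S z ^ 2 - (β + γ) * (T z * S z) - T z ^ 2) + γ * (2 * (T z * S z))) := by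
      intro z
      have h1 : W z ^ 4 = (W z ^ 2) ^ 2 := by ring
      rw [h1, h z, hd]
      ring
    refine ⟨fun z => (d * S z ^ 2 - (β + γ) * (T z * S z) - T z ^ 2) / d,
      fun z => (2 * (T z * S z)) / d, fun z => W z / d, ?_, ?_, hW.div_const d, ?_, ?_, ?_, ?_, ?_⟩
    · exact ((((hS.pow 2).const_mul d).sub ((hT.mul hS).const_mul (β + γ))).sub
        (hT.pow 2)).div_const d
    · exact ((hT.mul hS).const_mul 2).div_const d
    · simp only [hS0, hT0]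
      field_simp
      ring
    · simp only [hS0, hT0]
      ring
    · simp only [hW0]
      exact div_self hd0
    · intro z
      simp only
      rw [div_pow, key z]
      field_simp
    · obtain ⟨z, hz⟩ := Sex_ne T S hT hS (by rw [hS0]; exact one_ne_zero) hne
      exact ⟨z, div_ne_zero (mul_ne_zero two_ne_zero hz) hd0⟩

theorem six (α β γ : ℂ) :
    HasCurve 6 (fun S T => (S + α * T) ^ 3 * (S + β * T) ^ 2 * (S + γ * T)) := by
  by_cases hag : α = γ
  · subst hag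
    obtain ⟨S, T, W, hS, hT, hW, hS0, hT0, hW0, h, hne⟩ :=
      cub (2 * α + β) (α ^ 2 + 2 * α * β) (α ^ 2 * β)
    have h' : ∀ z, W z ^ 3 = S z ^ 3 + (2 * α + β) * T z * S z ^ 2 +
        (α ^ 2 + 2 * α * β) * T z ^ 2 * S z + (α ^ 2 * β) * T z ^ 3 := h
    refine ⟨S, T, W, hS, hT, hW, hS0, hT0, hW0, ?_, hne⟩
    intro z
    have h1 : W z ^ 6 = (W z ^ 3) ^ 2 := by ring
    rw [h1, h' z]
    ring
  · obtain ⟨k, hk⟩ : ∃ k : ℂ, k = (γ - α) / 2 := ⟨_, rfl⟩
    have hk0 : k ≠ 0 := by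
      rw [hk]
      exact div_ne_zero (sub_ne_zero.2 (Ne.symm hag)) two_ne_zero
    obtain ⟨θ, hθ⟩ : ∃ θ : ℂ, θ = (2 * β - (α + γ)) / k := ⟨_, rfl⟩
    have hθ' : θ * k = 2 * β - (α + γ) := by
      rw [hθ]
      field_simp
    obtain ⟨S, T, W, hS, hT, hW, hS0, hT0, hW0, h, hne⟩ := cub (-(1 + θ)) (1 + θ) (-1)
    have h' : ∀ z, W z ^ 3 = S z ^ 3 + (-(1 + θ)) * T z * S z ^ 2 +
        (1 + θ) * T z ^ 2 * S z + (-1) * T z ^ 3 := h
    have key : ∀ z, (k * ((S z + T z) * W z)) ^ 6 =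
        ((k * S z ^ 2 + (α + γ) * (T z * S z) + k * T z ^ 2) + α * (-2 * (T z * S z))) ^ 3 *
        ((k * S z ^ 2 + (α + γ) * (T z * S z) + k * T z ^ 2) + β * (-2 * (T z * S z))) ^ 2 *
        ((k * S z ^ 2 + (α + γ) * (T z * S z) + k * T z ^ 2) + γ * (-2 * (T z * S z))) := by
      intro z
      have e1 : (k * S z ^ 2 + (α + γ) * (T z * S z) + k * T z ^ 2) + α * (-2 * (T z * S z)) =
          k * (S z + T z) ^ 2 := by
        rw [hk]
        ring
      have e2 : (k * S z ^ 2 + (α + γ) * (T z * S z) + k * T z ^ 2) + γ * (-2 * (T z * S z)) =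
          k * (S z - T z) ^ 2 := by
        rw [hk]
        ring
      have e3 : (k * S z ^ 2 + (α + γ) * (T z * S z) + k * T z ^ 2) + β * (-2 * (T z * S z)) =
          k * (S z ^ 2 - θ * (T z * S z) + T z ^ 2) := by
        linear_combination (T z * S z) * hθ'
      have h1 : (k * ((S z + T z) * W z)) ^ 6 = k ^ 6 * (S z + T z) ^ 6 * (W z ^ 3) ^ 2 := by ring
      rw [e1, e2, e3, h1, h' z]
      ring
    refine ⟨fun z => (k * S z ^ 2 + (α + γ) * (T z * S z) + k * T z ^ 2) / k,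
      fun z => (-2 * (T z * S z)) / k, fun z => (k * ((S z + T z) * W z)) / k,
      ?_, ?_, ?_, ?_, ?_, ?_, ?_, ?_⟩
    · exact ((((hS.pow 2).const_mul k).add ((hT.mul hS).const_mul (α + γ))).add
        ((hT.pow 2).const_mul k)).div_const k
    · exact ((hT.mul hS).const_mul (-2)).div_const k
    · exact (((hS.add hT).mul hW).const_mul k).div_const k
    · simp only [hS0, hT0]
      field_simp
      ring
    · simp only [hS0, hT0]
      ring
    · simp only [hS0, hT0, hW0]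
      field_simp
      ring
    · intro z
      simp only
      rw [div_pow, key z]
      field_simp
    · obtain ⟨z, hz⟩ := Sex_ne T S hT hS (by rw [hS0]; exact one_ne_zero) hne
      exact ⟨z, div_ne_zero (mul_ne_zero (neg_ne_zero.2 two_ne_zero) hz) hk0⟩

end Pool.Agent.MP1e3e9c.C2
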