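import Pool.Agent.Lib.MP_1e3e9c_ag.C2.Poin

/-!
# JOB Wp: the Weierstrass function without lattices

PROOF. Take A, B from poincare and a(z) = A(z^2), b(z) = B(z^2), W(z) = a'(z) b(z) - a(z) b'(z).
Then a(2z) = F0(a(z), b(z)), b(2z) = F1(a(z), b(z)) (with X = a, Z = b; 4 z^2 = (2z)^2).
Values: a(0) = 1, b(0) = 0, a'(0) = b'(0) = 0 (b'(z) = 2 z B'(z^2)), W(0) = 0, W'(0) = a''(0) b(0) - a(0) b''(0) = -b''(0) = -2 B'(0) = -2.
b(z) != 0 for small z != 0: B has a simple zero at 0 (deriv B 0 = 1: HasDerivAt.eventually_ne), compose with z^2.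
CLAIM: W(z)^2 = b(2z) for all z; this is the assertion since b(2z) = F1(a(z), b(z)).
 (i) W(2z) = (1/8) J(a(z),b(z)) W(z), J = F0_X F1_Z - F0_Z F1_X (the JJ below): differentiate a(2z) = F0(a,b): 2 a'(2z) = F0_X a' + F0_Z b',
     2 b'(2z) = F1_X a' + F1_Z b'; then 2 W(2z) = (F0_X a' + F0_Z b') F1 - F0 (F1_X a' + F1_Z b') and by ring (Euler's relation is
     built in the explicit polynomials) F0_X F1 - F0 F1_X = (b/4) J, F0_Z F1 - F0 F1_Z = -(a/4) J. So 2 W(2z) = (J/4)(a' b - a b').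
 (ii) b(4z) = F1(a(2z), b(2z)) = F1(F0(a,b), F1(a,b)) = (J(a,b)/8)^2 F1(a,b) = (J/8)^2 b(2z): polynomial identity, ring (checked numerically).
 (iii) So D(z) = W(z)^2 - b(2z) satisfies D(2z) = (J(a(z),b(z))/8)^2 D(z). Near 0: rho(z) = W(z)^2/b(2z) (z != 0 small) satisfies
     rho(2z) = rho(z) by (i), (ii) (J != 0 near 0: J(1,0) = 16), and rho(z) -> 1 for z -> 0 (W(z)/z -> -2, b(2z)/z^2 -> 4). Hence rho(z) =
     rho(z/2^n) -> 1, i.e. rho = 1 and D = 0 near 0. Identity theorem (AnalyticOnNhd / Differentiable) or D(2z) = ( )^2 D(z): D = 0 everywhere.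
-/

set_option autoImplicit false

open Filter Topology

namespace Pool.Agent.MP1e3e9c.C2

/-- the Jacobian determinant of `(F0, F1)` -/
noncomputable def JJ (g2 g3 X Z : ℂ) : ℂ :=
  (4 * X ^ 3 + g2 * X * Z ^ 2 + 2 * g3 * Z ^ 3) * (4 * X ^ 3 - 3 * g2 * X * Z ^ 2 - 4 * g3 * Z ^ 3) -
  (g2 * X ^ 2 * Z + 6 * g3 * X * Z ^ 2 + g2 ^ 2 / 4 * Z ^ 3) * (12 * X ^ 2 * Z - g2 * Z ^ 3)

theorem Wp_deriv_diff {f : ℂ → ℂ} (hf : Differentiable ℂ f) : Differentiable ℂ (deriv f) := by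
  have h := hf.differentiableOn.deriv (isOpen_univ (X := ℂ))
  exact differentiableOn_univ.1 h

theorem Wp_hasDerivAt_F0 (g2 g3 : ℂ) {a b : ℂ → ℂ} {a1 b1 z : ℂ} (ha : HasDerivAt a a1 z)
    (hb : HasDerivAt b b1 z) : HasDerivAt (fun z => F0 g2 g3 (a z) (b z))
      ((4 * a z ^ 3 + g2 * a z * b z ^ 2 + 2 * g3 * b z ^ 3) * a1 +
        (g2 * a z ^ 2 * b z + 6 * g3 * a z * b z ^ 2 + g2 ^ 2 / 4 * b z ^ 3) * b1) z := by
  have h := (((ha.pow 4).add (((ha.pow 2).const_mul (g2 / 2)).mul (hb.pow 2))).add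
    ((ha.const_mul (2 * g3)).mul (hb.pow 3))).add ((hb.pow 4).const_mul (g2 ^ 2 / 16))
  have h2 : (fun z => F0 g2 g3 (a z) (b z)) =
      (a ^ 4 + (fun y => g2 / 2 * (a ^ 2) y) * b ^ 2 + (fun y => 2 * g3 * a y) * b ^ 3 +
        fun y => g2 ^ 2 / 16 * (b ^ 4) y) := by
    funext y
    simp only [F0, Pi.add_apply, Pi.mul_apply, Pi.pow_apply]
  rw [h2]
  refine h.congr_deriv ?_
  simp only [Pi.pow_apply]
  push_cast
  ring

theorem Wp_hasDerivAt_F1 (g2 g3 : ℂ) {a b : ℂ → ℂ} {a1 b1 z : ℂ} (ha : HasDerivAt a a1 z)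
    (hb : HasDerivAt b b1 z) : HasDerivAt (fun z => F1 g2 g3 (a z) (b z))
      ((12 * a z ^ 2 * b z - g2 * b z ^ 3) * a1 +
        (4 * a z ^ 3 - 3 * g2 * a z * b z ^ 2 - 4 * g3 * b z ^ 3) * b1) z := by
  have h := ((((ha.pow 3).const_mul 4).mul hb).sub
    ((ha.const_mul g2).mul (hb.pow 3))).sub ((hb.pow 4).const_mul g3)
  have h2 : (fun z => F1 g2 g3 (a z) (b z)) =
      ((fun y => 4 * (a ^ 3) y) * b - (fun y => g2 * a y) * b ^ 3 -
        fun y => g3 * (b ^ 4) y) := by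
    funext y
    simp only [F1, Pi.sub_apply, Pi.mul_apply, Pi.pow_apply]
  rw [h2]
  refine h.congr_deriv ?_
  simp only [Pi.pow_apply]
  push_cast
  ring

theorem Wp_dup (g2 g3 X Z : ℂ) : F1 g2 g3 (F0 g2 g3 X Z) (F1 g2 g3 X Z) =
    (JJ g2 g3 X Z / 8) ^ 2 * F1 g2 g3 X Z := by
  unfold F0 F1 JJ
  ring

theorem wp (g2 g3 : ℂ) : ∃ a b W : ℂ → ℂ, Differentiable ℂ a ∧ Differentiable ℂ b ∧
    Differentiable ℂ W ∧ a 0 = 1 ∧ b 0 = 0 ∧ W 0 = 0 ∧ deriv b 0 = 0 ∧ deriv W 0 = -2 ∧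
    (∀ z, W z ^ 2 = F1 g2 g3 (a z) (b z)) ∧ (∀ᶠ z in 𝓝[≠] (0 : ℂ), b z ≠ 0) := by
  obtain ⟨A, B, hA, hB, A0, B0, dB, fA, fB⟩ := poincare g2 g3
  have hA' := Wp_deriv_diff hA
  have hB' := Wp_deriv_diff hB
  have hsq : Differentiable ℂ (fun z : ℂ => z ^ 2) := differentiable_id.pow 2
  obtain ⟨a, hadef⟩ : ∃ a : ℂ → ℂ, a = fun z => A (z ^ 2) := ⟨_, rfl⟩
  obtain ⟨b, hbdef⟩ : ∃ b : ℂ → ℂ, b = fun z => B (z ^ 2) := ⟨_, rfl⟩
  obtain ⟨a1, ha1def⟩ : ∃ a1 : ℂ → ℂ, a1 = fun z => deriv A (z ^ 2) * (2 * z) := ⟨_, rfl⟩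
  obtain ⟨b1, hb1def⟩ : ∃ b1 : ℂ → ℂ, b1 = fun z => deriv B (z ^ 2) * (2 * z) := ⟨_, rfl⟩
  have ha : Differentiable ℂ a := by rw [hadef]; exact hA.comp hsq
  have hb : Differentiable ℂ b := by rw [hbdef]; exact hB.comp hsq
  have hlin : Differentiable ℂ (fun z : ℂ => 2 * z) := differentiable_id.const_mul 2
  have ha1 : Differentiable ℂ a1 := by rw [ha1def]; exact (hA'.comp hsq).mul hlin
  have hb1 : Differentiable ℂ b1 := by rw [hb1def]; exact (hB'.comp hsq).mul hlin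
  have hda : ∀ z, HasDerivAt a (a1 z) z := by
    intro z
    rw [hadef, ha1def]
    have h := (hA (z ^ 2)).hasDerivAt.comp z (hasDerivAt_pow 2 z)
    refine h.congr_deriv ?_
    push_cast
    ring
  have hdb : ∀ z, HasDerivAt b (b1 z) z := by
    intro z
    rw [hbdef, hb1def]
    have h := (hB (z ^ 2)).hasDerivAt.comp z (hasDerivAt_pow 2 z)
    refine h.congr_deriv ?_
    push_cast
    ring
  have a0 : a 0 = 1 := by rw [hadef]; simp [A0]
  have b0 : b 0 = 0 := by rw [hbdef]; simp [B0]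
  have a10 : a1 0 = 0 := by rw [ha1def]; simp
  have b10 : b1 0 = 0 := by rw [hb1def]; simp
  have fa : ∀ z, a (2 * z) = F0 g2 g3 (a z) (b z) := by
    intro z
    have h := fA (z ^ 2)
    rw [hadef, hbdef]
    simp only
    rw [← h]
    congr 1
    ring
  have fb : ∀ z, b (2 * z) = F1 g2 g3 (a z) (b z) := by
    intro z
    have h := fB (z ^ 2)
    rw [hadef, hbdef]
    simp only
    rw [← h]
    congr 1
    ring
  obtain ⟨W, hWdef⟩ : ∃ W : ℂ → ℂ, W = fun z => a1 z * b z - a z * b1 z := ⟨_, rfl⟩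
  have hW : Differentiable ℂ W := by rw [hWdef]; exact (ha1.mul hb).sub (ha.mul hb1)
  have W0 : W 0 = 0 := by rw [hWdef]; simp [a10, b10]
  -- the derivative of `W`
  have hb1' : HasDerivAt b1 2 0 := by
    rw [hb1def]
    have h1 : HasDerivAt (fun z : ℂ => deriv B (z ^ 2)) (deriv (fun z : ℂ => deriv B (z ^ 2)) 0) 0 :=
      ((hB'.comp hsq) 0).hasDerivAt
    have h2 : HasDerivAt (fun z : ℂ => 2 * z) 2 0 := by
      have := (hasDerivAt_id (0 : ℂ)).const_mul (2 : ℂ)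
      rw [mul_one] at this
      exact this
    refine (h1.mul h2).congr_deriv ?_
    have h3 : ((0 : ℂ) ^ 2) = 0 := by norm_num
    rw [h3, dB]
    ring
  have hWd : HasDerivAt W (-2) 0 := by
    rw [hWdef]
    have h := (((ha1 0).hasDerivAt.mul (hdb 0)).sub ((hda 0).mul hb1'))
    refine h.congr_deriv ?_
    rw [a10, b10, b0, a0]
    ring
  -- (i)
  have hi : ∀ z, W (2 * z) = 1 / 8 * JJ g2 g3 (a z) (b z) * W z := by
    intro z
    have hdbl : HasDerivAt (fun z : ℂ => 2 * z) 2 z := by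
      have := (hasDerivAt_id z).const_mul (2 : ℂ)
      rw [mul_one] at this
      exact this
    have e1 : a1 (2 * z) * 2 =
        (4 * a z ^ 3 + g2 * a z * b z ^ 2 + 2 * g3 * b z ^ 3) * a1 z +
        (g2 * a z ^ 2 * b z + 6 * g3 * a z * b z ^ 2 + g2 ^ 2 / 4 * b z ^ 3) * b1 z := by
      have h1 := (hda (2 * z)).comp z hdbl
      have h2 := Wp_hasDerivAt_F0 g2 g3 (hda z) (hdb z)
      have h3 : (a ∘ fun z => 2 * z) = fun z => F0 g2 g3 (a z) (b z) := funext fa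
      rw [h3] at h1
      exact h1.unique h2
    have e2 : b1 (2 * z) * 2 =
        (12 * a z ^ 2 * b z - g2 * b z ^ 3) * a1 z +
        (4 * a z ^ 3 - 3 * g2 * a z * b z ^ 2 - 4 * g3 * b z ^ 3) * b1 z := by
      have h1 := (hdb (2 * z)).comp z hdbl
      have h2 := Wp_hasDerivAt_F1 g2 g3 (hda z) (hdb z)
      have h3 : (b ∘ fun z => 2 * z) = fun z => F1 g2 g3 (a z) (b z) := funext fb
      rw [h3] at h1
      exact h1.unique h2
    have e3 : 2 * W (2 * z) = (a1 (2 * z) * 2) * b (2 * z) - a (2 * z) * (b1 (2 * z) * 2) := by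
      rw [hWdef]
      ring
    have e4 : 2 * W (2 * z) = 2 * (1 / 8 * JJ g2 g3 (a z) (b z) * W z) := by
      rw [e3, e1, e2, fa, fb, hWdef]
      unfold F0 F1 JJ
      ring
    exact mul_left_cancel₀ two_ne_zero e4
  -- (ii)
  have hii : ∀ z, b (2 * (2 * z)) = (JJ g2 g3 (a z) (b z) / 8) ^ 2 * b (2 * z) := by
    intro z
    rw [fb (2 * z), fa, fb, Wp_dup]
  -- `b (2 z) = z ^ 2 β z`, `W z = z w z`
  obtain ⟨w, hwdef⟩ : ∃ w : ℂ → ℂ, w = fun z => 2 * (deriv A (z ^ 2) * B (z ^ 2) -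
    A (z ^ 2) * deriv B (z ^ 2)) := ⟨_, rfl⟩
  have hWw : ∀ z, W z = z * w z := by
    intro z
    rw [hWdef, hwdef, ha1def, hb1def, hadef, hbdef]
    ring
  have hw : Differentiable ℂ w := by
    rw [hwdef]
    exact (((hA'.comp hsq).mul (hB.comp hsq)).sub ((hA.comp hsq).mul (hB'.comp hsq))).const_mul 2
  have w0 : w 0 = -2 := by
    rw [hwdef]
    simp [A0, B0, dB]
  have hB1 : ∀ u, B u = u * dslope B 0 u := by
    intro u
    have h := sub_smul_dslope B 0 u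
    rw [B0, sub_zero, sub_zero, smul_eq_mul] at h
    exact h.symm
  have hB1d : Differentiable ℂ (dslope B 0) := by
    have h := (Complex.differentiableOn_dslope (s := Set.univ) (c := (0 : ℂ)) (f := B)
      Filter.univ_mem).2 hB.differentiableOn
    exact differentiableOn_univ.1 h
  have B10 : dslope B 0 0 = 1 := by rw [dslope_same, dB]
  obtain ⟨β, hβdef⟩ : ∃ β : ℂ → ℂ, β = fun z => 4 * dslope B 0 ((2 * z) ^ 2) := ⟨_, rfl⟩
  have hbβ : ∀ z, b (2 * z) = z ^ 2 * β z := by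
    intro z
    rw [hbdef, hβdef]
    simp only
    rw [hB1 ((2 * z) ^ 2)]
    ring
  have hβ : Differentiable ℂ β := by
    rw [hβdef]
    exact ((hB1d.comp (hsq.comp hlin))).const_mul 4
  have β0 : β 0 = 4 := by
    rw [hβdef]
    simp [dB]
  have hJ : Differentiable ℂ (fun z => JJ g2 g3 (a z) (b z)) := by
    unfold JJ
    fun_prop
  have J0 : JJ g2 g3 (a 0) (b 0) = 16 := by
    rw [a0, b0]
    unfold JJ
    norm_num
  have hev : ∀ᶠ z in 𝓝 (0 : ℂ), JJ g2 g3 (a z) (b z) ≠ 0 ∧ β z ≠ 0 := by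
    have h1 : ∀ᶠ z in 𝓝 (0 : ℂ), JJ g2 g3 (a z) (b z) ≠ 0 := by
      refine (hJ 0).continuousAt.eventually_ne ?_
      rw [J0]
      norm_num
    have h2 : ∀ᶠ z in 𝓝 (0 : ℂ), β z ≠ 0 := by
      refine (hβ 0).continuousAt.eventually_ne ?_
      rw [β0]
      norm_num
    exact h1.and h2
  obtain ⟨r, hr, hball⟩ := Metric.eventually_nhds_iff.1 hev
  have hJne : ∀ z : ℂ, ‖z‖ < r → JJ g2 g3 (a z) (b z) ≠ 0 := fun z hz =>
    (hball (by rw [dist_zero_right]; exact hz)).1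
  have hβne : ∀ z : ℂ, ‖z‖ < r → β z ≠ 0 := fun z hz =>
    (hball (by rw [dist_zero_right]; exact hz)).2
  -- `ρ (2 z) = ρ z`
  have hrho : ∀ z : ℂ, ‖z‖ < r → w (2 * z) ^ 2 / β (2 * z) = w z ^ 2 / β z := by
    intro z hz
    rcases eq_or_ne z 0 with rfl | hz0
    · rw [mul_zero]
    have h1 : w (2 * z) = JJ g2 g3 (a z) (b z) / 16 * w z := by
      have h := hi z
      rw [hWw (2 * z), hWw z] at h
      have h2 : (2 * z) * w (2 * z) = (2 * z) * (JJ g2 g3 (a z) (b z) / 16 * w z) := by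
        rw [h]
        ring
      exact mul_left_cancel₀ (mul_ne_zero two_ne_zero hz0) h2
    have h2 : β (2 * z) = (JJ g2 g3 (a z) (b z) / 16) ^ 2 * β z := by
      have h := hii z
      rw [hbβ (2 * z), hbβ z] at h
      have h2 : (2 * z) ^ 2 * β (2 * z) =
          (2 * z) ^ 2 * ((JJ g2 g3 (a z) (b z) / 16) ^ 2 * β z) := by
        rw [h]
        ring
      exact mul_left_cancel₀ (pow_ne_zero 2 (mul_ne_zero two_ne_zero hz0)) h2
    rw [h1, h2, mul_pow]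
    exact mul_div_mul_left _ _ (pow_ne_zero 2 (div_ne_zero (hJne z hz) (by norm_num)))
  -- `ρ z = ρ (z / 2 ^ n)`
  have hrho_n : ∀ (n : ℕ) (z : ℂ), ‖z‖ < r →
      w z ^ 2 / β z = w (z / 2 ^ n) ^ 2 / β (z / 2 ^ n) := by
    intro n
    induction n with
    | zero => intro z _; rw [pow_zero, div_one]
    | succ n ih =>
      intro z hz
      rw [ih z hz]
      have h1 : z / 2 ^ n = 2 * (z / 2 ^ (n + 1)) := by
        rw [pow_succ]
        field_simp
      rw [h1]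
      refine hrho _ (lt_of_le_of_lt ?_ hz)
      rw [norm_div]
      refine div_le_self (norm_nonneg z) ?_
      rw [norm_pow]
      exact one_le_pow₀ (by simp)
  have hlim : ∀ z : ℂ, Tendsto (fun n : ℕ => z / 2 ^ n) atTop (𝓝 0) := by
    intro z
    have h1 : Tendsto (fun n : ℕ => ((2 : ℂ)⁻¹) ^ n) atTop (𝓝 0) := by
      refine tendsto_pow_atTop_nhds_zero_of_norm_lt_one ?_
      rw [norm_inv]
      norm_num
    have h2 := h1.const_mul z
    rw [mul_zero] at h2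
    refine h2.congr fun n => ?_
    rw [inv_pow, div_eq_mul_inv]
  have hrho1 : ∀ z : ℂ, ‖z‖ < r → w z ^ 2 / β z = 1 := by
    intro z hz
    have hc : ContinuousAt (fun z => w z ^ 2 / β z) 0 :=
      ((hw 0).continuousAt.pow 2).div (hβ 0).continuousAt (by rw [β0]; norm_num)
    have h1 : Tendsto (fun n : ℕ => w (z / 2 ^ n) ^ 2 / β (z / 2 ^ n)) atTop
        (𝓝 (w 0 ^ 2 / β 0)) := hc.tendsto.comp (hlim z)
    have h2 : (fun n : ℕ => w (z / 2 ^ n) ^ 2 / β (z / 2 ^ n)) = fun _ => w z ^ 2 / β z :=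
      funext fun n => (hrho_n n z hz).symm
    rw [h2] at h1
    rw [tendsto_nhds_unique tendsto_const_nhds h1, w0, β0]
    norm_num
  -- `D = 0` near `0`
  have hD0 : ∀ z : ℂ, ‖z‖ < r → W z ^ 2 = b (2 * z) := by
    intro z hz
    have h1 := (div_eq_one_iff_eq (hβne z hz)).1 (hrho1 z hz)
    rw [hWw, hbβ, mul_pow, h1]
  have hDn : ∀ (n : ℕ) (z : ℂ), ‖z‖ < 2 ^ n * r → W z ^ 2 = b (2 * z) := by
    intro n
    induction n with
    | zero => intro z hz; exact hD0 z (by rw [pow_zero, one_mul] at hz; exact hz)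
    | succ n ih =>
      intro z hz
      have h1 : z = 2 * (z / 2) := by ring
      have h2 : ‖z / 2‖ < 2 ^ n * r := by
        rw [norm_div, Complex.norm_ofNat, div_lt_iff₀ two_pos]
        rw [pow_succ] at hz
        linarith
      have h3 := ih _ h2
      rw [h1, hi, hii, ← h3]
      ring
  have hD : ∀ z : ℂ, W z ^ 2 = b (2 * z) := by
    intro z
    obtain ⟨n, hn⟩ := pow_unbounded_of_one_lt (‖z‖ / r) (one_lt_two)
    exact hDn n z ((div_lt_iff₀ hr).1 hn)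
  refine ⟨a, b, W, ha, hb, hW, a0, b0, W0, ?_, hWd.deriv, ?_, ?_⟩
  · rw [(hdb 0).deriv, b10]
  · intro z
    rw [hD, fb]
  · have h1 : ContinuousAt (fun z : ℂ => dslope B 0 (z ^ 2)) 0 :=
      ((hB1d.comp hsq) 0).continuousAt
    have h2 : ∀ᶠ z in 𝓝 (0 : ℂ), dslope B 0 (z ^ 2) ≠ 0 := by
      refine h1.eventually_ne ?_
      simp [dB]
    have h3 : ∀ᶠ z in 𝓝[≠] (0 : ℂ), z ≠ 0 := eventually_mem_nhdsWithin
    filter_upwards [h3, nhdsWithin_le_nhds h2] with z hz hz2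
    rw [hbdef]
    simp only
    rw [hB1]
    exact mul_ne_zero (pow_ne_zero 2 hz) hz2

end Pool.Agent.MP1e3e9c.C2
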